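import Pool.Agent.Work.MP_b0497c_an.Forced.Ode.Stmts

set_option autoImplicit false

/-!
# ODE module of the forced Euler blow-up: the chain of eras (statements)
-/

open scoped ContDiff
open Set ContinuousLinearMap Filter Topology

namespace Pool.Agent.Work.MP_b0497c_an.Forced.Ode

/-- A stage of size `L`. -/
structure Stage (D : EraD) (L : ℝ) : Prop where
  ok : D.Ok
  a_eq : D.a = Real.exp L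
  c_lo : 1 / 2 ≤ D.c * L ^ 12
  c_hi : D.c * L ^ 12 ≤ 3 / 2
  X_eq : D.X = Real.sqrt D.c * L ^ 12 + 1
  Lam_eq : D.Lam = Real.exp (2 * Real.sqrt L)
  kap_lo : 1 / 2 + 1 / L ≤ D.kap
  kap_hi : D.kap ≤ 2 - 1 / L

/-- S1: numerical facts about stages of large size (a statement about real numbers):
`X = √c L^12 + 1`, `om = c √(exp L kap)`, `x0 = c^(1/4)`. -/
def StStageNum : Prop := ∃ Lst : ℝ, 10 ≤ Lst ∧ ∀ L ≥ Lst, ∀ c kap : ℝ, 1 / 2 ≤ c * L ^ 12 →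
  c * L ^ 12 ≤ 3 / 2 → 1 / 2 ≤ kap → kap ≤ 2 →
  0 < c ∧ c ≤ 1 / 10 ^ 8 ∧ 2 ≤ Real.sqrt c * L ^ 12 + 1 ∧
  c * (Real.sqrt c * L ^ 12 + 1) ≤ 1 / 10 ^ 4 ∧
  (Real.exp (2 * Real.sqrt L) * (Real.sqrt c * L ^ 12 + 1) / c) ^ 40 ≤ Real.exp L ∧
  c * Real.sqrt (Real.exp L * kap) ≤ Real.exp L / 2 ∧
  c * Real.sqrt (Real.exp L * kap) * Real.exp (-L) ≤ Real.sqrt (Real.sqrt c) ∧
  (Real.sqrt c * L ^ 12 + 1) / (c * Real.sqrt (Real.exp L * kap)) ≤ Real.exp (-(L / 4)) ∧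
  Real.exp (-(L / 4)) ≤ 1 ∧ Real.exp (-(L ^ 2 / 4)) ≤ Real.exp (-L) ∧
  Real.exp L * Real.exp (L ^ 2) * Real.exp (-(1 / (2 * Real.sqrt (Real.sqrt c)))) ≤
    Real.exp (-(L ^ 3 / 10)) ∧
  c ≤ 1 / L - 1 / L ^ 2

/-- All that is known about the packet `(w, q)` of weight `α` living on the flow `D.M`. -/
structure Pack (D : EraD) (a' : ℝ) (w q : ℝ → E3) (α : ℝ → ℝ) : Prop where
  flow : Flow D.M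
  wave : Wave D.M w q
  Mb : ∀ t ∈ D.I, ‖D.M t‖ ≤ 2 * D.a
  defo : ∀ b : ℝ → E3, (∀ t, HasDerivAt b (D.M t (b t)) t) → ∀ s ∈ D.I, ∀ t ∈ D.I,
    ‖b t‖ ≤ D.a * ‖b s‖
  q_lo : ∀ t ∈ D.I, 1 ≤ ‖q t‖
  q_hi : ∀ t ∈ D.I, ‖q t‖ ≤ 2 * D.a
  vort : ∀ t ∈ D.I, ∀ s : ℝ, ∀ A : Op, A = D.M t + s • ro (w t) (q t) →
    Real.sqrt (Real.sqrt D.a) ≤ ‖A - adjoint A‖
  α_pos : ∀ t ∈ D.J, 0 < α t
  w_le : ∀ t ∈ D.J, ‖w t‖ ≤ D.a * α t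
  α_le : ∀ t ∈ D.J, α t ≤ D.a * a'
  α_mono : ∀ s ∈ D.J, ∀ t ∈ D.J, s ≤ t → α s ≤ α t
  α_small : ∀ t ∈ D.J, D.x t ≤ 2 * D.x0 → α t ≤ D.a * a' * Real.exp (-(1 / (2 * D.x0)))
  dom : ∀ (w1 r : ℝ → E3) (t1 ρ : ℝ), t1 ∈ D.J → 0 ≤ ρ → w1 D.s0 = 0 →
    (∀ t ∈ Icc D.s0 t1, inner ℝ (q t) (w1 t) = 0 ∧ ‖r t‖ ≤ ρ * α t ∧
      HasDerivAt w1 (-(D.M t (w1 t))
        + (2 * inner ℝ (q t) (D.M t (w1 t)) / ‖q t‖ ^ 2) • q t + r t) t) →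
    ‖w1 t1‖ ≤ D.a * ρ * α t1

/-- S2: one step of the chain. -/
def StStep : Prop := ∃ Lst : ℝ, 10 ≤ Lst ∧ ∀ L ≥ Lst, ∀ D : EraD, Stage D L →
  ∃ (D' : EraD) (w q : ℝ → E3) (α : ℝ → ℝ), Stage D' (L ^ 2) ∧
    Pack D (Real.exp (L ^ 2)) w q α ∧ D'.t0 = D.tf ∧ ∀ t, D'.M t = D.M t + ro (w t) (q t)

/-- S3: the base of the chain. -/
def StBase : Prop := ∃ Lst : ℝ, 10 ≤ Lst ∧ ∀ L ≥ Lst, ∃ D : EraD, Stage D L ∧ D.t0 = 1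

/-- A chain of eras, with packets, of sizes `L0 ^ (2 ^ k)`. -/
structure ChainOk (L0 : ℝ) (D : ℕ → EraD) (w q : ℕ → ℝ → E3) (α : ℕ → ℝ → ℝ) : Prop where
  start : (D 0).t0 = 1
  stage : ∀ k, Stage (D k) (L0 ^ 2 ^ k)
  pack : ∀ k, Pack (D k) (Real.exp (L0 ^ 2 ^ (k + 1))) (w k) (q k) (α k)
  t0_next : ∀ k, (D (k + 1)).t0 = (D k).tf
  M_next : ∀ k t, (D (k + 1)).M t = (D k).M t + ro (w k t) (q k t)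

/-- S4: existence of chains. -/
def StChain : Prop := ∃ Lst : ℝ, 10 ≤ Lst ∧ ∀ L0 ≥ Lst, ∃ (D : ℕ → EraD) (w q : ℕ → ℝ → E3)
  (α : ℕ → ℝ → ℝ), ChainOk L0 D w q α

/-- S5: the times of the chain; windows `Icc (D k).s0 ((D k).t0 + (D k).T)`. -/
def StTimes : Prop := ∃ Lst : ℝ, 10 ≤ Lst ∧ ∀ L0 ≥ Lst, ∀ (D : ℕ → EraD) (w q : ℕ → ℝ → E3)
  (α : ℕ → ℝ → ℝ), ChainOk L0 D w q α → ∃ Ts : ℝ,
    (∀ k, 1 ≤ (D k).t0 ∧ (D k).t0 < (D k).s0 ∧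
      (D k).s0 + Real.exp (-(L0 ^ 2 ^ k)) ≤ (D (k + 1)).s0 ∧ (D k).s0 < Ts ∧
      Ts + Real.exp (-(L0 ^ 2 ^ k)) ≤ (D k).t0 + (D k).T ∧
      (D (k + 1)).t0 + (D (k + 1)).T ≤ (D k).t0 + (D k).T ∧ (D k).t0 ≤ (D (k + 1)).t0 ∧
      (∀ t ∈ Icc (D k).s0 ((D k).s0 + Real.exp (-(L0 ^ 2 ^ k))), (D k).x t ≤ 2 * (D k).x0) ∧
      (D k).t0 + (D k).T ≤ 3 ∧ (D (k + 1)).I ⊆ (D k).I ∧ (D k).J ⊆ (D k).I) ∧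
    Tendsto (fun k => (D k).s0) atTop (𝓝 Ts)

/-- Families of smooth functions with moderate time derivatives up to order `N`. -/
def ModV {E : Type} [NormedAddCommGroup E] [NormedSpace ℝ E] (Lam : ℕ → ℝ) (I : ℕ → Set ℝ)
    (mu : ℕ → ℝ → ℝ) (N : ℕ) (f : ℕ → ℝ → E) : Prop :=
  (∀ k, ContDiff ℝ ∞ (f k)) ∧
    ∀ d ≤ N, ∃ n : ℕ, ∀ k, ∀ t ∈ I k, ‖iteratedDeriv d (f k) t‖ ≤ Lam k ^ n * mu k t

/-- M1: bilinear maps. -/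
def StModBil : Prop := ∀ (E F G : Type) [NormedAddCommGroup E] [NormedSpace ℝ E]
  [NormedAddCommGroup F] [NormedSpace ℝ F] [NormedAddCommGroup G] [NormedSpace ℝ G]
  (B : E →L[ℝ] F →L[ℝ] G) (Lam : ℕ → ℝ) (I : ℕ → Set ℝ) (mu nu : ℕ → ℝ → ℝ) (N : ℕ)
  (f : ℕ → ℝ → E) (g : ℕ → ℝ → F), (∀ k, 2 ≤ Lam k) → (∀ k, ∀ t ∈ I k, 0 ≤ mu k t ∧ 0 ≤ nu k t) →
  ModV Lam I mu N f → ModV Lam I nu N g →
  ModV Lam I (fun k t => mu k t * nu k t) N (fun k t => B (f k t) (g k t))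

/-- M2: sums, multiples by constants, continuous linear maps. -/
def StModLin : Prop := ∀ (E F : Type) [NormedAddCommGroup E] [NormedSpace ℝ E]
  [NormedAddCommGroup F] [NormedSpace ℝ F] (A : E →L[ℝ] F) (Lam : ℕ → ℝ) (I : ℕ → Set ℝ)
  (mu : ℕ → ℝ → ℝ) (N : ℕ) (f g : ℕ → ℝ → E), (∀ k, 2 ≤ Lam k) →
  (∀ k, ∀ t ∈ I k, 0 ≤ mu k t) → ModV Lam I mu N f → ModV Lam I mu N g →
  ModV Lam I mu N (fun k t => f k t + g k t) ∧ ModV Lam I mu N (fun k t => A (f k t))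

/-- M3: solutions of linear ODEs gain one order. -/
def StModOde : Prop := ∀ (E : Type) [NormedAddCommGroup E] [NormedSpace ℝ E]
  (Lam : ℕ → ℝ) (I : ℕ → Set ℝ) (mu : ℕ → ℝ → ℝ) (N : ℕ) (A : ℕ → ℝ → E →L[ℝ] E)
  (f : ℕ → ℝ → E), (∀ k, 2 ≤ Lam k) → (∀ k, ∀ t ∈ I k, 0 ≤ mu k t) →
  ModV Lam I (fun _ _ => 1) N A → (∀ k, ContDiff ℝ ∞ (f k)) →
  (∀ k t, HasDerivAt (f k) (A k t (f k t)) t) →
  (∃ n : ℕ, ∀ k, ∀ t ∈ I k, ‖f k t‖ ≤ Lam k ^ n * mu k t) → ModV Lam I mu (N + 1) f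

/-- M4: reciprocals. -/
def StModInv : Prop := ∀ (Lam : ℕ → ℝ) (I : ℕ → Set ℝ) (N : ℕ) (h : ℕ → ℝ → ℝ),
  (∀ k, 2 ≤ Lam k) → (∀ k t, 0 < h k t) → ModV Lam I (fun _ _ => 1) N h →
  (∀ k, ∀ t ∈ I k, 1 ≤ h k t) → ModV Lam I (fun _ _ => 1) N (fun k t => (h k t)⁻¹)

/-- M5: moderate bounds for the waves from those of the flows. -/
def StModWave : Prop := ∀ (L0 : ℝ) (D : ℕ → EraD) (w q : ℕ → ℝ → E3) (α : ℕ → ℝ → ℝ) (N : ℕ),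
  1 ≤ L0 → ChainOk L0 D w q α →
  ModV (fun k => Real.exp (L0 ^ 2 ^ k)) (fun k => (D k).J) (fun _ _ => 1) N
    (fun k t => (D k).M t) →
  ModV (fun k => Real.exp (L0 ^ 2 ^ k)) (fun k => (D k).J) (fun _ _ => 1) (N + 1) q ∧
  ModV (fun k => Real.exp (L0 ^ 2 ^ k)) (fun k => (D k).J) α (N + 1) w

/-- M6: moderate bounds for the flows. -/
def StModM : Prop := ∃ Lst : ℝ, 10 ≤ Lst ∧ ∀ L0 ≥ Lst, ∀ (D : ℕ → EraD) (w q : ℕ → ℝ → E3)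
  (α : ℕ → ℝ → ℝ), ChainOk L0 D w q α → ∀ N : ℕ,
  ModV (fun k => Real.exp (L0 ^ 2 ^ k)) (fun k => (D k).J) (fun _ _ => 1) N (fun k t => (D k).M t)

/-- M7: the flow maps. -/
def StModF : Prop := ∀ (L0 : ℝ) (D : ℕ → EraD) (w q : ℕ → ℝ → E3) (α : ℕ → ℝ → ℝ),
  1 ≤ L0 → ChainOk L0 D w q α →
  (∀ N : ℕ, ModV (fun k => Real.exp (L0 ^ 2 ^ k)) (fun k => (D k).J) (fun _ _ => 1) N
    (fun k t => (D k).M t)) →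
  ∃ F Fi : ℕ → ℝ → Op, (∀ k, F k (D k).s0 = ContinuousLinearMap.id ℝ E3) ∧
    (∀ k t, HasDerivAt (F k) ((D k).M t ∘L F k t) t) ∧
    (∀ k t, F k t ∘L Fi k t = ContinuousLinearMap.id ℝ E3) ∧
    (∀ k t, Fi k t ∘L F k t = ContinuousLinearMap.id ℝ E3) ∧
    (∀ k, ∀ t ∈ (D k).J, ‖F k t‖ ≤ Real.exp (L0 ^ 2 ^ k) ∧ ‖Fi k t‖ ≤ Real.exp (L0 ^ 2 ^ k)) ∧
    (∀ N : ℕ, ModV (fun k => Real.exp (L0 ^ 2 ^ k)) (fun k => (D k).J) (fun _ _ => 1) N F ∧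
      ModV (fun k => Real.exp (L0 ^ 2 ^ k)) (fun k => (D k).J) (fun _ _ => 1) N Fi) ∧
    (∀ k t, adjoint (F k t) (q k t) = q k (D k).s0)

end Pool.Agent.Work.MP_b0497c_an.Forced.Ode
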