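import Pool.Agent.Work.MP_b0497c_an.Forced.Ode.Stmts

set_option autoImplicit false

/-!
# ODE module of the forced Euler blow-up: T4, the coefficients. By helper72.
-/

open scoped ContDiff
open Set ContinuousLinearMap

namespace Pool.Agent.Work.MP_b0497c_an.Forced.Ode

namespace Coef

/-- first coefficient, real numbers only -/
theorem first {y a L z m N : ℝ} (hy : 2 * 10 ^ 8 ≤ y) (ha : y ^ 40 ≤ a) (hL : L ≤ y)
    (hz : |z - a| ≤ 2 * L) (hm : 1 ≤ m) (hN : |N - m| ≤ m / y ^ 15) :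
    |z / a * (m / N) - 1| ≤ 1 / y ^ 12 := by
  have hy0 : (0 : ℝ) < y := by linarith
  have hy1 : (1 : ℝ) ≤ y := by linarith
  have hm0 : (0 : ℝ) < m := by linarith
  have hp15 : (0 : ℝ) < y ^ 15 := by positivity
  have ha0 : 0 < a := lt_of_lt_of_le (by positivity) ha
  have h15 : 1 / y ^ 15 ≤ 1 / 2 := by
    apply one_div_le_one_div_of_le (by norm_num)
    calc (2 : ℝ) ≤ y := by linarith
      _ = y ^ 1 := (pow_one y).symm
      _ ≤ y ^ 15 := pow_le_pow_right₀ hy1 (by norm_num)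
  have hNm : m / 2 ≤ N := by
    have := (abs_le.mp hN).1
    have h2 : m / y ^ 15 ≤ m / 2 := by
      rw [div_eq_mul_one_div m (y ^ 15), div_eq_mul_one_div m 2]
      exact mul_le_mul_of_nonneg_left h15 hm0.le
    linarith
  have hN0 : 0 < N := by linarith
  have key : z / a * (m / N) - 1 = ((z - a) / a * m + (m - N)) / N := by
    field_simp
    ring
  rw [key, abs_div, abs_of_pos hN0, div_le_iff₀ hN0]
  have h1 : |(z - a) / a * m + (m - N)| ≤ (2 * L / a) * m + m / y ^ 15 := by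
    refine (abs_add_le _ _).trans (add_le_add ?_ ?_)
    · rw [abs_mul, abs_div, abs_of_pos ha0, abs_of_pos hm0]
      gcongr
    · rw [abs_sub_comm]; exact hN
  have h2 : 2 * L / a ≤ 1 / y ^ 15 := by
    rw [div_le_div_iff₀ ha0 hp15]
    calc 2 * L * y ^ 15 ≤ 2 * y * y ^ 15 := by gcongr
      _ ≤ y * y * y ^ 15 := by
          have : (2 : ℝ) ≤ y := by linarith
          gcongr
      _ = y ^ 17 := by ring
      _ ≤ y ^ 40 := pow_le_pow_right₀ hy1 (by norm_num)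
      _ ≤ 1 * a := by rw [one_mul]; exact ha
  have h3 : 1 / y ^ 15 * 4 ≤ 1 / y ^ 12 := by
    rw [div_mul_eq_mul_div, one_mul, div_le_div_iff₀ hp15 (by positivity)]
    have : y ^ 15 = y ^ 3 * y ^ 12 := by ring
    rw [this, one_mul]
    have h4 : (4 : ℝ) ≤ y ^ 3 := by
      calc (4 : ℝ) ≤ y := by linarith
        _ = y ^ 1 := (pow_one y).symm
        _ ≤ y ^ 3 := pow_le_pow_right₀ hy1 (by norm_num)
    gcongr
  calc |(z - a) / a * m + (m - N)| ≤ (2 * L / a) * m + m / y ^ 15 := h1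
    _ ≤ 1 / y ^ 15 * m + m / y ^ 15 := by gcongr
    _ = 1 / y ^ 15 * 4 * (m / 2) := by ring
    _ ≤ 1 / y ^ 12 * N := by gcongr

/-- second coefficient, real numbers only -/
theorem second {y kap g x2 G E : ℝ} (hy : 2 * 10 ^ 8 ≤ y) (hk : 1 / 2 ≤ kap)
    (hg : |g - 1| ≤ 6 / y ^ 18) (hx0 : |1 - x2| ≤ y ^ 2)
    (hE : |G - kap * (1 - x2)| ≤ E) (hE2 : E ≤ 12 / y ^ 14) :
    |2 * G / g / kap - 2 * (1 - x2)| ≤ 1 / y ^ 12 := by
  have hy0 : (0 : ℝ) < y := by linarith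
  have hy1 : (1 : ℝ) ≤ y := by linarith
  have hk0 : 0 < kap := by linarith
  have h18 : 6 / y ^ 18 ≤ 1 / 2 := by
    rw [div_le_div_iff₀ (by positivity) (by norm_num)]
    calc (6 : ℝ) * 2 ≤ y := by linarith
      _ = y ^ 1 := (pow_one y).symm
      _ ≤ y ^ 18 := pow_le_pow_right₀ hy1 (by norm_num)
      _ = 1 * y ^ 18 := (one_mul _).symm
  have hg2 : 1 / 2 ≤ g := by
    have := (abs_le.mp hg).1
    linarith
  have hg0 : 0 < g := by linarith
  have key : 2 * G / g / kap - 2 * (1 - x2)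
      = (2 * (G - kap * (1 - x2)) / kap + 2 * (1 - x2) * (1 - g)) / g := by
    field_simp
    ring
  rw [key, abs_div, abs_of_pos hg0, div_le_iff₀ hg0]
  have h1 : |2 * (G - kap * (1 - x2)) / kap + 2 * (1 - x2) * (1 - g)|
      ≤ 4 * E + 2 * y ^ 2 * (6 / y ^ 18) := by
    refine (abs_add_le _ _).trans (add_le_add ?_ ?_)
    · rw [abs_div, abs_mul, abs_of_pos hk0, abs_of_pos (by norm_num : (0 : ℝ) < 2),
        div_le_iff₀ hk0]
      have hE0 : 0 ≤ E := le_trans (abs_nonneg _) hE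
      nlinarith
    · rw [abs_mul, abs_mul, abs_of_pos (by norm_num : (0 : ℝ) < 2), abs_sub_comm 1 g]
      gcongr
  have h2 : (2 * y ^ 2 * (6 / y ^ 18)) = 12 / y ^ 16 := by
    field_simp
    ring
  have h3 : 12 / y ^ 16 ≤ 12 / y ^ 14 := by
    have : y ^ 14 ≤ y ^ 16 := pow_le_pow_right₀ hy1 (by norm_num)
    gcongr
  have h4 : 60 / y ^ 14 ≤ 1 / y ^ 12 * (1 / 2) := by
    have h5 : 1 / y ^ 12 * (1 / 2) = (y ^ 2 / 2) / y ^ 14 := by
      field_simp
    rw [h5]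
    gcongr
    nlinarith
  calc |2 * (G - kap * (1 - x2)) / kap + 2 * (1 - x2) * (1 - g)|
      ≤ 4 * E + 2 * y ^ 2 * (6 / y ^ 18) := h1
    _ ≤ 4 * (12 / y ^ 14) + 12 / y ^ 14 := by rw [h2]; linarith
    _ = 60 / y ^ 14 := by ring
    _ ≤ 1 / y ^ 12 * (1 / 2) := h4
    _ ≤ 1 / y ^ 12 * g := by gcongr

end Coef

open Coef in
theorem prf_StCoef (hN : StPar) (hE : StExact) (hB : StBounds) (hP : StP) : StCoef := by
  intro D hD t ht
  obtain ⟨hy, hLy, hXy, hcy, hXcy, ha0, hom, hT0, -, -, hLT, -, -, -, -, -, -, -, -, -, -, -, -,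
    hpar⟩ := hN D hD
  obtain ⟨hτ0, hτT, hx0, hxX, hxk, hk0, hkX, -⟩ := hpar t ht
  obtain ⟨-, -, -, -, hzz, hz0⟩ := hE D hD
  obtain ⟨-, hb2, -, -, -, -, -, hBB, hbb, -, -, -, -⟩ := hB D hD t ht
  obtain ⟨hp1, hp2, hp3⟩ := hP D hD t ht
  have hy0 : (0 : ℝ) < D.y := by linarith
  have hy1 : (1 : ℝ) ≤ D.y := by linarith
  have hc0 := hD.c0
  have hc1 := hD.c1
  have hL1 := hD.L1
  have hX1 := hD.X1
  set τ := t - D.t0 with hτ
  have hLτ : D.Lam * τ ≤ 1 / D.y ^ 18 := by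
    rw [le_div_iff₀ (by positivity)]
    calc D.Lam * τ * D.y ^ 18 ≤ D.Lam * D.T * D.y ^ 18 := by gcongr
      _ = D.y ^ 18 * (D.Lam * D.T) := by ring
      _ ≤ 1 := hLT
  constructor
  · -- first coefficient
    have h1 := first (y := D.y) (a := D.a) (L := D.Lam) (z := D.z D.t0) (m := 1 + D.k2 t ^ 2)
      (N := ‖D.p t‖ ^ 2) hy hD.big hLy hz0 (by nlinarith [sq_nonneg (D.k2 t)]) hp2
    have hpp : 0 < ‖D.p t‖ ^ 2 := by positivity
    have e1 : D.Ah t * (D.c ^ 2 + D.x t ^ 4) = D.z D.t0 / D.a * ((1 + D.k2 t ^ 2) / ‖D.p t‖ ^ 2) := by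
      have hx4 : D.x t ^ 4 = D.c ^ 2 * D.k2 t ^ 2 := by
        calc D.x t ^ 4 = (D.x t ^ 2) ^ 2 := by ring
          _ = (D.c * D.k2 t) ^ 2 := by rw [hxk]
          _ = _ := by ring
      unfold EraD.Ah EraD.al
      rw [hzz t, hx4]
      have := hc0.ne'
      have := ha0.ne'
      field_simp
    rw [e1]
    exact h1
  · -- second coefficient
    have hkap := hD.kap1
    -- the vector P0
    have hb0 : D.b1 D.t0 = (D.a)⁻¹ • D.v D.t0 := hD.b1_init
    have hnb0 : ‖D.b1 D.t0‖ = 1 := by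
      rw [hb0, norm_smul, hD.va, norm_inv, Real.norm_of_nonneg ha0.le]
      exact inv_mul_cancel₀ ha0.ne'
    have hkB : inner ℝ (D.k D.t0) (D.B D.t0 (D.b1 D.t0)) = D.kap := by
      rw [hb0, map_smul, inner_smul_right, hD.kapeq]
      field_simp
    have heB : inner ℝ D.e (D.B D.t0 (D.b1 D.t0)) = D.kap * D.c := by
      rw [hb0, map_smul, inner_smul_right, hD.ceq]
      field_simp
    set P0 : E3 := D.k D.t0 - D.k2 t • D.e with hP0
    have hP0B : inner ℝ P0 (D.B D.t0 (D.b1 D.t0)) = D.kap * (1 - D.x t ^ 2) := by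
      rw [hP0, inner_sub_left, real_inner_smul_left, hkB, heB, hxk]
      ring
    have hP0n : ‖P0‖ ≤ 1 + D.k2 t := by
      rw [hP0]
      refine (norm_sub_le _ _).trans ?_
      rw [hD.k1, norm_smul, hD.e1, Real.norm_of_nonneg hk0, mul_one]
    have ht0 : D.t0 ∈ D.I := by
      refine ⟨le_rfl, ?_⟩
      linarith
    have hBn : ‖D.B t‖ ≤ D.Lam := hD.Bb t ht
    have hB0n : ‖D.B D.t0‖ ≤ D.Lam := hD.Bb D.t0 ht0
    have hL0 : 0 ≤ D.Lam := by linarith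
    have hdiff : ‖D.B t (D.b1 t) - D.B D.t0 (D.b1 D.t0)‖ ≤ 4 * D.Lam ^ 2 * τ := by
      have e1 : D.B t (D.b1 t) - D.B D.t0 (D.b1 D.t0)
          = (D.B t - D.B D.t0) (D.b1 t) + D.B D.t0 (D.b1 t - D.b1 D.t0) := by
        simp [map_sub]
      rw [e1]
      calc ‖(D.B t - D.B D.t0) (D.b1 t) + D.B D.t0 (D.b1 t - D.b1 D.t0)‖
          ≤ ‖(D.B t - D.B D.t0) (D.b1 t)‖ + ‖D.B D.t0 (D.b1 t - D.b1 D.t0)‖ := norm_add_le _ _
        _ ≤ ‖D.B t - D.B D.t0‖ * ‖D.b1 t‖ + ‖D.B D.t0‖ * ‖D.b1 t - D.b1 D.t0‖ :=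
            add_le_add (ContinuousLinearMap.le_opNorm _ _) (ContinuousLinearMap.le_opNorm _ _)
        _ ≤ (D.Lam ^ 2 * τ) * 2 + D.Lam * (2 * D.Lam * τ) := by
            gcongr
        _ = 4 * D.Lam ^ 2 * τ := by ring
    have hBb1 : ‖D.B t (D.b1 t)‖ ≤ D.Lam * 2 :=
      (ContinuousLinearMap.le_opNorm _ _).trans (by gcongr)
    set Ein : ℝ := (1 + D.k2 t) / D.y ^ 16 * (D.Lam * 2) + (1 + D.k2 t) * (4 * D.Lam ^ 2 * τ)
      with hEin
    have hG : |inner ℝ (D.p t) (D.B t (D.b1 t)) - D.kap * (1 - D.x t ^ 2)| ≤ Ein := by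
      have e2 : inner ℝ (D.p t) (D.B t (D.b1 t)) - D.kap * (1 - D.x t ^ 2)
          = inner ℝ (D.p t - P0) (D.B t (D.b1 t))
            + inner ℝ P0 (D.B t (D.b1 t) - D.B D.t0 (D.b1 D.t0)) := by
        have i1 : inner ℝ (D.p t - P0) (D.B t (D.b1 t))
            = inner ℝ (D.p t) (D.B t (D.b1 t)) - inner ℝ P0 (D.B t (D.b1 t)) :=
          inner_sub_left _ _ _
        have i2 : inner ℝ P0 (D.B t (D.b1 t) - D.B D.t0 (D.b1 D.t0))
            = inner ℝ P0 (D.B t (D.b1 t)) - inner ℝ P0 (D.B D.t0 (D.b1 D.t0)) :=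
          inner_sub_right _ _ _
        rw [i1, i2, hP0B]
        ring
      rw [e2]
      refine (abs_add_le _ _).trans (add_le_add ?_ ?_)
      · refine (abs_real_inner_le_norm _ _).trans ?_
        gcongr
      · refine (abs_real_inner_le_norm _ _).trans ?_
        gcongr
    -- sizes
    have hXc : D.X ^ 2 / D.c * D.Lam ≤ D.y ^ 2 := by
      have hyd : D.y = D.Lam * D.X / D.c := rfl
      rw [hyd, div_mul_eq_mul_div, div_pow, div_le_div_iff₀ hc0 (by positivity)]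
      have h1 : D.c ≤ 1 := by
        have : (1 : ℝ) / 10 ^ 8 ≤ 1 := by norm_num
        linarith
      have h2 : D.c ^ 2 ≤ D.c := by nlinarith
      have h3 : D.Lam ≤ D.Lam ^ 2 := by nlinarith
      calc D.X ^ 2 * D.Lam * D.c ^ 2 ≤ D.X ^ 2 * D.Lam ^ 2 * D.c := by gcongr
        _ = (D.Lam * D.X) ^ 2 * D.c := by ring
    have hk2' : 1 + D.k2 t ≤ 2 * (D.X ^ 2 / D.c) := by
      have : 1 ≤ D.X ^ 2 / D.c := by
        rw [le_div_iff₀ hc0]
        have : (1 : ℝ) / 10 ^ 8 ≤ 1 := by norm_num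
        nlinarith
      linarith
    have hkL : (1 + D.k2 t) * D.Lam ≤ 2 * D.y ^ 2 := by
      calc (1 + D.k2 t) * D.Lam ≤ 2 * (D.X ^ 2 / D.c) * D.Lam := by gcongr
        _ = 2 * (D.X ^ 2 / D.c * D.Lam) := by ring
        _ ≤ _ := by gcongr
    have hE2 : Ein ≤ 12 / D.y ^ 14 := by
      have h1 : (1 + D.k2 t) / D.y ^ 16 * (D.Lam * 2) ≤ 4 / D.y ^ 14 := by
        have : (1 + D.k2 t) / D.y ^ 16 * (D.Lam * 2) = ((1 + D.k2 t) * D.Lam) * 2 / D.y ^ 16 := by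
          ring
        rw [this]
        calc ((1 + D.k2 t) * D.Lam) * 2 / D.y ^ 16 ≤ (2 * D.y ^ 2) * 2 / D.y ^ 16 := by gcongr
          _ = 4 / D.y ^ 14 := by field_simp; ring
      have h2 : (1 + D.k2 t) * (4 * D.Lam ^ 2 * τ) ≤ 8 / D.y ^ 14 := by
        have : (1 + D.k2 t) * (4 * D.Lam ^ 2 * τ) = 4 * ((1 + D.k2 t) * D.Lam) * (D.Lam * τ) := by
          ring
        rw [this]
        calc 4 * ((1 + D.k2 t) * D.Lam) * (D.Lam * τ) ≤ 4 * (2 * D.y ^ 2) * (1 / D.y ^ 18) := by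
              gcongr
          _ = 8 / D.y ^ 16 := by field_simp; ring
          _ ≤ 8 / D.y ^ 14 := by
              have : D.y ^ 14 ≤ D.y ^ 16 := pow_le_pow_right₀ hy1 (by norm_num)
              gcongr
      rw [hEin]
      calc _ ≤ 4 / D.y ^ 14 + 8 / D.y ^ 14 := add_le_add h1 h2
        _ = 12 / D.y ^ 14 := by ring
    have hg : |D.g t - 1| ≤ 6 / D.y ^ 18 := by
      have h1 : |‖D.b1 t‖ - 1| ≤ 2 * (D.Lam * τ) := by
        have := abs_norm_sub_norm_le (D.b1 t) (D.b1 D.t0)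
        rw [hnb0] at this
        calc _ ≤ ‖D.b1 t - D.b1 D.t0‖ := this
          _ ≤ 2 * D.Lam * τ := hbb
          _ = _ := by ring
      have h2 : D.g t - 1 = (‖D.b1 t‖ - 1) * (‖D.b1 t‖ + 1) := by
        unfold EraD.g
        ring
      rw [h2, abs_mul, abs_of_nonneg (by positivity : (0 : ℝ) ≤ ‖D.b1 t‖ + 1)]
      calc |‖D.b1 t‖ - 1| * (‖D.b1 t‖ + 1) ≤ 2 * (D.Lam * τ) * (2 + 1) := by gcongr
        _ ≤ 2 * (1 / D.y ^ 18) * (2 + 1) := by gcongr
        _ = 6 / D.y ^ 18 := by ring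
    have hx2 : |1 - D.x t ^ 2| ≤ D.y ^ 2 := by
      rw [abs_le]
      have h1 : D.x t ^ 2 ≤ D.y ^ 2 := by
        have : D.x t ≤ D.y := hxX.trans hXy
        gcongr
      constructor
      · nlinarith
      · nlinarith [sq_nonneg (D.x t)]
    have h := second (y := D.y) (kap := D.kap) (g := D.g t) (x2 := D.x t ^ 2)
      (G := inner ℝ (D.p t) (D.B t (D.b1 t))) (E := Ein) hy hkap hg hx2 hG hE2
    exact h

end Pool.Agent.Work.MP_b0497c_an.Forced.Ode
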