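import Pool.Agent.Work.MP_b0497c_an.Forced.Ode.StmtsC

set_option autoImplicit false

/-!
# ODE module, item CV2: analysis of the conversion
-/

open scoped ContDiff Matrix
open Set ContinuousLinearMap Filter Topology

namespace Pool.Agent.Work.MP_b0497c_an.Forced.Ode

namespace Conv2

/-- `toV` as a continuous linear equivalence -/
noncomputable def eV : E3 ≃L[ℝ] (Fin 3 → ℝ) := PiLp.continuousLinearEquiv 2 ℝ (fun _ : Fin 3 => ℝ)

theorem eV_apply (x : E3) : eV x = toV x := rfl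

/-- the coordinate functionals -/
noncomputable def lv (j : Fin 3) : E3 →L[ℝ] ℝ := EuclideanSpace.proj j

theorem lv_apply (j : Fin 3) (x : E3) : lv j x = toV x j := rfl

theorem lv_le (j : Fin 3) (x : E3) : |lv j x| ≤ ‖x‖ := by
  have h := PiLp.norm_apply_le x j
  rw [Real.norm_eq_abs] at h
  exact h

/-- the matrix entries -/
noncomputable def lm (j k : Fin 3) : Op →L[ℝ] ℝ :=
  (lv j).comp (ContinuousLinearMap.apply ℝ E3 (EuclideanSpace.single k (1 : ℝ)))

theorem lm_apply (j k : Fin 3) (A : Op) : lm j k A = toMat A j k := rfl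

theorem lm_le (j k : Fin 3) (A : Op) : |lm j k A| ≤ ‖A‖ := by
  have h1 : |lm j k A| ≤ ‖A (EuclideanSpace.single k (1 : ℝ))‖ := lv_le j _
  have h2 := A.le_opNorm (EuclideanSpace.single k (1 : ℝ))
  have h3 : ‖(EuclideanSpace.single k (1 : ℝ) : E3)‖ = 1 := by simp
  rw [h3, mul_one] at h2
  exact h1.trans h2

theorem iter_comp {E : Type} [NormedAddCommGroup E] [NormedSpace ℝ E] (l : E →L[ℝ] ℝ)
    {f : ℝ → E} (hf : ContDiff ℝ ∞ f) (d : ℕ) (t : ℝ) :
    iteratedDeriv d (fun s => l (f s)) t = l (iteratedDeriv d f t) := by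
  rw [iteratedDeriv_eq_iteratedFDeriv, iteratedDeriv_eq_iteratedFDeriv]
  have h := l.iteratedFDeriv_comp_left (f := f) (x := t) (n := ∞) (i := d) hf.contDiffAt
    (by exact_mod_cast le_top)
  have e : (fun s => l (f s)) = l ∘ f := rfl
  rw [e, h]
  rfl

theorem mod_of {E : Type} [NormedAddCommGroup E] [NormedSpace ℝ E] (l : E →L[ℝ] ℝ)
    (hl : ∀ y, |l y| ≤ ‖y‖) (Lam : ℕ → ℝ) (I : ℕ → Set ℝ) (mu : ℕ → ℝ → ℝ) (f : ℕ → ℝ → E)
    (h : ∀ N, ModV Lam I mu N f) : W.Mod Lam I mu (fun k t => l (f k t)) := by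
  refine ⟨fun k => l.contDiff.comp ((h 0).1 k), ?_⟩
  intro d
  obtain ⟨n, hn⟩ := (h d).2 d le_rfl
  refine ⟨n, fun k t ht => ?_⟩
  have e : iteratedDeriv d (fun s => l (f k s)) t = l (iteratedDeriv d (f k) t) :=
    iter_comp l ((h 0).1 k) d t
  show |iteratedDeriv d (fun s => l (f k s)) t| ≤ _
  rw [e]
  exact (hl _).trans (hn k t ht)

end Conv2

theorem prf_StConv2 : StConv2 := by
  refine ⟨?_, ?_, ?_, ?_, ?_⟩
  · intro x x' t
    constructor
    · intro h
      exact Conv2.eV.toContinuousLinearMap.hasFDerivAt.comp_hasDerivAt t h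
    · intro h
      have h1 := Conv2.eV.symm.toContinuousLinearMap.hasFDerivAt.comp_hasDerivAt t h
      exact h1
  · intro x
    exact (Conv2.eV.comp_contDiff_iff (f := x)).symm
  · intro A A' t h j k
    exact (Conv2.lm j k).hasFDerivAt.comp_hasDerivAt t h
  · intro Lam I mu x _ h j
    exact Conv2.mod_of (Conv2.lv j) (Conv2.lv_le j) Lam I mu x h
  · intro Lam I mu A _ h j l
    exact Conv2.mod_of (Conv2.lm j l) (Conv2.lm_le j l) Lam I mu A h

end Pool.Agent.Work.MP_b0497c_an.Forced.Ode
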