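import Pool.Agent.Work.MP_b0497c_an.Forced.Ode.Stmts

set_option autoImplicit false

/-!
# ODE module of the forced Euler blow-up: the one-era theorem
-/

open scoped ContDiff
open Set ContinuousLinearMap

namespace Pool.Agent.Work.MP_b0497c_an.Forced.Ode

namespace Era

theorem ro_apply (v k x : E3) : ro v k x = inner ℝ k x • v := rfl

theorem ro_smul (s : ℝ) (v k : E3) : ro (s • v) k = s • ro v k := by
  apply ContinuousLinearMap.ext
  intro x
  rw [ContinuousLinearMap.smul_apply, ro_apply, ro_apply, smul_comm]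

theorem J_sub_I {D : EraD} (h : D.t0 < D.s0) {t : ℝ} (ht : t ∈ D.J) : t ∈ D.I :=
  ⟨h.le.trans ht.1, ht.2⟩

/-- two unit-size bounds for `c (a / kap)^(1/2)` -/
theorem s_bounds {D : EraD} (hD : D.Ok) (hP1 : 2 * 10 ^ 8 ≤ D.y) (hP2 : 1 / D.c ≤ D.y)
    (ha : 0 < D.a) (hsq : D.y ^ 20 ≤ Real.sqrt D.a) :
    1 ≤ D.c * Real.sqrt (D.a / D.kap) ∧ D.c * Real.sqrt (D.a / D.kap) ≤ Real.sqrt D.a := by
  have hc := hD.c0
  have hk1 := hD.kap1
  have hk2 := hD.kap2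
  have h1 : Real.sqrt D.a / 2 ≤ Real.sqrt (D.a / D.kap) := by
    apply Real.le_sqrt_of_sq_le
    rw [div_pow, Real.sq_sqrt ha.le]
    rw [div_le_div_iff₀ (by norm_num) (by linarith)]
    nlinarith
  have h2 : Real.sqrt (D.a / D.kap) ≤ 2 * Real.sqrt D.a := by
    rw [show 2 * Real.sqrt D.a = Real.sqrt (4 * D.a) by
      rw [Real.sqrt_mul (by norm_num), show (4 : ℝ) = 2 ^ 2 by norm_num,
        Real.sqrt_sq (by norm_num)]]
    apply Real.sqrt_le_sqrt
    rw [div_le_iff₀ (by linarith)]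
    nlinarith
  have hs0 : 0 ≤ Real.sqrt D.a := Real.sqrt_nonneg _
  have hcy : 1 ≤ D.c * D.y := by
    have := mul_le_mul_of_nonneg_left hP2 hc.le
    rwa [mul_one_div, div_self hc.ne'] at this
  have hy0 : 0 < D.y := by linarith
  have hy2 : 2 * D.y ≤ D.y ^ 20 := by
    have h3 : D.y ^ 2 ≤ D.y ^ 20 := pow_le_pow_right₀ (by linarith) (by norm_num)
    nlinarith
  constructor
  · have h3 : D.y ≤ Real.sqrt (D.a / D.kap) := by linarith
    have := mul_le_mul_of_nonneg_left h3 hc.le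
    linarith
  · have h3 : D.c * Real.sqrt (D.a / D.kap) ≤ D.c * (2 * Real.sqrt D.a) :=
      mul_le_mul_of_nonneg_left h2 hc.le
    have h4 := hD.c1
    have h5 : D.c * (2 * Real.sqrt D.a) ≤ 1 / 10 ^ 8 * (2 * Real.sqrt D.a) :=
      mul_le_mul_of_nonneg_right h4 (by linarith)
    linarith

/-- the norm of a vector from its `Y, W` coordinates -/
theorem norm_le {D : EraD} (hD : D.Ok) (hP1 : 2 * 10 ^ 8 ≤ D.y) (hPX : D.X ≤ D.y)
    (hs : 1 ≤ D.c * Real.sqrt (D.a / D.kap)) (hx0 : 0 < D.x0) (hx0y : 1 / D.x0 ≤ D.y)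
    {t : ℝ} (hb : 1 / 2 ≤ ‖D.b1 t‖) (hp : 1 / 2 ≤ ‖D.p t‖) (hx1 : D.x0 ≤ D.x t)
    (hx2 : D.x t ≤ D.X) {w : ℝ → E3}
    (hw : w t = (D.P w t / D.g t) • D.b1 t - (D.Q w t / ‖D.p t‖ ^ 2) • D.p t)
    {m : ℝ} (hY : |D.Y w t| ≤ m) (hW : |D.W w t| ≤ 3 / 2 * m) : ‖w t‖ ≤ 8 * D.y ^ 2 * m := by
  have hx : 0 < D.x t := hx0.trans_le hx1
  have hm : 0 ≤ m := (abs_nonneg _).trans hY
  have hX1 := hD.X1
  have hy0 : 0 < D.y := by linarith
  -- P
  have hP : |D.P w t| ≤ D.y * m := by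
    have h1 : D.P w t = D.Y w t / D.x t := by
      unfold EraD.Y
      field_simp
    rw [h1, abs_div, abs_of_pos hx, div_le_iff₀ hx]
    have h2 : 1 ≤ D.y * D.x t := by
      have h3 : 1 / D.x t ≤ 1 / D.x0 := one_div_le_one_div_of_le hx0 hx1
      have h4 := mul_le_mul_of_nonneg_right (h3.trans hx0y) hx.le
      rwa [one_div_mul_cancel hx.ne'] at h4
    have h21 := mul_le_mul_of_nonneg_left h2 hm
    linarith
  -- Q
  have hQ : |D.Q w t| ≤ 3 * D.y ^ 2 * m := by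
    have h1 : D.Qh w t = D.x t * D.W w t - D.x t ^ 2 * D.Y w t := by
      unfold EraD.W EraD.Y
      field_simp
      ring
    have h2 : |D.Qh w t| ≤ 3 * D.y ^ 2 * m := by
      rw [h1]
      have h3 : |D.x t * D.W w t| ≤ D.X * (3 / 2 * m) := by
        rw [abs_mul, abs_of_pos hx]
        exact mul_le_mul hx2 hW (abs_nonneg _) (by linarith)
      have h4 : |D.x t ^ 2 * D.Y w t| ≤ D.X ^ 2 * m := by
        rw [abs_mul, abs_of_pos (by positivity)]
        exact mul_le_mul (pow_le_pow_left₀ hx.le hx2 2) hY (abs_nonneg _) (by positivity)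
      have h5 := abs_sub (D.x t * D.W w t) (D.x t ^ 2 * D.Y w t)
      have h6 : D.X * (3 / 2 * m) ≤ 2 * D.y ^ 2 * m := by
        have h61 := mul_le_mul_of_nonneg_right hPX hm
        have hyy : D.y ≤ D.y ^ 2 := le_self_pow₀ (by linarith) (by norm_num)
        have h62 := mul_le_mul_of_nonneg_right hyy hm
        have h63 := mul_nonneg (sq_nonneg D.y) hm
        linarith
      have h7 : D.X ^ 2 * m ≤ D.y ^ 2 * m :=
        mul_le_mul_of_nonneg_right (pow_le_pow_left₀ (by linarith) hPX 2) hm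
      linarith
    have h3 : |D.Q w t| ≤ |D.Qh w t| := by
      unfold EraD.Qh
      rw [abs_mul, abs_of_pos (show 0 < D.c * Real.sqrt (D.a / D.kap) by linarith)]
      exact le_mul_of_one_le_left (abs_nonneg _) hs
    exact h3.trans h2
  -- norm
  have hb0 : 0 < ‖D.b1 t‖ := by linarith
  have hp0 : 0 < ‖D.p t‖ := by linarith
  have e1 : ‖(D.P w t / D.g t) • D.b1 t‖ ≤ 2 * |D.P w t| := by
    rw [norm_smul, Real.norm_eq_abs, abs_div]
    unfold EraD.g
    rw [abs_of_pos (by positivity : 0 < ‖D.b1 t‖ ^ 2), div_mul_eq_mul_div,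
      div_le_iff₀ (by positivity)]
    have := abs_nonneg (D.P w t)
    have h2 := mul_nonneg (mul_nonneg this hb0.le) (show 0 ≤ 2 * ‖D.b1 t‖ - 1 by linarith)
    linarith
  have e2 : ‖(D.Q w t / ‖D.p t‖ ^ 2) • D.p t‖ ≤ 2 * |D.Q w t| := by
    rw [norm_smul, Real.norm_eq_abs, abs_div]
    rw [abs_of_pos (by positivity : 0 < ‖D.p t‖ ^ 2), div_mul_eq_mul_div,
      div_le_iff₀ (by positivity)]
    have := abs_nonneg (D.Q w t)
    have h2 := mul_nonneg (mul_nonneg this hp0.le) (show 0 ≤ 2 * ‖D.p t‖ - 1 by linarith)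
    linarith
  rw [hw]
  refine (norm_sub_le _ _).trans ?_
  have hyy : D.y ≤ D.y ^ 2 := le_self_pow₀ (by linarith) (by norm_num)
  have : D.y * m ≤ D.y ^ 2 * m := mul_le_mul_of_nonneg_right hyy hm
  linarith

/-- the weight before and after the end of the era -/
theorem weight_le {D : EraD} {Y : ℝ → ℝ} {r a' : ℝ} (hr : 0 < r) (ha' : 0 < a')
    (hx0 : 0 < D.x0) (hom : 0 < D.om) (hJx : ∀ t ∈ D.J, D.x0 ≤ D.x t) (htfJ : D.tf ∈ D.J)
    (hxtf : 1 ≤ D.x D.tf) (hy : 2 * 10 ^ 8 ≤ D.y) (hya : 20 * D.y ≤ D.a)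
    (hY : ∀ t ∈ D.J, 0 < Y t)
    (hg : ∀ s ∈ D.J, ∀ t ∈ D.J, s ≤ t →
      Real.exp (6 / 5 * (1 / D.x s - 1 / D.x t)) * Y s ≤ Y t ∧
      Y t ≤ Real.exp (8 / 5 * (1 / D.x s - 1 / D.x t)) * Y s)
    (hYf : r * Y D.tf ≤ 4 * D.y * a') {t : ℝ} (ht : t ∈ D.J) : r * Y t ≤ D.a * a' := by
  have hya' : 20 * D.y * a' ≤ D.a * a' := mul_le_mul_of_nonneg_right hya ha'.le
  have hpos : 0 < D.y * a' := by
    have : 0 < D.y := by linarith
    positivity
  rcases le_total t D.tf with h | h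
  · have h3 := (hg t ht D.tf htfJ h).1
    have h4 : 1 ≤ Real.exp (6 / 5 * (1 / D.x t - 1 / D.x D.tf)) := by
      apply Real.one_le_exp
      have h5 : D.x t ≤ D.x D.tf := by
        unfold EraD.x
        exact mul_le_mul_of_nonneg_left (by linarith) hom.le
      have h6 := one_div_le_one_div_of_le (hx0.trans_le (hJx t ht)) h5
      linarith
    have h5 : Y t ≤ Y D.tf := (le_mul_of_one_le_left (hY t ht).le h4).trans h3
    have h6 := mul_le_mul_of_nonneg_left h5 hr.le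
    linarith
  · have h3 := (hg D.tf htfJ t ht h).2
    have h4 : Real.exp (8 / 5 * (1 / D.x D.tf - 1 / D.x t)) ≤ 5 := by
      have h5 : 8 / 5 * (1 / D.x D.tf - 1 / D.x t) ≤ 8 / 5 := by
        have h6 : 1 / D.x D.tf ≤ 1 := by
          rw [div_le_one (by linarith)]; exact hxtf
        have h7 : 0 < 1 / D.x t := one_div_pos.2 (hx0.trans_le (hJx t ht))
        linarith
      have h6 : Real.exp (8 / 5) ≤ 5 := by
        have h7 : Real.exp (8 / 5) = Real.exp 1 * Real.exp (3 / 5) := by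
          rw [← Real.exp_add]; norm_num
        have h8 : Real.exp (3 / 5) ^ 5 = Real.exp 1 ^ 3 := by
          rw [← Real.exp_nat_mul, ← Real.exp_nat_mul]; norm_num
        have h9 := Real.exp_one_lt_d9
        have h10 : Real.exp (3 / 5) ≤ 1.83 := by
          by_contra hcon
          push Not at hcon
          have h11 : (1.83 : ℝ) ^ 5 < Real.exp (3 / 5) ^ 5 :=
            pow_lt_pow_left₀ hcon (by norm_num) (by norm_num)
          have h12 : Real.exp 1 ^ 3 ≤ (2.7182818286 : ℝ) ^ 3 :=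
            pow_le_pow_left₀ (Real.exp_pos _).le h9.le 3
          rw [h8] at h11
          norm_num at h11 h12
          linarith
        rw [h7]
        have h13 : Real.exp 1 * Real.exp (3 / 5) ≤ 2.7182818286 * 1.83 :=
          mul_le_mul h9.le h10 (Real.exp_pos _).le (by norm_num)
        linarith
      exact (Real.exp_le_exp.2 h5).trans h6
    have h5 : Y t ≤ 5 * Y D.tf := h3.trans (mul_le_mul_of_nonneg_right h4 (hY _ htfJ).le)
    have h6 := mul_le_mul_of_nonneg_left h5 hr.le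
    linarith

/-- the weight is tiny at the start -/
theorem weight_small {D : EraD} {Y : ℝ → ℝ} {r a' : ℝ} (hr : 0 < r) (ha' : 0 < a')
    (hx0 : 0 < D.x0) (hx01 : D.x0 ≤ 1 / 100) (hom : 0 < D.om) (hJx : ∀ t ∈ D.J, D.x0 ≤ D.x t)
    (htfJ : D.tf ∈ D.J) (hxtf : 1 ≤ D.x D.tf) (hy : 2 * 10 ^ 8 ≤ D.y) (hya : 20 * D.y ≤ D.a)
    (hY : ∀ t ∈ D.J, 0 < Y t)
    (hg : ∀ s ∈ D.J, ∀ t ∈ D.J, s ≤ t →
      Real.exp (6 / 5 * (1 / D.x s - 1 / D.x t)) * Y s ≤ Y t ∧
      Y t ≤ Real.exp (8 / 5 * (1 / D.x s - 1 / D.x t)) * Y s)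
    (hYf : r * Y D.tf ≤ 4 * D.y * a') {t : ℝ} (ht : t ∈ D.J) (hxt : D.x t ≤ 2 * D.x0) :
    r * Y t ≤ D.a * a' * Real.exp (-(1 / (2 * D.x0))) := by
  have hxpos := hx0.trans_le (hJx t ht)
  have htt : t ≤ D.tf := by
    by_contra hcon
    push Not at hcon
    have : D.x D.tf ≤ D.x t := by
      unfold EraD.x
      exact mul_le_mul_of_nonneg_left (by linarith) hom.le
    linarith
  have h3 := (hg t ht D.tf htfJ htt).1
  set E := Real.exp (6 / 5 * (1 / D.x t - 1 / D.x D.tf)) with hE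
  have hEpos : 0 < E := Real.exp_pos _
  have hE2 : Real.exp (1 / (2 * D.x0)) ≤ E := by
    rw [hE]
    apply Real.exp_le_exp.2
    have h4 : 1 / (2 * D.x0) ≤ 1 / D.x t := one_div_le_one_div_of_le hxpos hxt
    have h5 : 1 / D.x D.tf ≤ 1 := by
      rw [div_le_one (by linarith)]; exact hxtf
    have h6 : 50 ≤ 1 / (2 * D.x0) := by
      rw [le_div_iff₀ (by linarith)]
      linarith
    linarith
  have h5 : E * (r * Y t) ≤ 4 * D.y * a' := by
    have h6 := mul_le_mul_of_nonneg_left h3 hr.le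
    have h7 : r * (E * Y t) = E * (r * Y t) := by ring
    linarith
  have hrY : 0 < r * Y t := mul_pos hr (hY t ht)
  have h6 : Real.exp (1 / (2 * D.x0)) * (r * Y t) ≤ D.a * a' := by
    have h7 := mul_le_mul_of_nonneg_right hE2 hrY.le
    have h8 : 20 * D.y * a' ≤ D.a * a' := mul_le_mul_of_nonneg_right hya ha'.le
    have hpos : 0 < D.y * a' := by
      have : 0 < D.y := by linarith
      positivity
    linarith
  rw [Real.exp_neg, ← div_eq_mul_inv, le_div_iff₀ (Real.exp_pos _)]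
  linarith

/-- dominance -/
theorem dominance {D : EraD} (hD : D.Ok) (hPQ : StPQ) (hYW : StYW) (hDo : StDom)
    (hy : 2 * 10 ^ 8 ≤ D.y) (hyX : D.X ≤ D.y) (hyXc : D.X / D.c ≤ D.y) (ha : 0 < D.a)
    (hsq : D.y ^ 20 ≤ Real.sqrt D.a) (hTy : D.y ^ 18 * D.T ≤ 1) (hT : 0 < D.T)
    (hx0 : 0 < D.x0) (hx0y : 1 / D.x0 ≤ D.y) (hts : D.t0 < D.s0)
    (hs1 : 1 ≤ D.c * Real.sqrt (D.a / D.kap))
    (hs2 : D.c * Real.sqrt (D.a / D.kap) ≤ Real.sqrt D.a)
    (hI : ∀ t ∈ D.J, D.x0 ≤ D.x t ∧ D.x t ≤ D.X ∧ 0 ≤ D.k2 t ∧ D.k2 t ≤ D.X ^ 2 / D.c ∧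
      1 / 2 ≤ ‖D.b1 t‖ ∧ ‖D.b1 t‖ ≤ 2 ∧ 1 / 2 ≤ ‖D.p t‖ ∧ ‖D.p t‖ ≤ 2 * (1 + D.k2 t))
    {q : ℝ → E3} (hq : ∀ t, q t ≠ 0) (hq1 : ∀ t, inner ℝ (q t) (D.b1 t) = 0)
    (hq2 : ∀ t, inner ℝ (q t) (D.b2 t) = 0) {Y W : ℝ → ℝ} (hsys : D.Sys Y W)
    (hcone : ∀ t ∈ D.J, 0 < Y t ∧ 5 / 4 * Y t ≤ W t ∧ W t ≤ 3 / 2 * Y t) {r : ℝ} (hr : 0 < r)
    (u f : ℝ → E3) (t1 ρ : ℝ) (ht1 : t1 ∈ D.J) (hρ : 0 ≤ ρ) (hu0 : u D.s0 = 0)
    (hu : ∀ t ∈ Icc D.s0 t1, inner ℝ (q t) (u t) = 0 ∧ ‖f t‖ ≤ ρ * (r * Y t) ∧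
      HasDerivAt u (-(D.M t (u t))
        + (2 * inner ℝ (q t) (D.M t (u t)) / ‖q t‖ ^ 2) • q t + f t) t) :
    ‖u t1‖ ≤ D.a * ρ * (r * Y t1) := by
  have hy0 : 0 < D.y := by linarith
  have hsa : 0 < Real.sqrt D.a := Real.sqrt_pos.2 ha
  set B := 5 * Real.sqrt D.a * D.y ^ 3 with hB
  have hBpos : 0 < B := by positivity
  have hk2y : ∀ t ∈ D.J, ‖D.p t‖ ≤ 4 * D.y ^ 2 := by
    intro t ht
    obtain ⟨-, -, -, h4, -, -, -, h8⟩ := hI t ht
    have h9 : D.X ^ 2 / D.c ≤ D.y ^ 2 := by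
      rw [sq, mul_div_assoc, sq]
      have := hD.X1
      exact mul_le_mul hyX hyXc (div_nonneg (by linarith) hD.c0.le) hy0.le
    have h10 : 1 ≤ D.y ^ 2 := one_le_pow₀ (by linarith)
    linarith
  -- the scalar system with sources
  have hall : ∀ t ∈ Icc D.s0 t1, t ∈ D.J := fun t ht => ⟨ht.1, ht.2.trans ht1.2⟩
  have hsc : ∀ t ∈ Icc D.s0 t1, u t = (D.P u t / D.g t) • D.b1 t
      - (D.Q u t / ‖D.p t‖ ^ 2) • D.p t ∧
      HasDerivAt (D.Y u) (D.om * (D.A12 t * D.W u t + D.dd t * D.Y u t)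
        + D.x t * inner ℝ (D.b1 t) (f t)) t ∧
      HasDerivAt (D.W u) (D.om * (D.A21 t * D.Y u t - D.dd t * D.W u t)
        + (D.x t ^ 2 * inner ℝ (D.b1 t) (f t)
          - D.c * Real.sqrt (D.a / D.kap) / D.x t * inner ℝ (D.p t) (f t))) t := by
    intro t ht
    obtain ⟨-, -, -, -, h5, -, h7, -⟩ := hI t (hall t ht)
    obtain ⟨g1, -, g3⟩ := hu t ht
    have hb : D.b1 t ≠ 0 := fun h0 => by rw [h0, norm_zero] at h5; linarith
    have hp : D.p t ≠ 0 := fun h0 => by rw [h0, norm_zero] at h7; linarith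
    have h8 := hPQ D hD t u q (f t) hb hp (hq t) (hq1 t) (hq2 t) g1 g3
    have h9 := hYW D hD t u (f t) (hts.trans_le ht.1) h8.2.1 h8.2.2
    exact ⟨h8.1, h9.1, h9.2⟩
  have hY0 : D.Y u D.s0 = 0 := by
    unfold EraD.Y EraD.P
    rw [hu0, inner_zero_right, mul_zero]
  have hW0 : D.W u D.s0 = 0 := by
    unfold EraD.W EraD.Qh EraD.Q EraD.P
    rw [hu0, inner_zero_right, inner_zero_right]
    simp
  have hρ' : 0 ≤ B * (ρ * r) := by positivity
  have hdom := hDo D hD Y W hsys hcone (D.Y u) (D.W u)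
    (fun t => D.x t * inner ℝ (D.b1 t) (f t))
    (fun t => D.x t ^ 2 * inner ℝ (D.b1 t) (f t)
      - D.c * Real.sqrt (D.a / D.kap) / D.x t * inner ℝ (D.p t) (f t)) t1 (B * (ρ * r)) ht1 hρ'
    hY0 hW0 ?_
  · -- conclusion
    obtain ⟨h1, h2⟩ := hdom
    obtain ⟨g1, g2, -, -, g5, -, g7, -⟩ := hI t1 ht1
    have hc := hcone t1 ht1
    have hτ : t1 - D.s0 ≤ D.T := by
      have := ht1.2
      linarith
    have hτ0 : 0 ≤ t1 - D.s0 := by linarith [ht1.1]
    set m := B * (ρ * r) * D.T * Y t1 with hm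
    have hm1 : B * (ρ * r) * (t1 - D.s0) * Y t1 ≤ m := by
      rw [hm]
      have hYp := hc.1.le
      gcongr
    have hYb : |D.Y u t1| ≤ m := h1.trans hm1
    have hWb : |D.W u t1| ≤ 3 / 2 * m := by
      refine h2.trans ?_
      have h5 : B * (ρ * r) * (t1 - D.s0) * W t1 ≤ B * (ρ * r) * (t1 - D.s0) * (3 / 2 * Y t1) := by
        have := hc.2.2
        gcongr
      linarith
    have hfin := norm_le hD hy hyX hs1 hx0 hx0y g5 g7 g1 g2
      (hsc t1 ⟨ht1.1, le_refl _⟩).1 hYb hWb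
    refine hfin.trans ?_
    rw [hm, hB]
    have h6 : 8 * D.y ^ 2 * (5 * Real.sqrt D.a * D.y ^ 3 * (ρ * r) * D.T * Y t1) =
        (40 * (D.y ^ 5 * D.T) * Real.sqrt D.a) * (ρ * (r * Y t1)) := by ring
    rw [h6, mul_assoc D.a]
    apply mul_le_mul_of_nonneg_right _ (by have := hc.1; positivity)
    have h7 : D.y ^ 5 * D.T ≤ 1 := by
      have h8 : D.y ^ 5 ≤ D.y ^ 18 := pow_le_pow_right₀ (by linarith) (by norm_num)
      exact (mul_le_mul_of_nonneg_right h8 hT.le).trans hTy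
    have h8 : 40 ≤ Real.sqrt D.a := by
      have h9 : D.y ^ 1 ≤ D.y ^ 20 := pow_le_pow_right₀ (by linarith) (by norm_num)
      linarith
    have h9 : Real.sqrt D.a * Real.sqrt D.a = D.a := Real.mul_self_sqrt ha.le
    calc 40 * (D.y ^ 5 * D.T) * Real.sqrt D.a ≤ 40 * 1 * Real.sqrt D.a := by gcongr
      _ ≤ Real.sqrt D.a * Real.sqrt D.a := by
          rw [mul_one]
          exact mul_le_mul_of_nonneg_right h8 hsa.le
      _ = D.a := h9
  · intro t ht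
    obtain ⟨g1, g2, -, -, g5, g6, g7, -⟩ := hI t (hall t ht)
    obtain ⟨-, s2, s3⟩ := hsc t ht
    obtain ⟨-, f2, -⟩ := hu t ht
    have hxp : 0 < D.x t := hx0.trans_le g1
    have hYp := (hcone t (hall t ht)).1
    set A := ρ * (r * Y t) with hA
    have hA0 : 0 ≤ A := by positivity
    have i1 : |inner ℝ (D.b1 t) (f t)| ≤ 2 * A :=
      (abs_real_inner_le_norm _ _).trans (mul_le_mul g6 f2 (norm_nonneg _) (by norm_num))
    have i2 : |inner ℝ (D.p t) (f t)| ≤ 4 * D.y ^ 2 * A :=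
      (abs_real_inner_le_norm _ _).trans
        (mul_le_mul (hk2y t (hall t ht)) f2 (norm_nonneg _) (by positivity))
    have hBA : B * (ρ * r) * Y t = B * A := by rw [hA]; ring
    have hxy : D.x t ≤ D.y := g2.trans hyX
    have hsy : D.y ≤ Real.sqrt D.a := by
      have h9 : D.y ^ 1 ≤ D.y ^ 20 := pow_le_pow_right₀ (by linarith) (by norm_num)
      linarith
    have hy1 : 1 ≤ D.y := by linarith
    have hs1' : 1 ≤ Real.sqrt D.a := by linarith
    have hxi : 1 / D.x t ≤ D.y := (one_div_le_one_div_of_le hx0 g1).trans hx0y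
    refine ⟨s2, s3, ?_, ?_⟩
    · show |D.x t * inner ℝ (D.b1 t) (f t)| ≤ _
      rw [abs_mul, abs_of_pos hxp, hBA]
      have h1 : D.x t * |inner ℝ (D.b1 t) (f t)| ≤ D.y * (2 * A) :=
        mul_le_mul hxy i1 (abs_nonneg _) hy0.le
      have h2 : D.y * 2 ≤ B := by
        rw [hB]
        have h3 : D.y ≤ D.y ^ 3 := le_self_pow₀ hy1 (by norm_num)
        have h4 : D.y ^ 3 ≤ Real.sqrt D.a * D.y ^ 3 :=
          le_mul_of_one_le_left (by positivity) hs1'
        linarith [pow_pos hy0 3]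
      have h3 := mul_le_mul_of_nonneg_right h2 hA0
      linarith
    · show |D.x t ^ 2 * inner ℝ (D.b1 t) (f t)
        - D.c * Real.sqrt (D.a / D.kap) / D.x t * inner ℝ (D.p t) (f t)| ≤ _
      rw [hBA]
      have h1 : |D.x t ^ 2 * inner ℝ (D.b1 t) (f t)| ≤ D.y ^ 2 * (2 * A) := by
        rw [abs_mul, abs_of_pos (by positivity)]
        exact mul_le_mul (pow_le_pow_left₀ hxp.le hxy 2) i1 (abs_nonneg _) (by positivity)
      have h2 : |D.c * Real.sqrt (D.a / D.kap) / D.x t * inner ℝ (D.p t) (f t)| ≤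
          Real.sqrt D.a * D.y * (4 * D.y ^ 2 * A) := by
        rw [abs_mul, abs_of_pos (div_pos (by linarith) hxp)]
        refine mul_le_mul ?_ i2 (abs_nonneg _) (by positivity)
        rw [div_eq_mul_one_div]
        exact mul_le_mul hs2 hxi (by positivity) hsa.le
      refine (abs_sub _ _).trans ((add_le_add h1 h2).trans ?_)
      have h3 : D.y ^ 2 * 2 ≤ Real.sqrt D.a * D.y ^ 3 := by
        have h4 : D.y ^ 2 * 2 ≤ D.y ^ 2 * D.y := by
          apply mul_le_mul_of_nonneg_left _ (by positivity)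
          linarith
        have h5 : D.y ^ 3 ≤ Real.sqrt D.a * D.y ^ 3 :=
          le_mul_of_one_le_left (by positivity) hs1'
        have h6 : D.y ^ 2 * D.y = D.y ^ 3 := by ring
        linarith
      have h4 := mul_le_mul_of_nonneg_right h3 hA0
      rw [hB]
      linarith

end Era

open Era

set_option maxHeartbeats 4000000 in
theorem prf_StEra (hN : StPar) (hU : StUnique) (hWv : StWave) (hNx : StNext) (hSc : StScale)
    (hPe : StPerp) (hDe : StPder) (hPQ : StPQ) (hYW : StYW) (hB : StBounds) (hP : StP)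
    (hCo : StCone) (hGr : StGrowth) (hDo : StDom) (hK1 : StClose1) (hK2 : StClose2)
    (hNB : StNewB) (hDf : StDef) (hQ : StQ) (hV : StVort) : StEra := by
  intro D hD a' ha'
  obtain ⟨hy, hyL, hyX, hyc, hyXc, ha, hom, hT, hsqa, hsqak, hTL, hTy, hT2, haT, hx00, hx04, hx01,
    hx0y, ht0s0, hs0tf, htfT, hxs0, hxtf, hI⟩ := hN D hD
  have hy0 : 0 < D.y := by linarith
  have hJI : ∀ t ∈ D.J, t ∈ D.I := fun t ht => J_sub_I ht0s0 ht
  have hJx : ∀ t ∈ D.J, D.x0 ≤ D.x t := fun t ht =>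
    ((hI t (hJI t ht)).2.2.2.2.2.2.2).1 ht
  have hJX : ∀ t ∈ D.J, D.x t ≤ D.X := fun t ht => (hI t (hJI t ht)).2.2.2.1
  have hs0J : D.s0 ∈ D.J := ⟨le_refl _, by linarith⟩
  have htfJ : D.tf ∈ D.J := ⟨hs0tf.le, by linarith⟩
  have hflow : Flow D.M := hNx D.B D.v D.k hD.flow hD.wave
  obtain ⟨hs1, hs2⟩ := s_bounds hD hy hyc ha hsqa
  have hb1ne : ∀ t ∈ D.I, D.b1 t ≠ 0 := fun t ht h0 => by
    have := (hB D hD t ht).1
    rw [h0, norm_zero] at this
    linarith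
  have hpne : ∀ t ∈ D.I, D.p t ≠ 0 := fun t ht h0 => by
    have := (hP D hD t ht).2.2
    rw [h0, norm_zero] at this
    linarith
  -- the wave vector
  have he0 : D.e ≠ 0 := fun h0 => by
    have := hD.e1
    rw [h0, norm_zero] at this
    linarith
  obtain ⟨wz, q, hwz, -, hq0⟩ := hWv D.M hflow.smooth D.t0 0 D.e he0 (inner_zero_right _)
  have hqd := hwz.q_deriv
  have hperp := hPe D hD q hqd (by rw [hq0, hD.b1_init, inner_smul_right, hD.ev, mul_zero])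
    (by rw [hq0, hD.b2_init, hD.ek])
  have hqne := hwz.q_ne
  -- the wave amplitude
  set s := D.c * Real.sqrt (D.a / D.kap) with hsdef
  have hspos : 0 < s := by linarith
  set P0 : ℝ := 1 / D.x0 with hP0
  set Q0 : ℝ := D.x0 * (7 / 5 - D.x0) / s with hQ0
  set w00 : E3 := (P0 / D.g D.s0) • D.b1 D.s0 - (Q0 / ‖D.p D.s0‖ ^ 2) • D.p D.s0 with hw00
  have hs0I := hJI _ hs0J
  have hder0 := hDe D hD D.s0 (hb1ne _ hs0I)
  have hqp : ∀ t, inner ℝ (q t) (D.p t) = 0 := fun t => by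
    unfold EraD.p
    rw [inner_sub_right, inner_smul_right, (hperp t).1, (hperp t).2]
    ring
  have hqw00 : inner ℝ (q D.s0) w00 = 0 := by
    rw [hw00, inner_sub_right, inner_smul_right, inner_smul_right, (hperp _).1, hqp]
    ring
  obtain ⟨w1, q1, hw1, hw10, hq10⟩ := hWv D.M hflow.smooth D.s0 w00 (q D.s0) (hqne _) hqw00
  have hq1q : q1 = q := by
    refine hU E3 (fun t => -adjoint (D.M t)) (fun _ => 0) ?_ D.s0 q1 q hq10 ?_ ?_
    · have h1 : Continuous D.M := hflow.smooth.continuous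
      exact ((adjoint (𝕜 := ℝ) (E := E3) (F := E3)).continuous.comp h1).neg
    · intro t
      have := hw1.q_deriv t
      simpa using this
    · intro t
      simpa using hqd t
  subst hq1q
  -- the scalar system
  have hsys0 : ∀ t ∈ D.J, w1 t = (D.P w1 t / D.g t) • D.b1 t
      - (D.Q w1 t / ‖D.p t‖ ^ 2) • D.p t ∧
      HasDerivAt (D.Y w1) (D.om * (D.A12 t * D.W w1 t + D.dd t * D.Y w1 t)) t ∧
      HasDerivAt (D.W w1) (D.om * (D.A21 t * D.Y w1 t - D.dd t * D.W w1 t)) t := by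
    intro t ht
    have htI := hJI t ht
    have h1 := hPQ D hD t w1 q1 0 (hb1ne t htI) (hpne t htI) (hqne t) (hperp t).1 (hperp t).2
      (hw1.orth t) (by rw [add_zero]; exact hw1.w_deriv t)
    have h2 := hYW D hD t w1 0 (ht0s0.trans_le ht.1) h1.2.1 h1.2.2
    refine ⟨h1.1, ?_, ?_⟩
    · have := h2.1
      rwa [inner_zero_right, mul_zero, add_zero] at this
    · have := h2.2
      rwa [inner_zero_right, inner_zero_right, mul_zero, mul_zero, sub_zero, add_zero] at this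
  have hsys : D.Sys (D.Y w1) (D.W w1) := fun t ht => (hsys0 t ht).2
  have hP1 : D.P w1 D.s0 = P0 := by
    unfold EraD.P
    rw [hw10, hw00, inner_sub_right, inner_smul_right, inner_smul_right, hder0.1,
      real_inner_self_eq_norm_sq]
    have : D.g D.s0 = ‖D.b1 D.s0‖ ^ 2 := rfl
    rw [this]
    have h3 : ‖D.b1 D.s0‖ ≠ 0 := norm_ne_zero_iff.2 (hb1ne _ hs0I)
    field_simp
    ring
  have hQ1 : D.Q w1 D.s0 = Q0 := by
    unfold EraD.Q
    rw [hw10, hw00, inner_sub_right, inner_smul_right, inner_smul_right,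
      real_inner_comm, hder0.1, real_inner_self_eq_norm_sq]
    have h3 : ‖D.p D.s0‖ ≠ 0 := norm_ne_zero_iff.2 (hpne _ hs0I)
    field_simp
    ring
  have hY0 : D.Y w1 D.s0 = 1 := by
    unfold EraD.Y
    rw [hxs0, hP1, hP0]
    field_simp
  have hW0 : D.W w1 D.s0 = 7 / 5 := by
    unfold EraD.W EraD.Qh
    rw [hxs0, hP1, hQ1, hP0, hQ0, ← hsdef]
    field_simp
    ring
  have hcone := hCo D hD _ _ hsys (by rw [hY0]; norm_num) (by rw [hY0, hW0]; norm_num)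
  have hgrow := hGr D hD _ _ hsys hcone
  -- closing
  have hxtf1 : 1 ≤ D.x D.tf := by rw [hxtf]; linarith [hD.X1]
  have htfI := hJI _ htfJ
  have hcf := hcone _ htfJ
  obtain ⟨hcl, hw1ne⟩ := hK1 D hD D.tf w1 q1 htfI hxtf1 (hqne _) (hperp _).1 (hperp _).2
    (hw1.orth _) hcf.1 hcf.2.1 hcf.2.2 (hsys0 _ htfJ).1
  obtain ⟨e2, he2, he2q, he2w, he2lo, he2hi⟩ := hK2 D hD D.tf w1 q1 htfI hxtf1 (hqne _)
    (hperp _).1 (hperp _).2 (hw1.orth _) hcf.1 hcf.2.1 hcf.2.2 (hsys0 _ htfJ).1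
  set m : ℝ := inner ℝ (q1 D.tf) (D.M D.tf (w1 D.tf)) with hm
  have hqn : 0 < ‖q1 D.tf‖ := norm_pos_iff.2 (hqne _)
  have hwn : 0 < ‖w1 D.tf‖ := norm_pos_iff.2 hw1ne
  have hqw : 0 < ‖q1 D.tf‖ * ‖w1 D.tf‖ := mul_pos hqn hwn
  have hcl' := abs_le.1 hcl
  have hc0 := hD.c0
  have hc1 := hD.c1
  have hk1 := hD.kap1
  have hk2 := hD.kap2
  have hmpos : 0 < |m| := by
    have h3 : (D.kap - D.c) * (‖q1 D.tf‖ * ‖w1 D.tf‖) ≤ |m| := by linarith [hcl'.1]
    have h4 : 0 < D.kap - D.c := by linarith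
    exact lt_of_lt_of_le (mul_pos h4 hqw) h3
  have hmne : m ≠ 0 := abs_pos.1 hmpos
  set sg : ℝ := m / |m| with hsg
  have hsgabs : |sg| = 1 := by
    rw [hsg, abs_div, abs_abs, div_self hmpos.ne']
  have hsgm : sg * m = |m| := by
    rw [hsg, div_mul_eq_mul_div, ← sq, ← sq_abs, sq, mul_div_assoc, div_self hmpos.ne', mul_one]
  have hsgsg : sg * sg = 1 := by
    rw [← sq, ← sq_abs, hsgabs, one_pow]
  set r : ℝ := a' / (‖w1 D.tf‖ * ‖q1 D.tf‖) with hr
  have hrpos : 0 < r := div_pos ha' (mul_pos hwn hqn)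
  have hwave : Wave D.M (fun t => (sg * r) • w1 t) q1 := by
    have := hSc D.M w1 q1 (sg * r) 1 hw1 one_ne_zero
    simpa only [one_smul] using this
  have hlam : |sg * r| = r := by rw [abs_mul, hsgabs, one_mul, abs_of_pos hrpos]
  have hnw : ∀ t, ‖(sg * r) • w1 t‖ = r * ‖w1 t‖ := fun t => by
    rw [norm_smul, Real.norm_eq_abs, hlam]
  set kap' : ℝ := |m| / (‖q1 D.tf‖ * ‖w1 D.tf‖) with hkap'
  have hkk : |kap' - D.kap| ≤ D.c := by
    rw [hkap', show |m| / (‖q1 D.tf‖ * ‖w1 D.tf‖) - D.kap =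
      (|m| - D.kap * (‖q1 D.tf‖ * ‖w1 D.tf‖)) / (‖q1 D.tf‖ * ‖w1 D.tf‖) by field_simp,
      abs_div, abs_of_pos hqw, div_le_iff₀ hqw]
    exact hcl
  have hkk' := abs_le.1 hkk
  have hkap'pos : 0 < kap' := by linarith
  set E2 : ℝ := inner ℝ e2 (D.M D.tf (w1 D.tf)) with hE2
  set c' : ℝ := E2 / (‖w1 D.tf‖ * kap') with hc'
  have hX1 := hD.X1
  have hX1' : 0 < D.X - 1 := by linarith
  rw [hxtf] at he2lo he2hi
  -- vectors at the end
  have hrw : r * (‖w1 D.tf‖ * ‖q1 D.tf‖) = a' := by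
    rw [hr]; field_simp
  have hnorm1 : ∀ t ∈ D.J, ‖w1 t‖ ≤ 8 * D.y ^ 2 * D.Y w1 t := by
    intro t ht
    have hc3 := hcone t ht
    refine norm_le hD hy hyX hs1 hx00 hx0y (hB D hD t (hJI t ht)).1
      (hP D hD t (hJI t ht)).2.2 (hJx t ht) (hJX t ht) (hsys0 t ht).1 ?_ ?_
    · rw [abs_of_pos hc3.1]
    · rw [abs_of_pos (by linarith)]
      exact hc3.2.2
  have hy2a : 8 * D.y ^ 2 ≤ D.a ∧ 20 * D.y ≤ D.a := by
    have h3 : D.y ^ 3 ≤ D.y ^ 40 := pow_le_pow_right₀ (by linarith) (by norm_num)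
    have h4 : D.y ^ 2 ≤ D.y ^ 40 := pow_le_pow_right₀ (by linarith) (by norm_num)
    have h5 := hD.big
    constructor
    · have h8 := mul_le_mul_of_nonneg_right (show (8 : ℝ) ≤ D.y by linarith) (sq_nonneg D.y)
      linarith
    · have h20 := mul_le_mul_of_nonneg_right (show (20 : ℝ) ≤ D.y by linarith) hy0.le
      linarith
  have hYf : r * D.Y w1 D.tf ≤ 4 * D.y * a' := by
    have h3 : D.Y w1 D.tf ≤ 2 * D.X * ‖w1 D.tf‖ := by
      unfold EraD.Y EraD.P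
      have h4 := real_inner_le_norm (D.b1 D.tf) (w1 D.tf)
      have h5 := (hB D hD _ htfI).2.1
      have h6 := hJX _ htfJ
      have h7 : 0 < D.x D.tf := by linarith
      calc D.x D.tf * inner ℝ (D.b1 D.tf) (w1 D.tf)
          ≤ D.x D.tf * (‖D.b1 D.tf‖ * ‖w1 D.tf‖) := mul_le_mul_of_nonneg_left h4 h7.le
        _ ≤ D.X * (2 * ‖w1 D.tf‖) := by gcongr
        _ = 2 * D.X * ‖w1 D.tf‖ := by ring
    have h8 := (hQ D hD q1 hqd hq0 D.tf htfI).1
    have h9 : r * D.Y w1 D.tf ≤ r * (2 * D.X * ‖w1 D.tf‖) := mul_le_mul_of_nonneg_left h3 hrpos.le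
    have h10 : r * ‖w1 D.tf‖ ≤ 2 * a' := by
      have : r * ‖w1 D.tf‖ * (1 / 2) ≤ r * ‖w1 D.tf‖ * ‖q1 D.tf‖ :=
        mul_le_mul_of_nonneg_left h8 (by positivity)
      have h11 : r * ‖w1 D.tf‖ * ‖q1 D.tf‖ = a' := by rw [mul_assoc]; exact hrw
      linarith
    have h12 : r * (2 * D.X * ‖w1 D.tf‖) = 2 * D.X * (r * ‖w1 D.tf‖) := by ring
    have h13 : 2 * D.X * (r * ‖w1 D.tf‖) ≤ 2 * D.y * (2 * a') := by gcongr
    linarith
  refine ⟨fun t => (sg * r) • w1 t, q1, sg • e2, fun t => r * D.Y w1 t, kap', c', hflow, hwave,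
    ?_, hkk, ?_, ?_, ?_, ?_, ?_, ?_, ?_, ?_, ?_, ?_, ?_, ?_, ?_, ?_, ?_⟩
  · show ‖(sg * r) • w1 D.tf‖ * ‖q1 D.tf‖ = a'
    rw [hnw, mul_assoc, hrw]
  · -- c' lower bound
    rw [hc', le_div_iff₀ (mul_pos hwn hkap'pos)]
    refine le_trans ?_ he2lo
    have h3 : kap' ≤ 11 / 10 * D.kap := by linarith
    have h4 : D.c / (2 * (D.X - 1) ^ 2) * (‖w1 D.tf‖ * kap') ≤
        D.c / (2 * (D.X - 1) ^ 2) * (‖w1 D.tf‖ * (11 / 10 * D.kap)) := by gcongr
    refine h4.trans (le_of_eq ?_)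
    field_simp
    ring
  · -- c' upper bound
    rw [hc', div_le_iff₀ (mul_pos hwn hkap'pos)]
    refine he2hi.trans ?_
    have h3 : 13 / 15 * D.kap ≤ kap' := by linarith
    have h4 : 3 * D.c / (2 * (D.X - 1) ^ 2) * (‖w1 D.tf‖ * (13 / 15 * D.kap)) ≤
        3 * D.c / (2 * (D.X - 1) ^ 2) * (‖w1 D.tf‖ * kap') := by gcongr
    refine le_trans (le_of_eq ?_) h4
    field_simp
    ring
  · show inner ℝ (q1 D.tf) (D.M D.tf ((sg * r) • w1 D.tf)) = a' * kap'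
    rw [map_smul, inner_smul_right, ← hm, mul_right_comm, hsgm, hkap', ← hrw]
    field_simp
  · rw [norm_smul, Real.norm_eq_abs, hsgabs, he2, one_mul]
  · show inner ℝ (sg • e2) ((sg * r) • w1 D.tf) = 0
    rw [inner_smul_left, inner_smul_right, he2w]
    simp
  · rw [inner_smul_left, he2q]
    simp
  · show inner ℝ (sg • e2) (D.M D.tf ((sg * r) • w1 D.tf)) = ‖(sg * r) • w1 D.tf‖ * kap' * c'
    rw [hnw, map_smul, inner_smul_left, inner_smul_right, ← hE2, hc']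
    have h3 : (starRingEnd ℝ) sg = sg := rfl
    rw [h3, ← mul_assoc, ← mul_assoc, hsgsg, one_mul]
    field_simp
  · exact hNB D hD
  · exact hDf D hD
  · exact hQ D hD q1 hqd hq0
  · intro t ht σ A hA
    refine hV D hD t ht (σ • ((sg * r) • w1 t)) (q1 t) (hperp t).1 (hperp t).2 A ?_
    rw [hA, ro_smul σ]
  · -- the weight
    intro t ht
    have hc3 := hcone t ht
    refine ⟨mul_pos hrpos hc3.1, ?_, ?_⟩
    · show ‖(sg * r) • w1 t‖ ≤ D.a * (r * D.Y w1 t)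
      rw [hnw]
      have h3 := hnorm1 t ht
      have h4 : 8 * D.y ^ 2 * D.Y w1 t ≤ D.a * D.Y w1 t :=
        mul_le_mul_of_nonneg_right hy2a.1 hc3.1.le
      have h5 := mul_le_mul_of_nonneg_left (h3.trans h4) hrpos.le
      linarith
    · exact weight_le hrpos ha' hx00 hom hJx htfJ hxtf1 hy hy2a.2 (fun t ht => (hcone t ht).1)
        hgrow hYf ht
  · -- monotone
    intro u hu t ht hut
    have h3 := (hgrow u hu t ht hut).1
    have h4 : 1 ≤ Real.exp (6 / 5 * (1 / D.x u - 1 / D.x t)) := by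
      apply Real.one_le_exp
      have h5 : D.x u ≤ D.x t := by
        unfold EraD.x
        exact mul_le_mul_of_nonneg_left (by linarith) hom.le
      have h6 := one_div_le_one_div_of_le (hx00.trans_le (hJx u hu)) h5
      linarith
    have h5 : D.Y w1 u ≤ D.Y w1 t :=
      (le_mul_of_one_le_left (hcone u hu).1.le h4).trans h3
    exact mul_le_mul_of_nonneg_left h5 hrpos.le
  · -- small at the start
    intro t ht hxt
    exact weight_small hrpos ha' hx00 hx01 hom hJx htfJ hxtf1 hy hy2a.2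
      (fun t ht => (hcone t ht).1) hgrow hYf ht hxt
  · -- dominance
    intro u f t1 ρ ht1 hρ hu0 hu
    refine dominance hD hPQ hYW hDo hy hyX hyXc ha hsqa hTy hT hx00 hx0y ht0s0 hs1 hs2 ?_ hqne
      (fun t => (hperp t).1) (fun t => (hperp t).2) hsys hcone hrpos u f t1 ρ ht1 hρ hu0 hu
    intro t ht
    have htI := hJI t ht
    have i1 := hI t htI
    have i2 := hB D hD t htI
    have i3 := hP D hD t htI
    refine ⟨hJx t ht, hJX t ht, i1.2.2.2.2.2.1, i1.2.2.2.2.2.2.1, i2.1, i2.2.1, i3.2.2, ?_⟩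
    have h3 : ‖D.k D.t0 - D.k2 t • D.e‖ ≤ 1 + D.k2 t := by
      refine (norm_sub_le _ _).trans ?_
      rw [hD.k1, norm_smul, hD.e1, mul_one, Real.norm_eq_abs, abs_of_nonneg i1.2.2.2.2.2.1]
    have h4 : (1 + D.k2 t) / D.y ^ 16 ≤ 1 + D.k2 t :=
      div_le_self (by linarith [i1.2.2.2.2.2.1]) (one_le_pow₀ (by linarith))
    have h5 := norm_add_le (D.p t - (D.k D.t0 - D.k2 t • D.e)) (D.k D.t0 - D.k2 t • D.e)
    rw [sub_add_cancel] at h5
    linarith [i3.1]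

end Pool.Agent.Work.MP_b0497c_an.Forced.Ode
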