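import Pool.Agent.Work.MP_b0497c_an.Forced.Ode.Stmts

set_option autoImplicit false

/-!
# ODE module of the forced Euler blow-up: global linear ODEs
-/

open scoped ContDiff Nat Topology
open Set MeasureTheory

namespace Pool.Agent.Work.MP_b0497c_an.Forced.Ode

namespace Linear

variable {E : Type} [NormedAddCommGroup E] [NormedSpace ℝ E] [CompleteSpace E]

/-- Picard iteration, differences of consecutive terms. -/
noncomputable def it (A : ℝ → E →L[ℝ] E) (r : ℝ → E) (t0 : ℝ) (y0 : E) : ℕ → ℝ → E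
  | 0 => fun t => y0 + ∫ s in t0..t, r s
  | k + 1 => fun t => ∫ s in t0..t, A s (it A r t0 y0 k s)

theorem it_deriv0 (A : ℝ → E →L[ℝ] E) {r : ℝ → E} (hr : Continuous r) (t0 : ℝ) (y0 : E) (t : ℝ) :
    HasDerivAt (it A r t0 y0 0) (r t) t :=
  (Continuous.integral_hasStrictDerivAt hr t0 t).hasDerivAt.const_add y0

theorem it_cont {A : ℝ → E →L[ℝ] E} (hA : Continuous A) {r : ℝ → E} (hr : Continuous r) (t0 : ℝ)
    (y0 : E) (k : ℕ) : Continuous (it A r t0 y0 k) := by
  induction k with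
  | zero =>
    exact continuous_iff_continuousAt.2 fun t => (it_deriv0 A hr t0 y0 t).continuousAt
  | succ k ih =>
    have h : Continuous fun s => A s (it A r t0 y0 k s) := hA.clm_apply ih
    exact continuous_iff_continuousAt.2 fun t =>
      (Continuous.integral_hasStrictDerivAt h t0 t).hasDerivAt.continuousAt

theorem it_deriv {A : ℝ → E →L[ℝ] E} (hA : Continuous A) {r : ℝ → E} (hr : Continuous r) (t0 : ℝ)
    (y0 : E) (k : ℕ) (t : ℝ) : HasDerivAt (it A r t0 y0 (k + 1)) (A t (it A r t0 y0 k t)) t :=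
  (Continuous.integral_hasStrictDerivAt (hA.clm_apply (it_cont hA hr t0 y0 k)) t0 t).hasDerivAt

theorem it_zero (A : ℝ → E →L[ℝ] E) (r : ℝ → E) (t0 : ℝ) (y0 : E) (k : ℕ) :
    it A r t0 y0 (k + 1) t0 = 0 :=
  intervalIntegral.integral_same

omit [CompleteSpace E] in
/-- Bounds forward in time. -/
theorem fwd {Y : ℕ → ℝ → E} {B : ℝ → E →L[ℝ] E} {t0 T K C : ℝ} (hK : 0 ≤ K)
    (h0 : ∀ t ∈ Icc t0 T, ‖Y 0 t‖ ≤ C) (hB : ∀ t ∈ Icc t0 T, ‖B t‖ ≤ K)
    (hd : ∀ k t, HasDerivAt (Y (k + 1)) (B t (Y k t)) t) (hz : ∀ k, Y (k + 1) t0 = 0) (k : ℕ) :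
    ∀ t ∈ Icc t0 T, ‖Y k t‖ ≤ C * ((K * (t - t0)) ^ k / k !) := by
  induction k with
  | zero =>
    intro t ht
    simpa using h0 t ht
  | succ k ih =>
    have hBd : ∀ x, HasDerivAt (fun t => C * ((K * (t - t0)) ^ (k + 1) / (k + 1)!))
        (C * (K * ((K * (x - t0)) ^ k / k !))) x := by
      intro x
      have h1 := (((((hasDerivAt_id' x).sub_const t0).const_mul K).fun_pow (k + 1)).div_const
        ((k + 1)! : ℝ)).const_mul C
      refine h1.congr_deriv ?_
      rw [Nat.factorial_succ]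
      push_cast
      have : ((k : ℝ) + 1) ≠ 0 := by positivity
      have h2 : ((k ! : ℕ) : ℝ) ≠ 0 := by positivity
      field_simp
    intro t ht
    refine image_norm_le_of_norm_deriv_right_le_deriv_boundary (a := t0) (b := T)
      (fun x _ => (hd k x).continuousAt.continuousWithinAt)
      (fun x _ => (hd k x).hasDerivWithinAt) ?_ hBd ?_ ht
    · rw [hz k, norm_zero, sub_self, mul_zero, zero_pow (Nat.succ_ne_zero k), zero_div, mul_zero]
    · intro x hx
      have hx' : x ∈ Icc t0 T := ⟨hx.1, hx.2.le⟩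
      calc ‖B x (Y k x)‖ ≤ ‖B x‖ * ‖Y k x‖ := (B x).le_opNorm _
        _ ≤ K * (C * ((K * (x - t0)) ^ k / k !)) :=
          mul_le_mul (hB x hx') (ih x hx') (norm_nonneg _) hK
        _ = _ := by ring

omit [CompleteSpace E] in
/-- Bounds in both directions. -/
theorem both {Y : ℕ → ℝ → E} {B : ℝ → E →L[ℝ] E} {t0 R K C : ℝ} (hK : 0 ≤ K)
    (h0 : ∀ t ∈ Icc (t0 - R) (t0 + R), ‖Y 0 t‖ ≤ C) (hB : ∀ t ∈ Icc (t0 - R) (t0 + R), ‖B t‖ ≤ K)
    (hd : ∀ k t, HasDerivAt (Y (k + 1)) (B t (Y k t)) t) (hz : ∀ k, Y (k + 1) t0 = 0) (k : ℕ)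
    (t : ℝ) (ht : t ∈ Icc (t0 - R) (t0 + R)) : ‖Y k t‖ ≤ C * ((K * R) ^ k / k !) := by
  have hR : 0 ≤ R := by
    have := ht.1.trans ht.2
    linarith
  have hC : 0 ≤ C := (norm_nonneg _).trans (h0 t ht)
  have hmono : ∀ s, 0 ≤ s → s ≤ R → C * ((K * s) ^ k / k !) ≤ C * ((K * R) ^ k / k !) := by
    intro s hs0 hs
    apply mul_le_mul_of_nonneg_left _ hC
    apply div_le_div_of_nonneg_right _ (by positivity)
    exact pow_le_pow_left₀ (mul_nonneg hK hs0) (mul_le_mul_of_nonneg_left hs hK) k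
  rcases le_total t0 t with h | h
  · have h1 := fwd (T := t0 + R) hK (fun s hs => h0 s ⟨by linarith [hs.1], hs.2⟩)
      (fun s hs => hB s ⟨by linarith [hs.1], hs.2⟩) hd hz k t ⟨h, ht.2⟩
    exact h1.trans (hmono _ (by linarith) (by linarith [ht.2]))
  · -- reflection
    have hd' : ∀ k s, HasDerivAt (fun s => Y (k + 1) (2 * t0 - s))
        ((-(B (2 * t0 - s))) (Y k (2 * t0 - s))) s := by
      intro k s
      have h1 : HasDerivAt (fun s : ℝ => 2 * t0 - s) (-1) s := by
        simpa using (hasDerivAt_id' s).const_sub (2 * t0)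
      have h2 := (hd k (2 * t0 - s)).scomp s h1
      refine HasDerivAt.congr_deriv h2 ?_
      rw [neg_one_smul]
      rfl
    have hm : ∀ s ∈ Icc t0 (t0 + R), 2 * t0 - s ∈ Icc (t0 - R) (t0 + R) := by
      intro s hs
      exact ⟨by linarith [hs.2], by linarith [hs.1]⟩
    have h1 : ‖Y k (2 * t0 - (2 * t0 - t))‖ ≤ C * ((K * (2 * t0 - t - t0)) ^ k / k !) :=
      fwd (Y := fun k s => Y k (2 * t0 - s)) (B := fun s => -(B (2 * t0 - s)))
      (T := t0 + R) hK (fun s hs => h0 _ (hm s hs))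
      (fun s hs => by
        rw [norm_neg]
        exact hB _ (hm s hs)) hd'
      (fun k => by
        show Y (k + 1) (2 * t0 - t0) = 0
        rw [show 2 * t0 - t0 = t0 by ring]; exact hz k) k (2 * t0 - t)
      ⟨by linarith, by linarith [ht.1]⟩
    rw [show 2 * t0 - (2 * t0 - t) = t by ring] at h1
    exact h1.trans (hmono _ (by linarith) (by linarith [ht.1]))

/-- The solution. -/
noncomputable def sol (A : ℝ → E →L[ℝ] E) (r : ℝ → E) (t0 : ℝ) (y0 : E) (t : ℝ) : E :=
  it A r t0 y0 0 t + ∑' k, it A r t0 y0 (k + 1) t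

theorem sol_init (A : ℝ → E →L[ℝ] E) (r : ℝ → E) (t0 : ℝ) (y0 : E) : sol A r t0 y0 t0 = y0 := by
  unfold sol
  rw [tsum_congr (fun k => it_zero A r t0 y0 k), tsum_zero, add_zero]
  show y0 + ∫ s in t0..t0, r s = y0
  rw [intervalIntegral.integral_same, add_zero]

theorem sol_deriv {A : ℝ → E →L[ℝ] E} (hA : Continuous A) {r : ℝ → E} (hr : Continuous r) (t0 : ℝ)
    (y0 : E) (t : ℝ) : HasDerivAt (sol A r t0 y0) (A t (sol A r t0 y0 t) + r t) t := by
  set R := |t - t0| + 1 with hR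
  have hR0 : 0 < R := by positivity
  have hcomp : IsCompact (Icc (t0 - R) (t0 + R)) := isCompact_Icc
  obtain ⟨K, hK⟩ := hcomp.exists_bound_of_continuousOn hA.continuousOn
  obtain ⟨C, hC⟩ := hcomp.exists_bound_of_continuousOn (it_cont hA hr t0 y0 0).continuousOn
  have ht0 : t0 ∈ Icc (t0 - R) (t0 + R) := ⟨by linarith, by linarith⟩
  have hK0 : 0 ≤ K := (norm_nonneg _).trans (hK t0 ht0)
  have hb := fun k s hs => both hK0 hC hK (it_deriv hA hr t0 y0) (it_zero A r t0 y0) k s hs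
  have hIoo : ∀ s ∈ Ioo (t0 - R) (t0 + R), s ∈ Icc (t0 - R) (t0 + R) := fun s hs => ⟨hs.1.le, hs.2.le⟩
  have ht : t ∈ Ioo (t0 - R) (t0 + R) := by
    have h1 := neg_abs_le (t - t0)
    have h2 := le_abs_self (t - t0)
    exact ⟨by linarith, by linarith⟩
  have hu : Summable fun k : ℕ => K * (C * ((K * R) ^ k / k !)) :=
    ((Real.summable_pow_div_factorial (K * R)).mul_left C).mul_left K
  have hsum : Summable fun k => it A r t0 y0 k t := by
    refine Summable.of_norm_bounded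
      ((Real.summable_pow_div_factorial (K * R)).mul_left C) fun k => ?_
    exact hb k t (hIoo t ht)
  have hd := hasDerivAt_tsum_of_isPreconnected (g := fun k => it A r t0 y0 (k + 1))
    (g' := fun k s => A s (it A r t0 y0 k s)) (t := Ioo (t0 - R) (t0 + R)) (y₀ := t0) (y := t) hu
    isOpen_Ioo isPreconnected_Ioo (fun k s _ => it_deriv hA hr t0 y0 k s)
    (fun k s hs => ((A s).le_opNorm _).trans (mul_le_mul (hK s (hIoo s hs)) (hb k s (hIoo s hs))
      (norm_nonneg _) hK0)) ⟨by linarith, by linarith⟩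
    (by simp only [it_zero]; exact summable_zero) ht
  have h1 := (it_deriv0 A hr t0 y0 t).add hd
  refine h1.congr_deriv ?_
  have h2 : ∑' k, A t (it A r t0 y0 k t) = A t (∑' k, it A r t0 y0 k t) :=
    ((A t).map_tsum hsum).symm
  have h3 : ∑' k, it A r t0 y0 k t = sol A r t0 y0 t := hsum.tsum_eq_zero_add
  rw [h2, h3, add_comm]

end Linear

open Linear in
theorem prf_StLinear : StLinear := by
  intro E _ _ _ A r hA hr t0 y0
  refine ⟨sol A r t0 y0, ?_, sol_init A r t0 y0, fun t => sol_deriv hA.continuous hr.continuous t0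
    y0 t⟩
  have hd := fun t => sol_deriv hA.continuous hr.continuous t0 y0 t
  have hdiff : Differentiable ℝ (sol A r t0 y0) := fun t => (hd t).differentiableAt
  have hderiv : deriv (sol A r t0 y0) = fun t => A t (sol A r t0 y0 t) + r t :=
    funext fun t => (hd t).deriv
  rw [contDiff_infty]
  intro n
  induction n with
  | zero => exact contDiff_zero.2 hdiff.continuous
  | succ n ih =>
    have h1 : ContDiff ℝ n (fun t => A t (sol A r t0 y0 t) + r t) :=
      ((contDiff_infty.1 hA n).clm_apply ih).add (contDiff_infty.1 hr n)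
    have h2 : ((n + 1 : ℕ) : WithTop ℕ∞) = (n : WithTop ℕ∞) + 1 := by push_cast; rfl
    rw [h2, contDiff_succ_iff_deriv, hderiv]
    refine ⟨hdiff, ?_, h1⟩
    intro h
    exact absurd h (by exact WithTop.coe_ne_top)

end Pool.Agent.Work.MP_b0497c_an.Forced.Ode
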