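import Pool.Agent.Work.MP_b0497c_an.Forced.Ode.StmtsB

set_option autoImplicit false

/-!
# ODE module, item M6: moderate bounds for the flows
-/

open scoped ContDiff
open Set ContinuousLinearMap Filter Topology

namespace Pool.Agent.Work.MP_b0497c_an.Forced.Ode

namespace ModM

/-- the map `(v, k) ↦ ro v k` as a continuous bilinear map -/
noncomputable def roB : E3 →L[ℝ] E3 →L[ℝ] Op :=
  LinearMap.mkContinuous₂ (LinearMap.mk₂ ℝ (fun v k : E3 => ro v k)
    (by intro a b c; ext x i; simp [ro])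
    (by intro a b c; ext x i; simp [ro]; try ring)
    (by intro a b c; ext x i; simp [ro]; try ring)
    (by intro a b c; ext x i; simp [ro]; try ring)) 1
    (by
      intro v k
      refine ContinuousLinearMap.opNorm_le_bound _ (by positivity) ?_
      intro x
      have h1 : ‖(ro v k) x‖ = |inner ℝ k x| * ‖v‖ := by
        simp [ro, norm_smul]
      have h2 := abs_real_inner_le_norm k x
      show ‖(ro v k) x‖ ≤ _
      rw [h1]
      have := norm_nonneg v
      nlinarith)

theorem roB_apply (v k : E3) : roB v k = ro v k := rfl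

theorem two_pow_ge (k : ℕ) : (k : ℝ) ≤ 2 ^ k := by
  have h : k < 2 ^ k := Nat.lt_two_pow_self
  exact_mod_cast h.le

/-- `Lam` is at least `k + 2`, and monotone. -/
theorem lam_ge (L0 : ℝ) (hL : 10 ≤ L0) (k : ℕ) : 2 ≤ Real.exp (L0 ^ 2 ^ k) ∧
    (k : ℝ) ≤ Real.exp (L0 ^ 2 ^ k) := by
  have h1 : (1 : ℝ) ≤ L0 ^ 2 ^ k := one_le_pow₀ (by linarith)
  have h2 := Real.add_one_le_exp (L0 ^ 2 ^ k)
  have h3 : (k : ℝ) ≤ L0 ^ 2 ^ k := by
    have h4 : ((2 ^ k : ℕ) : ℝ) ≤ 2 ^ 2 ^ k := two_pow_ge (2 ^ k)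
    have h5 : (2 : ℝ) ^ 2 ^ k ≤ L0 ^ 2 ^ k := pow_le_pow_left₀ (by norm_num) (by linarith) _
    have h6 := two_pow_ge k
    push_cast at h4
    linarith
  exact ⟨by linarith, by linarith⟩

theorem lam_mono (L0 : ℝ) (hL : 10 ≤ L0) (k : ℕ) :
    Real.exp (L0 ^ 2 ^ k) ≤ Real.exp (L0 ^ 2 ^ (k + 1)) := by
  apply Real.exp_le_exp.2
  exact pow_le_pow_right₀ (by linarith) (Nat.pow_le_pow_right (by norm_num) (Nat.le_succ k))

end ModM

open ModM in
theorem prf_StModM (hB : StModBil) (hMW : StModWave) (hT : StTimes) : StModM := by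
  obtain ⟨Lst, h10, hT⟩ := hT
  refine ⟨Lst, h10, fun L0 hL0 D w q α hC N => ?_⟩
  have hL : 10 ≤ L0 := h10.trans hL0
  obtain ⟨Ts, hTs, -⟩ := hT L0 hL0 D w q α hC
  set Lam : ℕ → ℝ := fun k => Real.exp (L0 ^ 2 ^ k) with hLam
  have lam2 : ∀ k, 2 ≤ Lam k := fun k => (lam_ge L0 hL k).1
  have lamk : ∀ k : ℕ, (k : ℝ) ≤ Lam k := fun k => (lam_ge L0 hL k).2
  have lamm : ∀ k, Lam k ≤ Lam (k + 1) := fun k => lam_mono L0 hL k
  have hJ : ∀ k, (D (k + 1)).J ⊆ (D k).J := by
    intro k t ht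
    obtain ⟨-, -, h3, -, -, h6, -⟩ := hTs k
    exact ⟨((by linarith [Real.exp_pos (-(L0 ^ 2 ^ k))] : (D k).s0 ≤ (D (k + 1)).s0)).trans ht.1,
      ht.2.trans h6⟩
  have hsm : ∀ k, ContDiff ℝ ∞ (fun t => (D k).M t) := fun k => (hC.pack k).flow.smooth
  have hJI : ∀ k, (D k).J ⊆ (D k).I := by
    intro k
    obtain ⟨-, -, -, -, -, -, -, -, -, -, h⟩ := hTs k
    exact h
  induction N with
  | zero =>
    refine ⟨hsm, ?_⟩
    intro d hd
    refine ⟨2, ?_⟩
    intro k t ht
    obtain rfl : d = 0 := Nat.le_zero.1 hd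
    rw [iteratedDeriv_zero, mul_one]
    have h1 := (hC.pack k).Mb t (hJI k ht)
    rw [(hC.stage k).a_eq] at h1
    refine h1.trans ?_
    have := lam2 k
    show 2 * Lam k ≤ Lam k ^ 2
    nlinarith
  | succ N ih =>
    obtain ⟨hq, hw⟩ := hMW L0 D w q α N (by linarith) hC ih
    have hbil := hB E3 E3 Op roB Lam (fun k => (D k).J) α (fun _ _ => 1) (N + 1) w q lam2
      (fun k t ht => ⟨((hC.pack k).α_pos t ht).le, zero_le_one⟩) hw hq
    refine ⟨hsm, ?_⟩
    intro d hd
    obtain ⟨n, hn⟩ := hbil.2 d hd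
    have hbs := hbil.1
    -- the bound of the derivative of the first flow
    obtain ⟨C, hCb⟩ : ∃ C : ℝ, ∀ t ∈ (D 0).J, ‖iteratedDeriv d (fun t => (D 0).M t) t‖ ≤ C := by
      apply IsCompact.exists_bound_of_continuousOn
      · exact isCompact_Icc
      · exact ((hsm 0).continuous_iteratedDeriv d (by exact_mod_cast le_top)).continuousOn
    obtain ⟨m, hm⟩ := pow_unbounded_of_one_lt C (one_lt_two)
    have key : ∀ k, ∀ t ∈ (D k).J, ‖iteratedDeriv d (fun t => (D k).M t) t‖ ≤
        C + k * Lam k ^ (n + 2) := by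
      intro k
      induction k with
      | zero =>
        intro t ht
        simpa using hCb t ht
      | succ k ihk =>
        intro t ht
        have ht' := hJ k ht
        have e1 : (fun t => (D (k + 1)).M t) = (fun t => (D k).M t) +
            (fun t => roB (w k t) (q k t)) := by
          funext t
          rw [hC.M_next k t]
          rfl
        rw [e1, iteratedDeriv_add ((hsm k).contDiffAt.of_le (by exact_mod_cast le_top))
          ((hbs k).contDiffAt.of_le (by exact_mod_cast le_top))]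
        refine (norm_add_le _ _).trans ?_
        have h1 := ihk t ht'
        have h2 : ‖iteratedDeriv d (fun t => roB (w k t) (q k t)) t‖ ≤ Lam k ^ n * (α k t * 1) :=
          hn k t ht'
        rw [mul_one] at h2
        have h3 := (hC.pack k).α_le t ht'
        rw [(hC.stage k).a_eq] at h3
        have h3' : α k t ≤ Lam k * Lam (k + 1) := h3
        have hk0 : 0 < Lam k := by linarith [lam2 k]
        have hk1 : 0 < Lam (k + 1) := by linarith [lam2 (k + 1)]
        have h4 : Lam k ^ (n + 2) ≤ Lam (k + 1) ^ (n + 2) :=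
          pow_le_pow_left₀ hk0.le (lamm k) _
        have h5 : Lam k ^ n * (Lam k * Lam (k + 1)) ≤ Lam (k + 1) ^ (n + 2) := by
          have h6 : Lam k ^ (n + 1) ≤ Lam (k + 1) ^ (n + 1) := pow_le_pow_left₀ hk0.le (lamm k) _
          calc Lam k ^ n * (Lam k * Lam (k + 1)) = Lam k ^ (n + 1) * Lam (k + 1) := by ring
            _ ≤ Lam (k + 1) ^ (n + 1) * Lam (k + 1) := mul_le_mul_of_nonneg_right h6 hk1.le
            _ = Lam (k + 1) ^ (n + 2) := by ring
        have h7 : Lam k ^ n * α k t ≤ Lam k ^ n * (Lam k * Lam (k + 1)) :=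
          mul_le_mul_of_nonneg_left h3' (by positivity)
        have h8 : (k : ℝ) * Lam k ^ (n + 2) ≤ k * Lam (k + 1) ^ (n + 2) :=
          mul_le_mul_of_nonneg_left h4 (by positivity)
        push_cast
        linarith
    refine ⟨m + (n + 3) + 1, ?_⟩
    intro k t ht
    rw [mul_one]
    refine (key k t ht).trans ?_
    have hk2 := lam2 k
    have hk1 : 1 ≤ Lam k := by linarith
    have h1 : C ≤ Lam k ^ m := hm.le.trans (pow_le_pow_left₀ (by norm_num) hk2 _)
    have h2 : (k : ℝ) * Lam k ^ (n + 2) ≤ Lam k ^ (n + 3) := by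
      rw [pow_succ (Lam k) (n + 2), mul_comm]
      exact mul_le_mul_of_nonneg_left (lamk k) (by positivity)
    have h3 : Lam k ^ m ≤ Lam k ^ (m + (n + 3)) := pow_le_pow_right₀ hk1 (by omega)
    have h4 : Lam k ^ (n + 3) ≤ Lam k ^ (m + (n + 3)) := pow_le_pow_right₀ hk1 (by omega)
    have h5 : 2 * Lam k ^ (m + (n + 3)) ≤ Lam k ^ (m + (n + 3) + 1) := by
      rw [pow_succ (Lam k) (m + (n + 3)), mul_comm]
      exact mul_le_mul_of_nonneg_left hk2 (by positivity)
    linarith

end Pool.Agent.Work.MP_b0497c_an.Forced.Ode
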