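import Pool.Agent.Work.MP_b0497c_an.Forced.Ode.StmtsB

set_option autoImplicit false

/-!
# ODE module of the forced Euler blow-up: moderate bounds for the waves (M5)
-/

open scoped ContDiff
open Set ContinuousLinearMap Filter Topology

namespace Pool.Agent.Work.MP_b0497c_an.Forced.Ode

namespace ModWave

/-- The adjoint as a real continuous linear map. -/
noncomputable def adjL : Op →L[ℝ] Op :=
  LinearMap.mkContinuous
    { toFun := fun A => adjoint A
      map_add' := fun A B => map_add _ A B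
      map_smul' := fun c A => by simp } 1
    (fun A => by simp)

theorem adjL_apply (A : Op) : adjL A = adjoint A := rfl

/-- The inner product as a real continuous bilinear map. -/
noncomputable def innB : E3 →L[ℝ] E3 →L[ℝ] ℝ :=
  (isBoundedBilinearMap_inner (𝕜 := ℝ) (E := E3)).toContinuousLinearMap

theorem innB_apply (x y : E3) : innB x y = inner ℝ x y := rfl

/-- The rank one map as a bilinear map, `roB k v = ro v k`. -/
noncomputable def roB : E3 →L[ℝ] E3 →L[ℝ] Op := (smulRightL ℝ E3 E3).comp innB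

theorem roB_apply (k v : E3) : roB k v = ro v k := by
  ext x
  rfl

theorem ModV.mono {E : Type} [NormedAddCommGroup E] [NormedSpace ℝ E] {Lam : ℕ → ℝ}
    {I : ℕ → Set ℝ} {mu : ℕ → ℝ → ℝ} {N N' : ℕ} {f : ℕ → ℝ → E} (h : ModV Lam I mu N f)
    (hN : N' ≤ N) : ModV Lam I mu N' f :=
  ⟨h.1, fun d hd => h.2 d (hd.trans hN)⟩

theorem bil_one (hB : StModBil) {E F G : Type} [NormedAddCommGroup E] [NormedSpace ℝ E]
    [NormedAddCommGroup F] [NormedSpace ℝ F] [NormedAddCommGroup G] [NormedSpace ℝ G]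
    (B : E →L[ℝ] F →L[ℝ] G) {Lam : ℕ → ℝ} {I : ℕ → Set ℝ} {N : ℕ}
    {f : ℕ → ℝ → E} {g : ℕ → ℝ → F} (hL : ∀ k, 2 ≤ Lam k)
    (hf : ModV Lam I (fun _ _ => 1) N f) (hg : ModV Lam I (fun _ _ => 1) N g) :
    ModV Lam I (fun _ _ => 1) N (fun k t => B (f k t) (g k t)) := by
  have h := hB E F G B Lam I (fun _ _ => 1) (fun _ _ => 1) N f g hL
    (fun _ _ _ => ⟨zero_le_one, zero_le_one⟩) hf hg
  simpa only [mul_one] using h

theorem lin_one (hLi : StModLin) {E F : Type} [NormedAddCommGroup E] [NormedSpace ℝ E]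
    [NormedAddCommGroup F] [NormedSpace ℝ F] (A : E →L[ℝ] F) {Lam : ℕ → ℝ} {I : ℕ → Set ℝ} {N : ℕ}
    {f : ℕ → ℝ → E} (hL : ∀ k, 2 ≤ Lam k) (hf : ModV Lam I (fun _ _ => 1) N f) :
    ModV Lam I (fun _ _ => 1) N (fun k t => A (f k t)) :=
  (hLi E F A Lam I (fun _ _ => 1) N f f hL (fun _ _ _ => zero_le_one) hf hf).2

theorem add_one (hLi : StModLin) {E : Type} [NormedAddCommGroup E] [NormedSpace ℝ E]
    {Lam : ℕ → ℝ} {I : ℕ → Set ℝ} {N : ℕ}
    {f g : ℕ → ℝ → E} (hL : ∀ k, 2 ≤ Lam k) (hf : ModV Lam I (fun _ _ => 1) N f)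
    (hg : ModV Lam I (fun _ _ => 1) N g) :
    ModV Lam I (fun _ _ => 1) N (fun k t => f k t + g k t) :=
  (hLi E E (ContinuousLinearMap.id ℝ E) Lam I (fun _ _ => 1) N f g hL
    (fun _ _ _ => zero_le_one) hf hg).1

end ModWave

open ModWave in
/-- M5 -/
theorem prf_StModWave (hB : StModBil) (hLi : StModLin) (hO : StModOde) (hI : StModInv) :
    StModWave := by
  intro L0 D w q α N hL0 hC hM
  set Lam : ℕ → ℝ := fun k => Real.exp (L0 ^ 2 ^ k) with hLam
  set J : ℕ → Set ℝ := fun k => (D k).J with hJ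
  have hLam2 : ∀ k, 2 ≤ Lam k := by
    intro k
    have h1 : (1 : ℝ) ≤ L0 ^ 2 ^ k := one_le_pow₀ hL0
    have h2 := Real.add_one_le_exp (L0 ^ 2 ^ k)
    simp only [hLam]
    linarith
  have ha : ∀ k, (D k).a = Lam k := fun k => (hC.stage k).a_eq
  have hJI : ∀ k, (D k).J ⊆ (D k).I := by
    intro k t ht
    have hok := (hC.stage k).ok
    have h0 : 0 ≤ (D k).x0 / (D k).om := by
      apply div_nonneg
      · exact Real.sqrt_nonneg _
      · exact mul_nonneg hok.c0.le (Real.sqrt_nonneg _)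
    refine ⟨?_, ht.2⟩
    have := ht.1
    unfold EraD.s0 at this
    linarith
  -- the wave vector
  have hAdj : ModV Lam J (fun _ _ => 1) N (fun k t => adjL ((D k).M t)) :=
    lin_one hLi adjL hLam2 hM
  have hnAdj : ModV Lam J (fun _ _ => 1) N
      (fun k t => (-(ContinuousLinearMap.id ℝ Op)) (adjL ((D k).M t))) :=
    lin_one hLi (-(ContinuousLinearMap.id ℝ Op)) hLam2 hAdj
  have hq : ModV Lam J (fun _ _ => 1) (N + 1) q := by
    apply hO E3 Lam J (fun _ _ => 1) N _ q hLam2 (fun _ _ _ => zero_le_one) hnAdj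
      (fun k => (hC.pack k).wave.q_smooth)
    · intro k t
      exact (hC.pack k).wave.q_deriv t
    · refine ⟨2, fun k t ht => ?_⟩
      have h1 := (hC.pack k).q_hi t (hJI k ht)
      rw [ha k] at h1
      have h2 := hLam2 k
      rw [mul_one, pow_two]
      have h3 : 2 * Lam k ≤ Lam k * Lam k := mul_le_mul_of_nonneg_right h2 (by linarith)
      linarith
  have hh : ModV Lam J (fun _ _ => 1) (N + 1) (fun k t => innB (q k t) (q k t)) :=
    bil_one hB innB hLam2 hq hq
  have hhval : ∀ k t, innB (q k t) (q k t) = ‖q k t‖ ^ 2 := by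
    intro k t
    rw [innB_apply, real_inner_self_eq_norm_sq]
  have hinv : ModV Lam J (fun _ _ => 1) (N + 1) (fun k t => (innB (q k t) (q k t))⁻¹) := by
    apply hI Lam J (N + 1) _ hLam2 _ hh
    · intro k t ht
      show 1 ≤ innB (q k t) (q k t)
      rw [hhval]
      have := (hC.pack k).q_lo t (hJI k ht)
      exact one_le_pow₀ this
    · intro k t
      show 0 < innB (q k t) (q k t)
      rw [hhval]
      have := (hC.pack k).wave.q_ne t
      positivity
  -- the operator of the amplitude equation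
  have hq' : ModV Lam J (fun _ _ => 1) N q := ModV.mono hq (Nat.le_succ N)
  have hinv' := ModV.mono hinv (Nat.le_succ N)
  have hMq : ModV Lam J (fun _ _ => 1) N (fun k t => adjL ((D k).M t) (q k t)) :=
    bil_one hB (ContinuousLinearMap.id ℝ Op) hLam2 hAdj hq'
  have hro : ModV Lam J (fun _ _ => 1) N
      (fun k t => roB (adjL ((D k).M t) (q k t)) (q k t)) :=
    bil_one hB roB hLam2 hMq hq'
  have hsc : ModV Lam J (fun _ _ => 1) N (fun k t => ((2 : ℝ) • (lsmul ℝ ℝ : ℝ →L[ℝ] Op →L[ℝ] Op))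
      ((innB (q k t) (q k t))⁻¹) (roB (adjL ((D k).M t) (q k t)) (q k t))) :=
    bil_one hB _ hLam2 hinv' hro
  have hnM : ModV Lam J (fun _ _ => 1) N
      (fun k t => (-(ContinuousLinearMap.id ℝ Op)) ((D k).M t)) :=
    lin_one hLi (-(ContinuousLinearMap.id ℝ Op)) hLam2 hM
  have hA := add_one hLi hLam2 hnM hsc
  refine ⟨hq, ?_⟩
  apply hO E3 Lam J α N _ w hLam2 (fun k t ht => ((hC.pack k).α_pos t ht).le) hA
    (fun k => (hC.pack k).wave.w_smooth)
  · intro k t
    have h1 := (hC.pack k).wave.w_deriv t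
    refine h1.congr_deriv ?_
    simp only [roB_apply, hhval]
    rw [add_apply]
    simp only [neg_apply, smul_apply, lsmul_apply, ContinuousLinearMap.id_apply]
    congr 1
    unfold ro
    rw [smulRight_apply, adjL_apply]
    simp only [innerSL_apply_apply]
    rw [adjoint_inner_left, smul_smul, smul_smul]
    congr 1
    ring
  · refine ⟨1, fun k t ht => ?_⟩
    have h1 := (hC.pack k).w_le t ht
    rw [ha k] at h1
    rwa [pow_one]

end Pool.Agent.Work.MP_b0497c_an.Forced.Ode
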