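import Pool.Agent.Work.MP_b0497c_an.Forced.Ode.Stmts

set_option autoImplicit false

/-!
# ODE module, item T2: the component of `v` orthogonal to `b1`
-/

open scoped ContDiff
open Set ContinuousLinearMap

namespace Pool.Agent.Work.MP_b0497c_an.Forced.Ode

namespace Piv

/-- the projection on the complement of `b` -/
noncomputable def pr (b u : E3) : E3 := u - (inner ℝ b u / ‖b‖ ^ 2) • b

theorem pr_add (b u v : E3) : pr b (u + v) = pr b u + pr b v := by
  unfold pr
  rw [inner_add_right, add_div, add_smul]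
  abel

theorem pr_smul (b u : E3) (r : ℝ) : pr b (r • u) = r • pr b u := by
  unfold pr
  rw [real_inner_smul_right, smul_sub, smul_smul, mul_div_assoc]

theorem pr_self (b : E3) (hb : b ≠ 0) : pr b b = 0 := by
  unfold pr
  have h : ‖b‖ ^ 2 ≠ 0 := by
    have := norm_pos_iff.2 hb
    positivity
  rw [real_inner_self_eq_norm_sq, div_self h, one_smul, sub_self]

theorem pr_le (b u : E3) (hb : b ≠ 0) : ‖pr b u‖ ≤ ‖u‖ := by
  have hpos := norm_pos_iff.2 hb
  have h : ‖pr b u‖ ^ 2 ≤ ‖u‖ ^ 2 := by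
    unfold pr
    rw [norm_sub_sq_real, norm_smul, mul_pow, real_inner_smul_right, Real.norm_eq_abs, sq_abs]
    have e : ‖u‖ ^ 2 - 2 * (inner ℝ b u / ‖b‖ ^ 2 * inner ℝ u b) +
        (inner ℝ b u / ‖b‖ ^ 2) ^ 2 * ‖b‖ ^ 2 = ‖u‖ ^ 2 - (inner ℝ b u) ^ 2 / ‖b‖ ^ 2 := by
      have e0 : inner ℝ u b = inner ℝ b u := real_inner_comm _ _
      rw [e0]
      field_simp
      ring
    rw [e]
    have : 0 ≤ (inner ℝ b u) ^ 2 / ‖b‖ ^ 2 := by positivity
    linarith
  exact le_of_sq_le_sq h (norm_nonneg _)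

theorem pr_sub_le (b u : E3) (hb : b ≠ 0) : ‖pr b u - u‖ = |inner ℝ b u| / ‖b‖ := by
  have hpos := norm_pos_iff.2 hb
  unfold pr
  rw [sub_sub_cancel_left, norm_neg, norm_smul, Real.norm_eq_abs, abs_div, abs_pow, abs_norm]
  field_simp

end Piv

open Piv in
theorem prf_StPiv (hN : StPar) (hS : StSpan) (hB : StBounds) : StPiv := by
  intro D hD t ht
  obtain ⟨-, -, -, -, -, ha, -, hT, -, -, -, -, -, -, -, -, -, -, -, -, -, -, -, hI⟩ := hN D hD
  have hτ : 0 ≤ t - D.t0 := (hI t ht).1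
  obtain ⟨b1, b2, -, -, -, -, -, -, b9, b10, -, -, b13⟩ := hB D hD t ht
  set τ : ℝ := t - D.t0 with hτdef
  have ht0 : D.t0 ∈ D.I := ⟨le_refl _, by linarith⟩
  have hBB : ‖D.B D.t0‖ ≤ D.Lam := hD.Bb D.t0 ht0
  have hL : 1 ≤ D.Lam := hD.L1
  have hane : D.a ≠ 0 := ha.ne'
  have hv0 : D.v D.t0 = D.a • D.b1 D.t0 := by
    rw [hD.b1_init, smul_smul, mul_inv_cancel₀ hane, one_smul]
  set vh : E3 := D.b1 D.t0 with hvh
  set kh : E3 := D.k D.t0 with hkh
  set b : E3 := D.b1 t with hb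
  set B0 : Op := D.B D.t0 with hB0
  have hvh1 : ‖vh‖ = 1 := by
    have h := hD.va
    rw [hv0, norm_smul, Real.norm_eq_abs, abs_of_pos ha] at h
    exact mul_left_cancel₀ hane (by rw [h, mul_one])
  have hvhne : vh ≠ 0 := by
    intro h
    rw [h, norm_zero] at hvh1
    exact zero_ne_one hvh1
  have hkhne : kh ≠ 0 := by
    intro h
    have := hD.k1
    rw [← hkh, h, norm_zero] at this
    exact zero_ne_one this
  have hene : D.e ≠ 0 := by
    intro h
    have := hD.e1
    rw [h, norm_zero] at this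
    exact zero_ne_one this
  have hbne : b ≠ 0 := by
    intro h
    rw [h, norm_zero] at b1
    linarith
  have o1 : inner ℝ vh kh = 0 := by
    have h := hD.wave.orth D.t0
    rw [hv0, real_inner_smul_right] at h
    rcases mul_eq_zero.1 h with h | h
    · exact absurd h hane
    · rw [real_inner_comm]
      exact h
  have o2 : inner ℝ vh D.e = 0 := by
    have h := hD.ev
    rw [hv0, real_inner_smul_right] at h
    rcases mul_eq_zero.1 h with h | h
    · exact absurd h hane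
    · rw [real_inner_comm]
      exact h
  have o3 : inner ℝ kh D.e = 0 := by
    rw [real_inner_comm]
    exact hD.ek
  have k1 : inner ℝ kh (B0 vh) = D.kap := by
    have h := hD.kapeq
    rw [hv0, map_smul, real_inner_smul_right] at h
    exact mul_left_cancel₀ hane h
  have k2 : inner ℝ D.e (B0 vh) = D.kap * D.c := by
    have h := hD.ceq
    rw [hv0, map_smul, real_inner_smul_right, mul_assoc D.a] at h
    exact mul_left_cancel₀ hane h
  set β : ℝ := inner ℝ vh (B0 vh) with hβ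
  have hspan : B0 vh = β • vh + D.kap • kh + (D.kap * D.c) • D.e := by
    have h := hS vh kh D.e (B0 vh) hvhne hkhne hene o1 o2 o3
    rw [hvh1, hD.k1, hD.e1, k1, k2] at h
    simpa using h
  have hB0v : B0 (D.v D.t0) = D.a • B0 vh := by
    rw [hv0, map_smul]
  have hβL : |β| ≤ D.Lam := by
    have h1 := abs_real_inner_le_norm vh (B0 vh)
    have h2 := B0.le_opNorm vh
    rw [hvh1, mul_one] at h2
    rw [hvh1, one_mul] at h1
    exact h1.trans (h2.trans hBB)
  have hckL : |D.kap * D.c| ≤ D.Lam := by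
    rw [← k2]
    have h1 := abs_real_inner_le_norm D.e (B0 vh)
    have h2 := B0.le_opNorm vh
    rw [hvh1, mul_one] at h2
    rw [hD.e1, one_mul] at h1
    exact h1.trans (h2.trans hBB)
  -- the remainder
  set R : E3 := D.v t - D.a • b + (2 * D.a * τ * β) • vh + (2 * D.a * D.c * D.kap * τ) • D.e
    with hR
  have hRn : ‖R‖ ≤ 44 * D.a * D.Lam ^ 2 * τ ^ 2 := by
    have e1 : R = (D.v t - D.v D.t0 - τ • (-(B0 (D.v D.t0)) + (2 * D.a * D.kap) • kh)) -
        D.a • (b - vh - τ • B0 vh) := by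
      rw [hR, hB0v, hspan, hv0]
      module
    rw [e1]
    refine (norm_sub_le _ _).trans ?_
    rw [norm_smul, Real.norm_eq_abs, abs_of_pos ha]
    have h1 : D.a * ‖b - vh - τ • B0 vh‖ ≤ D.a * (4 * D.Lam ^ 2 * τ ^ 2) :=
      mul_le_mul_of_nonneg_left b10 ha.le
    linarith
  have hv : D.v t = D.a • b + (R + ((-(2 * D.a * τ * β)) • vh +
      (-(2 * D.a * D.c * D.kap * τ)) • D.e)) := by
    rw [hR]
    module
  clear_value R
  have key : D.v t - (inner ℝ b (D.v t) / D.g t) • b + (2 * D.a * D.c * D.kap * τ) • D.e =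
      pr b R + ((-(2 * D.a * τ * β)) • pr b (vh - b) +
        (-(2 * D.a * D.c * D.kap * τ)) • (pr b D.e - D.e)) := by
    have h1 : D.v t - (inner ℝ b (D.v t) / D.g t) • b = pr b (D.v t) := rfl
    have h2 : pr b (vh - b) = pr b vh := by
      have h := pr_add b (vh - b) b
      rw [sub_add_cancel, pr_self b hbne, add_zero] at h
      exact h.symm
    rw [h1, h2]
    conv_lhs => rw [hv]
    rw [pr_add, pr_smul, pr_self b hbne, smul_zero, zero_add, pr_add, pr_add, pr_smul, pr_smul]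
    module
  have n1 : ‖pr b R‖ ≤ 44 * D.a * D.Lam ^ 2 * τ ^ 2 := (pr_le b R hbne).trans hRn
  have n2 : ‖(-(2 * D.a * τ * β)) • pr b (vh - b)‖ ≤ 4 * D.a * D.Lam ^ 2 * τ ^ 2 := by
    rw [norm_smul, Real.norm_eq_abs, abs_neg, abs_mul, abs_of_nonneg (by positivity :
      0 ≤ 2 * D.a * τ)]
    have h1 : ‖pr b (vh - b)‖ ≤ 2 * D.Lam * τ := by
      refine (pr_le b _ hbne).trans ?_
      rw [norm_sub_rev]
      exact b9
    calc 2 * D.a * τ * |β| * ‖pr b (vh - b)‖ ≤ 2 * D.a * τ * D.Lam * (2 * D.Lam * τ) := by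
          apply mul_le_mul _ h1 (norm_nonneg _) (by positivity)
          exact mul_le_mul_of_nonneg_left hβL (by positivity)
      _ = 4 * D.a * D.Lam ^ 2 * τ ^ 2 := by ring
  have n3 : ‖(-(2 * D.a * D.c * D.kap * τ)) • (pr b D.e - D.e)‖ ≤
      8 * D.a * D.Lam ^ 2 * τ ^ 2 := by
    rw [norm_smul, Real.norm_eq_abs, abs_neg]
    have h1 : ‖pr b D.e - D.e‖ ≤ 4 * D.Lam * τ := by
      rw [pr_sub_le b D.e hbne]
      have h2 : |inner ℝ b D.e| ≤ 2 * D.Lam * τ := by
        have h3 : inner ℝ b D.e = inner ℝ (b - vh) D.e := by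
          rw [inner_sub_left, o2, sub_zero]
        rw [h3]
        refine (abs_real_inner_le_norm _ _).trans ?_
        rw [hD.e1, mul_one]
        exact b9
      rw [div_le_iff₀ (by linarith)]
      have : 0 ≤ D.Lam * τ := by positivity
      nlinarith
    have h4 : |2 * D.a * D.c * D.kap * τ| ≤ 2 * D.a * τ * D.Lam := by
      have e2 : 2 * D.a * D.c * D.kap * τ = 2 * D.a * τ * (D.kap * D.c) := by ring
      rw [e2, abs_mul, abs_of_nonneg (by positivity : 0 ≤ 2 * D.a * τ)]
      exact mul_le_mul_of_nonneg_left hckL (by positivity)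
    calc |2 * D.a * D.c * D.kap * τ| * ‖pr b D.e - D.e‖ ≤
        2 * D.a * τ * D.Lam * (4 * D.Lam * τ) :=
          mul_le_mul h4 h1 (norm_nonneg _) (by positivity)
      _ = 8 * D.a * D.Lam ^ 2 * τ ^ 2 := by ring
  rw [key]
  refine (norm_add_le _ _).trans ?_
  have n4 := norm_add_le ((-(2 * D.a * τ * β)) • pr b (vh - b))
    ((-(2 * D.a * D.c * D.kap * τ)) • (pr b D.e - D.e))
  have hpos : 0 ≤ D.a * D.Lam ^ 2 * τ ^ 2 := by positivity
  linarith

end Pool.Agent.Work.MP_b0497c_an.Forced.Ode
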