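import Pool.Agent.Work.MP_b0497c_an.Forced.Ode.StmtsB

set_option autoImplicit false

/-!
# ODE module, item S2: one step of the chain
-/

open scoped ContDiff
open Set ContinuousLinearMap Filter Topology

namespace Pool.Agent.Work.MP_b0497c_an.Forced.Ode

namespace Step

theorem ro_smul (α β : ℝ) (v k : E3) : ro (α • v) (β • k) = (α * β) • ro v k := by
  ext1 x
  simp only [ro, ContinuousLinearMap.smulRight_apply, innerSL_apply_apply, smul_apply,
    real_inner_smul_left, smul_smul]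
  congr 1
  ring

theorem ro_half (v k : E3) : ro ((1 / 2 : ℝ) • v) ((2 : ℝ) • k) = ro v k := by
  rw [ro_smul]
  norm_num

/-- The Kelvin term does not depend on the length of the wave vector. -/
theorem kelvin_two (q X : E3) :
    (2 * inner ℝ ((2 : ℝ) • q) X / ‖(2 : ℝ) • q‖ ^ 2) • ((2 : ℝ) • q) =
      (2 * inner ℝ q X / ‖q‖ ^ 2) • q := by
  rw [smul_smul, real_inner_smul_left, norm_smul]
  congr 1
  by_cases hq : ‖q‖ = 0
  · rw [hq]
    simp
  · rw [Real.norm_eq_abs, abs_of_pos (by norm_num : (0 : ℝ) < 2)]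
    field_simp
    try ring

theorem norm_two (q : E3) : ‖(2 : ℝ) • q‖ = 2 * ‖q‖ := by
  rw [norm_smul, Real.norm_eq_abs, abs_of_pos (by norm_num : (0 : ℝ) < 2)]

theorem norm_half_le (q : E3) : ‖(1 / 2 : ℝ) • q‖ ≤ ‖q‖ := by
  rw [norm_smul, Real.norm_eq_abs, abs_of_pos (by norm_num : (0 : ℝ) < 1 / 2)]
  have h2 := norm_nonneg q
  linarith

theorem tilt (c L c' X : ℝ) (hL : 0 < L) (hc : 0 < c) (hX : X = Real.sqrt c * L ^ 12 + 1)
    (h1 : c / (2 * (X - 1) ^ 2) ≤ c') (h2 : c' ≤ 3 * c / (2 * (X - 1) ^ 2)) :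
    1 / 2 ≤ c' * (L ^ 2) ^ 12 ∧ c' * (L ^ 2) ^ 12 ≤ 3 / 2 := by
  have hXm : (X - 1) ^ 2 = c * L ^ 24 := by
    rw [hX]
    have h1 : Real.sqrt c * Real.sqrt c = c := Real.mul_self_sqrt hc.le
    have h2 : (Real.sqrt c * L ^ 12 + 1 - 1) ^ 2 =
        (Real.sqrt c * Real.sqrt c) * L ^ 24 := by ring
    rw [h2, h1]
  have hL24 : (0 : ℝ) < L ^ 24 := by positivity
  have hpow : (L ^ 2) ^ 12 = L ^ 24 := by ring
  rw [hXm] at h1 h2
  rw [hpow]
  constructor
  · have h3 := mul_le_mul_of_nonneg_right h1 hL24.le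
    have h4 : c / (2 * (c * L ^ 24)) * L ^ 24 = 1 / 2 := by field_simp
    rw [h4] at h3
    exact h3
  · have h3 := mul_le_mul_of_nonneg_right h2 hL24.le
    have h4 : 3 * c / (2 * (c * L ^ 24)) * L ^ 24 = 3 / 2 := by field_simp
    rw [h4] at h3
    exact h3

theorem kapb (L kap kap' c : ℝ) (h : |kap' - kap| ≤ c) (hc : c ≤ 1 / L - 1 / L ^ 2)
    (h1 : 1 / 2 + 1 / L ≤ kap) (h2 : kap ≤ 2 - 1 / L) :
    1 / 2 + 1 / L ^ 2 ≤ kap' ∧ kap' ≤ 2 - 1 / L ^ 2 := by
  have h3 := abs_le.mp h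
  constructor
  · linarith [h3.1]
  · linarith [h3.2]

theorem kapb' (L kap' : ℝ) (h : 1 / 2 + 1 / L ^ 2 ≤ kap' ∧ kap' ≤ 2 - 1 / L ^ 2) :
    1 / 2 ≤ kap' ∧ kap' ≤ 2 := by
  have h0 : 0 ≤ 1 / L ^ 2 := by positivity
  constructor
  · linarith [h.1]
  · linarith [h.2]

theorem sub (t0 tf X om L T' t : ℝ) (hom : 0 < om) (hX : 1 ≤ X) (homle : om ≤ Real.exp L / 2)
    (htf : tf = t0 + (X - 1) / om) (hT : T' ≤ Real.exp (-L)) (ht1 : tf ≤ t) (ht2 : t ≤ tf + T') :
    t0 ≤ t ∧ t ≤ t0 + X / om := by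
  have h1 : t0 ≤ tf := by
    have h : 0 ≤ (X - 1) / om := div_nonneg (by linarith) hom.le
    linarith
  have h2 : 2 * Real.exp (-L) ≤ 1 / om := by
    rw [le_div_iff₀ hom]
    have h3 : 2 * Real.exp (-L) * om ≤ 2 * Real.exp (-L) * (Real.exp L / 2) :=
      mul_le_mul_of_nonneg_left homle (by positivity)
    have h4 : 2 * Real.exp (-L) * (Real.exp L / 2) = 1 := by
      have h5 : Real.exp (-L) * Real.exp L = 1 := by
        rw [← Real.exp_add]
        simp
      linarith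
    linarith
  have h6 : (X - 1) / om + 1 / om = X / om := by
    rw [← add_div]
    congr 1
    ring
  have h7 : 0 < Real.exp (-L) := Real.exp_pos _
  constructor
  · linarith
  · linarith

theorem boundB (L m : ℝ) (hL : 10 ≤ L) (h : m ≤ 2 * Real.exp L) :
    m ≤ Real.exp (2 * Real.sqrt (L ^ 2)) := by
  rw [Real.sqrt_sq (by linarith : (0 : ℝ) ≤ L)]
  have h2 : Real.exp (2 * L) = Real.exp L * Real.exp L := by
    rw [← Real.exp_add]
    congr 1
    ring
  have h3 := Real.add_one_le_exp L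
  rw [h2]
  nlinarith [Real.exp_pos L]

theorem boundD (L m : ℝ) (hL : 10 ≤ L) (h : m ≤ 4 * Real.exp L ^ 2) :
    m ≤ Real.exp (2 * Real.sqrt (L ^ 2)) ^ 2 := by
  rw [Real.sqrt_sq (by linarith : (0 : ℝ) ≤ L)]
  have h2 : Real.exp (2 * L) = Real.exp L * Real.exp L := by
    rw [← Real.exp_add]
    congr 1
    ring
  have h3 := Real.add_one_le_exp L
  rw [h2]
  have h4 : 4 ≤ Real.exp L * Real.exp L := by nlinarith
  have h5 : 0 ≤ Real.exp L * Real.exp L := by positivity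
  nlinarith

/-- The next data. -/
noncomputable def next (D : EraD) (L : ℝ) (w0 q0 : ℝ → E3) (e' : E3) (kap' c' : ℝ)
    (b1 b2 : ℝ → E3) : EraD where
  B := D.M
  v := fun t => ‖q0 D.tf‖ • w0 t
  k := fun t => ‖q0 D.tf‖⁻¹ • q0 t
  b1 := b1
  b2 := b2
  e := e'
  t0 := D.tf
  a := Real.exp (L ^ 2)
  kap := kap'
  c := c'
  Lam := Real.exp (2 * Real.sqrt (L ^ 2))
  X := Real.sqrt c' * (L ^ 2) ^ 12 + 1

end Step

theorem prf_StStep (hEra : StEra) (hL : StLinear) (hSc : StScale) (hN : StPar)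
    (hS : StStageNum) : StStep := by
  obtain ⟨Lst, hLst, hS⟩ := hS
  refine ⟨Lst, hLst, fun L hLL D hD => ?_⟩
  have hok := hD.ok
  have hL10 : (10 : ℝ) ≤ L := le_trans hLst hLL
  have hL0 : (0 : ℝ) < L := lt_of_lt_of_le (by norm_num) hL10
  obtain ⟨w0, q0, e', α, kap', c', hflow, hwave, hwq, hkap, hc1, hc2, hinner, he1, hew, heq, heM,
    hMb, hdef, hqb, hvort, hαpos, hαmono, hαsmall, hdom⟩ := hEra D hok (Real.exp (L ^ 2))
      (Real.exp_pos _)
  have hn := hS L hLL D.c D.kap hD.c_lo hD.c_hi hok.kap1 hok.kap2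
  have htilt := Step.tilt D.c L c' D.X hL0 hn.1 hD.X_eq hc1 hc2
  have hkb := Step.kapb L D.kap kap' D.c hkap hn.2.2.2.2.2.2.2.2.2.2.2 hD.kap_lo hD.kap_hi
  have hkb' := Step.kapb' L kap' hkb
  have hLL2 : Lst ≤ L ^ 2 := by
    have h1 : L ≤ L ^ 2 := by
      have h : 1 * L ≤ L * L := mul_le_mul_of_nonneg_right (le_trans (by norm_num) hL10) hL0.le
      rw [one_mul, ← sq] at h
      exact h
    exact le_trans hLL h1
  have hm := hS (L ^ 2) hLL2 c' kap' htilt.1 htilt.2 hkb'.1 hkb'.2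
  -- the Lagrangian vectors
  have hMs : ContDiff ℝ ∞ D.M := hflow.smooth
  have hqn : ‖q0 D.tf‖ ≠ 0 := norm_ne_zero_iff.mpr (hwave.q_ne D.tf)
  have hvw : Wave D.M (fun t => ‖q0 D.tf‖ • w0 t) (fun t => ‖q0 D.tf‖⁻¹ • q0 t) :=
    hSc D.M w0 q0 _ _ hwave (inv_ne_zero hqn)
  obtain ⟨b1, -, hb1i, hb1d⟩ := hL E3 D.M (fun _ => 0) hMs contDiff_const D.tf
    ((Real.exp (L ^ 2))⁻¹ • (‖q0 D.tf‖ • w0 D.tf))
  obtain ⟨b2, -, hb2i, hb2d⟩ := hL E3 D.M (fun t => ‖q0 D.tf‖ • w0 t) hMs hvw.w_smooth D.tf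
    (‖q0 D.tf‖⁻¹ • q0 D.tf)
  -- the new time interval
  have hom : 0 < D.om := (hN D hok).2.2.2.2.2.2.1
  have homle : D.om ≤ Real.exp L / 2 := by
    have h1 : D.om = D.c * Real.sqrt (Real.exp L * D.kap) := by
      rw [EraD.om, hD.a_eq]
    rw [h1]
    exact hn.2.2.2.2.2.1
  have hI : ∀ t ∈ (Step.next D L w0 q0 e' kap' c' b1 b2).I, t ∈ D.I := fun t ht =>
    Step.sub D.t0 D.tf D.X D.om L _ t hom (le_trans (by norm_num) hok.X1) homle rfl
      (le_trans hm.2.2.2.2.2.2.2.1 hn.2.2.2.2.2.2.2.2.2.1) ht.1 ht.2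
  have hDM : ∀ t, (Step.next D L w0 q0 e' kap' c' b1 b2).M t = D.M t + ro (w0 t) (q0 t) := by
    intro t
    show D.M t + ro (‖q0 D.tf‖ • w0 t) (‖q0 D.tf‖⁻¹ • q0 t) = _
    rw [Step.ro_smul, mul_inv_cancel₀ hqn, one_smul]
  have hok' : (Step.next D L w0 q0 e' kap' c' b1 b2).Ok :=
    { flow := hflow
      wave := hvw
      b1_deriv := fun t => by
        have h := hb1d t
        rw [add_zero] at h
        exact h
      b2_deriv := fun t => hb2d t
      b1_init := hb1i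
      b2_init := hb2i
      k1 := by
        show ‖‖q0 D.tf‖⁻¹ • q0 D.tf‖ = 1
        rw [norm_smul, norm_inv, norm_norm, inv_mul_cancel₀ hqn]
      va := by
        show ‖‖q0 D.tf‖ • w0 D.tf‖ = Real.exp (L ^ 2)
        rw [norm_smul, norm_norm, mul_comm]
        exact hwq
      e1 := he1
      ev := by
        show inner ℝ e' (‖q0 D.tf‖ • w0 D.tf) = 0
        rw [real_inner_smul_right, hew, mul_zero]
      ek := by
        show inner ℝ e' (‖q0 D.tf‖⁻¹ • q0 D.tf) = 0
        rw [real_inner_smul_right, heq, mul_zero]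
      kapeq := by
        show inner ℝ (‖q0 D.tf‖⁻¹ • q0 D.tf) (D.M D.tf (‖q0 D.tf‖ • w0 D.tf)) =
          Real.exp (L ^ 2) * kap'
        rw [map_smul, real_inner_smul_left, real_inner_smul_right, hinner, ← mul_assoc,
          inv_mul_cancel₀ hqn, one_mul]
      ceq := by
        show inner ℝ e' (D.M D.tf (‖q0 D.tf‖ • w0 D.tf)) = Real.exp (L ^ 2) * kap' * c'
        rw [map_smul, real_inner_smul_right, heM, ← hwq]
        ring
      kap1 := hkb'.1
      kap2 := hkb'.2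
      c0 := hm.1
      c1 := hm.2.1
      X1 := hm.2.2.1
      cX := hm.2.2.2.1
      L1 := by
        show 1 ≤ Real.exp (2 * Real.sqrt (L ^ 2))
        exact Real.one_le_exp (by positivity)
      Bb := fun t ht => by
        have h1 := (hMb t (hI t ht)).1
        rw [hD.a_eq] at h1
        exact Step.boundB L _ hL10 h1
      Bd := fun t ht => by
        have h1 := (hMb t (hI t ht)).2
        rw [hD.a_eq] at h1
        exact Step.boundD L _ hL10 h1
      big := hm.2.2.2.2.1 }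
  refine ⟨Step.next D L w0 q0 e' kap' c' b1 b2, fun t => (1 / 2 : ℝ) • w0 t,
    fun t => (2 : ℝ) • q0 t, α, ?_, ?_, rfl, ?_⟩
  · exact
      { ok := hok'
        a_eq := rfl
        c_lo := htilt.1
        c_hi := htilt.2
        X_eq := rfl
        Lam_eq := rfl
        kap_lo := hkb.1
        kap_hi := hkb.2 }
  · exact
      { flow := hflow
        wave := hSc D.M w0 q0 (1 / 2) 2 hwave (by norm_num)
        Mb := fun t ht => (hMb t ht).1
        defo := hdef
        q_lo := fun t ht => by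
          have h := mul_le_mul_of_nonneg_left (hqb t ht).1 (by norm_num : (0 : ℝ) ≤ 2)
          rw [Step.norm_two]
          have h2 : (2 : ℝ) * (1 / 2) = 1 := by norm_num
          rw [h2] at h
          exact h
        q_hi := fun t ht => by
          rw [Step.norm_two]
          exact mul_le_mul_of_nonneg_left (hqb t ht).2 (by norm_num : (0 : ℝ) ≤ 2)
        vort := fun t ht s A hA => by
          rw [Step.ro_half] at hA
          exact hvort t ht s A hA
        α_pos := fun t ht => (hαpos t ht).1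
        w_le := fun t ht => le_trans (Step.norm_half_le _) (hαpos t ht).2.1
        α_le := fun t ht => (hαpos t ht).2.2
        α_mono := hαmono
        α_small := hαsmall
        dom := fun w1 r t1 ρ ht1 hρ hw1 h => by
          refine hdom w1 r t1 ρ ht1 hρ hw1 fun t ht => ?_
          obtain ⟨h1, h2, h3⟩ := h t ht
          refine ⟨?_, h2, ?_⟩
          · rw [real_inner_smul_left] at h1
            exact (mul_eq_zero.mp h1).resolve_left (by norm_num)
          · rw [Step.kelvin_two] at h3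
            exact h3 }
  · intro t
    rw [hDM t]
    show _ = D.M t + ro ((1 / 2 : ℝ) • w0 t) ((2 : ℝ) • q0 t)
    rw [Step.ro_half]

end Pool.Agent.Work.MP_b0497c_an.Forced.Ode
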