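import Pool.Agent.Work.MP_b0497c_an.Forced.Ode.StmtsB
import Pool.Agent.Work.MP_b0497c_an.Forced.Casc

set_option autoImplicit false

/-!
# ODE module of the forced Euler blow-up: conversion to matrices and numbers (statements)
-/

open scoped ContDiff Matrix
open Set ContinuousLinearMap Filter Topology

namespace Pool.Agent.Work.MP_b0497c_an.Forced.Ode

/-- coordinates of a vector -/
def toV (x : E3) : W.V3 := fun j => x j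

/-- matrix of a linear map -/
noncomputable def toMat (A : Op) : Matrix (Fin 3) (Fin 3) ℝ :=
  Matrix.of fun j k => (A (EuclideanSpace.single k 1)) j

/-- CV1: algebra of the conversion. -/
def StConv1 : Prop :=
  (∀ (A : Op) (x : E3), toMat A *ᵥ toV x = toV (A x)) ∧
  (∀ A B : Op, toMat (A ∘L B) = toMat A * toMat B) ∧
  toMat (ContinuousLinearMap.id ℝ E3) = 1 ∧
  (∀ A : Op, toMat (adjoint A) = (toMat A)ᵀ) ∧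
  (∀ A B : Op, toMat (A + B) = toMat A + toMat B) ∧
  (∀ (s : ℝ) (A : Op), toMat (s • A) = s • toMat A) ∧
  (∀ v k : E3, toMat (ro v k) = Matrix.vecMulVec (toV v) (toV k)) ∧
  (∀ A : Op, (toMat A).trace = LinearMap.trace ℝ E3 A.toLinearMap) ∧
  (∀ x y : E3, toV x ⬝ᵥ toV y = inner ℝ x y) ∧
  (∀ x : E3, ‖toV x‖ ≤ ‖x‖ ∧ ‖x‖ ≤ 2 * ‖toV x‖) ∧
  (∀ x y : E3, toV (x + y) = toV x + toV y) ∧ (∀ (s : ℝ) (x : E3), toV (s • x) = s • toV x) ∧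
  (∀ x : W.V3, ∃ y : E3, toV y = x) ∧ (∀ x y : E3, toV x = toV y → x = y) ∧
  ∀ A : Op, ∃ j, ‖A - adjoint A‖ ≤ 2 * |om (toMat A) j|

/-- CV2: analysis of the conversion. -/
def StConv2 : Prop :=
  (∀ (x : ℝ → E3) (x' : E3) (t : ℝ), HasDerivAt x x' t ↔ HasDerivAt (fun s => toV (x s)) (toV x') t) ∧
  (∀ x : ℝ → E3, ContDiff ℝ ∞ x ↔ ContDiff ℝ ∞ (fun s => toV (x s))) ∧
  (∀ (A : ℝ → Op) (A' : Op) (t : ℝ), HasDerivAt A A' t →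
    ∀ j k, HasDerivAt (fun s => toMat (A s) j k) (toMat A' j k) t) ∧
  (∀ (Lam : ℕ → ℝ) (I : ℕ → Set ℝ) (mu : ℕ → ℝ → ℝ) (x : ℕ → ℝ → E3),
    (∀ k, ∀ t ∈ I k, 0 ≤ mu k t) → (∀ N, ModV Lam I mu N x) →
    ∀ j, W.Mod Lam I mu (fun k t => toV (x k t) j)) ∧
  (∀ (Lam : ℕ → ℝ) (I : ℕ → Set ℝ) (mu : ℕ → ℝ → ℝ) (A : ℕ → ℝ → Op),
    (∀ k, ∀ t ∈ I k, 0 ≤ mu k t) → (∀ N, ModV Lam I mu N A) →
    ∀ j l, W.Mod Lam I mu (fun k t => toMat (A k t) j l))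

/-- CN: the numbers of the cascade, `Lam = exp L`, `Nf = exp (2 L²)`, `a = exp (L² + L)`,
`b = exp (- L³ / 10)`, `rho = exp (-5 L)`, `R = exp (-3 L)`, `del = exp (- L)`,
`L = L0 ^ (2 ^ k)`. -/
def StCascNum : Prop := ∃ Lst : ℝ, 10 ≤ Lst ∧ ∀ L0 ≥ Lst, ∀ L : ℕ → ℝ,
  (∀ k, L k = L0 ^ 2 ^ k) →
  (∀ k, 10 ≤ L k ∧ L (k + 1) = L k ^ 2 ∧ (k : ℝ) ≤ L k ∧
    2 ≤ Real.exp (L k) ∧
    1 + Real.exp (L k ^ 2 + L k) ≤ Real.exp (2 * L k ^ 2) * Real.exp (-(5 * L k)) ∧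
    Real.exp (-(5 * L k)) ≤ 1 ∧ (Real.exp (-(5 * L k)))⁻¹ ≤ Real.exp (L k) ^ 5 ∧
    Real.exp (-(3 * L k)) ≤ 1 / 4 ∧ (Real.exp (-(L k)))⁻¹ ≤ Real.exp (L k) ^ 1 ∧
    Real.exp (-(3 * L (k + 1))) ≤ Real.exp (-(3 * L k)) ∧
    2 * Real.exp (L k) * Real.exp (-(5 * L k)) ≤ Real.exp (-(3 * L k)) ∧
    2 * Real.exp (L k) * Real.exp (-(3 * L (k + 1))) < Real.exp (-(5 * L k)) / 2 ∧
    Real.exp (2 * L k ^ 2) * (2 * Real.exp (L k) * (2 * Real.exp (-(3 * L (k + 1))))) ≤ 1 / 12 ∧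
    2 * (k : ℝ) ≤ Real.sqrt (Real.sqrt (Real.exp (L k)))) ∧
  ∀ m : ℕ, ∃ J : ℕ, ∀ n : ℕ, ∀ᶠ k in atTop,
    Real.exp (L k) ^ n * ((1 + Real.exp (L k ^ 2 + L k)) ^ 2 *
        ((Real.exp (2 * L k ^ 2) * Real.exp (-(5 * L k))) ^ 2)⁻¹
      + (Real.exp (2 * L k ^ 2) * Real.exp (-(5 * L k))) ^ m * (Real.exp (-(L k ^ 3 / 10))
        + ((1 + Real.exp (L k ^ 2 + L k)) /
          (Real.exp (2 * L k ^ 2) * Real.exp (-(5 * L k)))) ^ J)) ≤ (1 / 2) ^ k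

end Pool.Agent.Work.MP_b0497c_an.Forced.Ode
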