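import Pool.Agent.Work.MP_b0497c_an.Forced.Ode.Stmts

set_option autoImplicit false

/-!
# ODE module of the forced Euler blow-up: existence of waves
-/

open scoped ContDiff
open Set ContinuousLinearMap

namespace Pool.Agent.Work.MP_b0497c_an.Forced.Ode

namespace WaveEx

/-- The adjoint as a real linear map. -/
noncomputable def adjL : Op →L[ℝ] Op :=
  LinearMap.mkContinuous
    { toFun := fun A => adjoint A
      map_add' := fun A B => map_add _ A B
      map_smul' := fun r A => by simp } 1 (by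
      intro A
      simp)

theorem adjL_apply (A : Op) : adjL A = adjoint A := rfl

theorem contDiff_adj (M : ℝ → Op) (hM : ContDiff ℝ ∞ M) :
    ContDiff ℝ ∞ (fun t => -(adjoint (M t))) := (adjL.contDiff.comp hM).neg

/-- The generator of the amplitude equation. -/
noncomputable def gen (M : ℝ → Op) (q : ℝ → E3) (t : ℝ) : Op :=
  -(M t) + (2 / ‖q t‖ ^ 2) • ro (q t) (adjoint (M t) (q t))

theorem gen_apply (M : ℝ → Op) (q : ℝ → E3) (t : ℝ) (w : E3) :
    gen M q t w = -(M t w) + (2 * inner ℝ (q t) (M t w) / ‖q t‖ ^ 2) • q t := by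
  show -(M t w) + (2 / ‖q t‖ ^ 2) • ((inner ℝ (adjoint (M t) (q t)) w : ℝ) • q t) = _
  rw [adjoint_inner_left, smul_smul]
  congr 2
  ring

theorem contDiff_gen (M : ℝ → Op) (hM : ContDiff ℝ ∞ M) (q : ℝ → E3) (hq : ContDiff ℝ ∞ q)
    (h0 : ∀ t, q t ≠ 0) : ContDiff ℝ ∞ (gen M q) := by
  rw [contDiff_clm_apply_iff]
  intro y
  have h1 : (fun t => gen M q t y) =
      fun t => -(M t y) + (2 * inner ℝ (q t) (M t y) / ‖q t‖ ^ 2) • q t := by
    funext t
    exact gen_apply M q t y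
  rw [h1]
  have h2 : ContDiff ℝ ∞ (fun t => M t y) := hM.clm_apply contDiff_const
  have h3 : ContDiff ℝ ∞ (fun t => (inner ℝ (q t) (M t y) : ℝ)) := hq.inner ℝ h2
  have h4 : ContDiff ℝ ∞ (fun t => ‖q t‖ ^ 2) := hq.norm_sq ℝ
  have h5 : ∀ t, ‖q t‖ ^ 2 ≠ 0 := fun t => pow_ne_zero 2 (norm_ne_zero_iff.mpr (h0 t))
  exact h2.neg.add (((contDiff_const.mul h3).div h4 h5).smul hq)

end WaveEx

theorem prf_StWave (hL : StLinear) (hU : StUnique) : StWave := by
  intro M hM t0 w0 q0 hq0 h00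
  have hA := WaveEx.contDiff_adj M hM
  obtain ⟨q, hq, hqt, hqd⟩ := hL E3 (fun t => -(adjoint (M t))) (fun _ => 0) hA contDiff_const
    t0 q0
  have hqd' : ∀ t, HasDerivAt q (-(adjoint (M t) (q t))) t := fun t => by
    have := hqd t
    rwa [add_zero] at this
  have hne : ∀ t, q t ≠ 0 := by
    intro t1 h1
    have h2 : q = fun _ => 0 := hU E3 (fun t => -(adjoint (M t))) (fun _ => 0) hA.continuous t1 q
      (fun _ => 0) h1 hqd (fun t => by
        have h3 := hasDerivAt_const t (0 : E3)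
        have h4 : (-(adjoint (M t))) (0 : E3) + 0 = 0 := by simp
        rw [h4]
        exact h3)
    apply hq0
    rw [← hqt, h2]
  obtain ⟨w, hw, hwt, hwd⟩ := hL E3 (WaveEx.gen M q) (fun _ => 0)
    (WaveEx.contDiff_gen M hM q hq hne) contDiff_const t0 w0
  have hwd' : ∀ t, HasDerivAt w
      (-(M t (w t)) + (2 * inner ℝ (q t) (M t (w t)) / ‖q t‖ ^ 2) • q t) t := fun t => by
    have := hwd t
    rwa [add_zero, WaveEx.gen_apply] at this
  refine ⟨w, q, ⟨hw, hq, hqd', hwd', ?_, hne⟩, hwt, hqt⟩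
  have hd : ∀ t, HasDerivAt (fun t => (inner ℝ (q t) (w t) : ℝ)) 0 t := by
    intro t
    have h1 := (hqd' t).inner ℝ (hwd' t)
    have h2 : inner ℝ (q t) (-(M t (w t)) + (2 * inner ℝ (q t) (M t (w t)) / ‖q t‖ ^ 2) • q t) +
        inner ℝ (-(adjoint (M t) (q t))) (w t) = (0 : ℝ) := by
      have hn : ‖q t‖ ^ 2 ≠ 0 := pow_ne_zero 2 (norm_ne_zero_iff.mpr (hne t))
      rw [inner_add_right, inner_neg_right, inner_neg_left, adjoint_inner_left, inner_smul_right,
        real_inner_self_eq_norm_sq, div_mul_cancel₀ _ hn]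
      ring
    rwa [h2] at h1
  intro t
  have h1 := is_const_of_deriv_eq_zero (f := fun t => (inner ℝ (q t) (w t) : ℝ))
    (fun t => (hd t).differentiableAt) (fun t => (hd t).deriv) t t0
  have h2 : (inner ℝ (q t) (w t) : ℝ) = inner ℝ (q t0) (w t0) := h1
  rw [h2, hqt, hwt, h00]

end Pool.Agent.Work.MP_b0497c_an.Forced.Ode
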