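import Pool.Agent.Work.MP_b0497c_an.Forced.Ode.Stmts

set_option autoImplicit false

open scoped ContDiff
open Set ContinuousLinearMap

namespace Pool.Agent.Work.MP_b0497c_an.Forced.Ode

namespace WaveNext

/-- The inner product as a continuous bilinear map. -/
noncomputable def ip : E3 →L[ℝ] E3 →L[ℝ] ℝ :=
  (isBoundedBilinearMap_inner (𝕜 := ℝ) (E := E3)).toContinuousLinearMap

theorem ip_apply (k x : E3) : ip k x = inner ℝ k x := rfl

theorem ip_eq (k : E3) : ip k = innerSL ℝ k := by
  ext x
  rw [ip_apply, innerSL_apply_apply]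

/-- `ro` as a continuous bilinear map (arguments swapped). -/
noncomputable def rb : E3 →L[ℝ] E3 →L[ℝ] Op := (smulRightL ℝ E3 E3).comp ip

theorem rb_apply (k v : E3) : rb k v = ro v k := by
  ext x
  simp only [rb, ro, ContinuousLinearMap.comp_apply, smulRightL_apply_apply, ip_eq]

theorem ro_apply (v k x : E3) : ro v k x = inner ℝ k x • v := by
  simp only [ro, smulRight_apply, innerSL_apply_apply]

theorem bil : IsBoundedBilinearMap ℝ (fun p : E3 × E3 => ro p.2 p.1) := by
  have h := ContinuousLinearMap.isBoundedBilinearMap rb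
  have h3 : (fun p : E3 × E3 => rb p.1 p.2) = fun p => ro p.2 p.1 := by
    funext s
    rw [rb_apply]
  rw [← h3]
  exact h

theorem ro_contDiff (w q : ℝ → E3) (hw : ContDiff ℝ ∞ w) (hq : ContDiff ℝ ∞ q) :
    ContDiff ℝ ∞ (fun t => ro (w t) (q t)) :=
  bil.contDiff.comp (hq.prodMk hw)

theorem ro_hasDerivAt (w q : ℝ → E3) (w' q' : E3) (t : ℝ) (hw : HasDerivAt w w' t)
    (hq : HasDerivAt q q' t) :
    HasDerivAt (fun t => ro (w t) (q t)) (ro w' (q t) + ro (w t) q') t := by
  have h1 := (bil.hasFDerivAt (q t, w t)).comp_hasDerivAt t (hq.prodMk hw)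
  exact h1

theorem trace_ro (v k : E3) : LinearMap.trace ℝ E3 (ro v k).toLinearMap = inner ℝ k v := by
  rw [LinearMap.trace_eq_sum_inner _ (EuclideanSpace.basisFun (Fin 3) ℝ)]
  rw [← OrthonormalBasis.sum_inner_mul_inner (EuclideanSpace.basisFun (Fin 3) ℝ) k v]
  refine Finset.sum_congr rfl fun i _ => ?_
  rw [ContinuousLinearMap.coe_coe, ro_apply, inner_smul_right]

end WaveNext

open WaveNext in
theorem prf_StNext : StNext := by
  intro M w q hM hw
  have hMd : ∀ t, HasDerivAt M (deriv M t) t := fun t =>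
    ((hM.smooth.differentiable (by simp)) t).hasDerivAt
  have hd : ∀ t, HasDerivAt (fun t => M t + ro (w t) (q t))
      (deriv M t + (ro (-(M t (w t)) + (2 * inner ℝ (q t) (M t (w t)) / ‖q t‖ ^ 2) • q t) (q t)
        + ro (w t) (-(adjoint (M t) (q t))))) t := fun t =>
    (hMd t).add (ro_hasDerivAt w q _ _ t (hw.w_deriv t) (hw.q_deriv t))
  refine ⟨hM.smooth.add (ro_contDiff w q hw.w_smooth hw.q_smooth), fun t => ?_, fun t x y => ?_⟩
  · rw [ContinuousLinearMap.toLinearMap_add, map_add, hM.trace t, trace_ro, hw.orth t, add_zero]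
  · have hkey : ∀ z : E3, deriv (fun t => M t + ro (w t) (q t)) t z
        + (M t + ro (w t) (q t)) ((M t + ro (w t) (q t)) z)
        = (deriv M t z + M t (M t z))
          + (2 * inner ℝ (q t) (M t (w t)) / ‖q t‖ ^ 2 * inner ℝ (q t) z) • q t
          + (inner ℝ (q t) (M t (w t)) * 0) • q t := by
      intro z
      rw [(hd t).deriv]
      simp only [_root_.add_apply, ro_apply, inner_neg_left, adjoint_inner_left, map_add, map_smul, hw.orth t, smul_add, smul_neg,
        mul_zero, add_zero, zero_smul]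
      module
    rw [hkey y, hkey x, mul_zero, zero_smul, add_zero, add_zero, inner_add_right, inner_add_left,
      hM.symm t x y, inner_smul_right, inner_smul_left, real_inner_comm (q t) x]
    simp only [RCLike.conj_to_real]
    ring

theorem prf_StScale : StScale := by
  intro M w q α β h hβ
  refine ⟨ContDiff.const_smul α h.w_smooth, ContDiff.const_smul β h.q_smooth, fun t => ?_,
    fun t => ?_, fun t => ?_, fun t => ?_⟩
  · have h2 : β • -(adjoint (M t) (q t)) = -(adjoint (M t) (β • q t)) := by
      rw [map_smul, smul_neg]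
    exact ((h.q_deriv t).const_smul β).congr_deriv h2
  · have hq : ‖q t‖ ≠ 0 := norm_ne_zero_iff.mpr (h.q_ne t)
    have h2 : α • (-(M t (w t)) + (2 * inner ℝ (q t) (M t (w t)) / ‖q t‖ ^ 2) • q t)
        = -(M t (α • w t))
          + (2 * inner ℝ (β • q t) (M t (α • w t)) / ‖β • q t‖ ^ 2) • (β • q t) := by
      rw [map_smul, inner_smul_left, inner_smul_right, norm_smul, smul_add, smul_neg, smul_smul,
        smul_smul, mul_pow, Real.norm_eq_abs, sq_abs]
      simp only [RCLike.conj_to_real]
      congr 2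
      field_simp
    exact ((h.w_deriv t).const_smul α).congr_deriv h2
  · rw [inner_smul_left, inner_smul_right, h.orth t]
    simp
  · exact smul_ne_zero hβ (h.q_ne t)

end Pool.Agent.Work.MP_b0497c_an.Forced.Ode
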