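import Pool.Agent.Work.MP_b0497c_an.Forced.Ode.StmtsB

set_option autoImplicit false

/-!
# S3: the base of the chain
-/

open scoped ContDiff
open Set ContinuousLinearMap Filter Topology

namespace Pool.Agent.Work.MP_b0497c_an.Forced.Ode

namespace Base

/-- basis vectors -/
noncomputable def f (i : Fin 3) : E3 := EuclideanSpace.single i (1 : ℝ)

theorem f_inner (i j : Fin 3) : inner ℝ (f i) (f j) = if i = j then (1 : ℝ) else 0 := by
  unfold f
  rw [EuclideanSpace.inner_single_left]
  simp

theorem f_norm (i : Fin 3) : ‖f i‖ = 1 := by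
  unfold f
  simp

/-- The constant base flow. -/
noncomputable def B0 (c : ℝ) : Op := ro (f 1 + c • f 2) (f 0)

theorem B0_apply (c : ℝ) (x : E3) : B0 c x = (inner ℝ (f 0) x : ℝ) • (f 1 + c • f 2) := rfl

theorem B0_sq (c : ℝ) (x : E3) : B0 c (B0 c x) = 0 := by
  rw [B0_apply, B0_apply, inner_smul_right, inner_add_right, inner_smul_right, f_inner, f_inner]
  simp

theorem B0_trace (c : ℝ) : LinearMap.trace ℝ E3 (B0 c).toLinearMap = 0 := by
  have h : (B0 c).toLinearMap =
      ((innerSL ℝ (f 0)).toLinearMap).smulRight (f 1 + c • f 2) := by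
    ext x
    rfl
  rw [h, LinearMap.trace_smulRight]
  show (inner ℝ (f 0) (f 1 + c • f 2) : ℝ) = 0
  rw [inner_add_right, inner_smul_right, f_inner, f_inner]
  simp

theorem B0_norm (c : ℝ) (h0 : 0 ≤ c) (h1 : c ≤ 1) : ‖B0 c‖ ≤ 2 := by
  refine ContinuousLinearMap.opNorm_le_bound _ (by norm_num) fun x => ?_
  rw [B0_apply, norm_smul]
  have e1 : ‖(inner ℝ (f 0) x : ℝ)‖ ≤ ‖x‖ := by
    have := norm_inner_le_norm (𝕜 := ℝ) (f 0) x
    rwa [f_norm, one_mul] at this
  have e2 : ‖f 1 + c • f 2‖ ≤ 2 := by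
    calc ‖f 1 + c • f 2‖ ≤ ‖f 1‖ + ‖c • f 2‖ := norm_add_le _ _
      _ = 1 + c := by rw [norm_smul, f_norm, f_norm, Real.norm_of_nonneg h0, mul_one]
      _ ≤ 2 := by linarith
  calc ‖(inner ℝ (f 0) x : ℝ)‖ * ‖f 1 + c • f 2‖ ≤ ‖x‖ * 2 :=
        mul_le_mul e1 e2 (norm_nonneg _) (norm_nonneg _)
    _ = 2 * ‖x‖ := by ring

theorem B0_flow (c : ℝ) : Flow (fun _ : ℝ => B0 c) where
  smooth := contDiff_const
  trace := fun _ => B0_trace c
  symm := fun t x y => by
    have h : deriv (fun _ : ℝ => B0 c) t = 0 := by simp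
    rw [h, B0_sq, B0_sq]
    simp

end Base

open Base in
theorem prf_StBase (hW : StWave) (hL : StLinear) (hS : StStageNum) : StBase := by
  obtain ⟨Lst, hLst, hS⟩ := hS
  refine ⟨Lst, hLst, fun L hL0 => ?_⟩
  have hL10 : 10 ≤ L := hLst.trans hL0
  have hLpos : 0 < L := by linarith
  have hL12 : 0 < L ^ 12 := pow_pos hLpos 12
  set c : ℝ := 1 / L ^ 12 with hc
  have hcL : c * L ^ 12 = 1 := by
    rw [hc]
    field_simp
  obtain ⟨n1, n2, n3, n4, n5, -⟩ := hS L hL0 c 1 (by rw [hcL]; norm_num)
    (by rw [hcL]; norm_num) (by norm_num) (by norm_num)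
  have hc1 : c ≤ 1 := n2.trans (by norm_num)
  have ha : 0 < Real.exp L := Real.exp_pos L
  have hf1 : f 1 ≠ 0 := by
    intro h
    have := f_norm 1
    rw [h, norm_zero] at this
    norm_num at this
  obtain ⟨v, k, hwave, hv, hk⟩ := hW (fun _ => B0 c) contDiff_const 1 (Real.exp L • f 0) (f 1)
    hf1 (by rw [inner_smul_right, f_inner]; simp)
  obtain ⟨b1, hb1s, hb1, hb1d⟩ := hL E3 (fun _ => B0 c) (fun _ => 0) contDiff_const contDiff_const
    1 ((Real.exp L)⁻¹ • v 1)
  obtain ⟨b2, hb2s, hb2, hb2d⟩ := hL E3 (fun _ => B0 c) v contDiff_const hwave.w_smooth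
    1 (k 1)
  have hlam : 3 ≤ Real.exp (2 * Real.sqrt L) := by
    have h1 : 1 ≤ Real.sqrt L := by
      rw [Real.one_le_sqrt]
      linarith
    have h2 := Real.add_one_le_exp (2 * Real.sqrt L)
    linarith
  have hLi : 1 / L ≤ 1 / 10 := one_div_le_one_div_of_le (by norm_num) hL10
  let D : EraD :=
    { B := fun _ => B0 c
      v := v
      k := k
      b1 := b1
      b2 := b2
      e := f 2
      t0 := 1
      a := Real.exp L
      kap := 1
      c := c
      Lam := Real.exp (2 * Real.sqrt L)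
      X := Real.sqrt c * L ^ 12 + 1 }
  refine ⟨D, ⟨?_, rfl, ?_, ?_, rfl, rfl, ?_, ?_⟩, rfl⟩
  · exact {
      flow := B0_flow c
      wave := hwave
      b1_deriv := fun t => by
        have := hb1d t
        rwa [add_zero] at this
      b2_deriv := hb2d
      b1_init := hb1
      b2_init := hb2
      k1 := by
        show ‖k 1‖ = 1
        rw [hk, f_norm]
      va := by
        show ‖v 1‖ = Real.exp L
        rw [hv, norm_smul, f_norm, mul_one, Real.norm_of_nonneg ha.le]
      e1 := f_norm 2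
      ev := by
        show inner ℝ (f 2) (v 1) = 0
        rw [hv, inner_smul_right, f_inner]
        simp
      ek := by
        show inner ℝ (f 2) (k 1) = 0
        rw [hk, f_inner]
        simp
      kapeq := by
        show inner ℝ (k 1) (B0 c (v 1)) = Real.exp L * 1
        rw [hk, hv, B0_apply, inner_smul_right, inner_smul_right, inner_add_right,
          inner_smul_right, f_inner, f_inner, f_inner]
        simp
      ceq := by
        show inner ℝ (f 2) (B0 c (v 1)) = Real.exp L * 1 * c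
        rw [hv, B0_apply, inner_smul_right, inner_smul_right, inner_add_right,
          inner_smul_right, f_inner, f_inner, f_inner]
        simp
      kap1 := by
        show (1 / 2 : ℝ) ≤ 1
        norm_num
      kap2 := by
        show (1 : ℝ) ≤ 2
        norm_num
      c0 := n1
      c1 := n2
      X1 := n3
      cX := n4
      L1 := by
        show 1 ≤ Real.exp (2 * Real.sqrt L)
        linarith
      Bb := fun t _ => by
        show ‖B0 c‖ ≤ Real.exp (2 * Real.sqrt L)
        exact (B0_norm c n1.le hc1).trans (by linarith)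
      Bd := fun t _ => by
        show ‖deriv (fun _ : ℝ => B0 c) t‖ ≤ Real.exp (2 * Real.sqrt L) ^ 2
        have h : deriv (fun _ : ℝ => B0 c) t = 0 := by simp
        rw [h, norm_zero]
        positivity
      big := n5 }
  · show 1 / 2 ≤ c * L ^ 12
    rw [hcL]
    norm_num
  · show c * L ^ 12 ≤ 3 / 2
    rw [hcL]
    norm_num
  · show 1 / 2 + 1 / L ≤ (1 : ℝ)
    linarith
  · show (1 : ℝ) ≤ 2 - 1 / L
    linarith

end Pool.Agent.Work.MP_b0497c_an.Forced.Ode
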