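import Pool.Agent.Work.MP_b0497c_an.Defs

set_option autoImplicit false

/-!
# ODE module of the forced Euler blow-up: definitions

Linear flows `u = M(t) x`, plane waves on them, and the data of one era.
-/

open scoped ContDiff
open Set ContinuousLinearMap

namespace Pool.Agent.Work.MP_b0497c_an.Forced.Ode

/-- Linear maps of `ℝ³`. -/
abbrev Op : Type := E3 →L[ℝ] E3

/-- The rank one map `x ↦ ⟪k, x⟫ v`. -/
noncomputable def ro (v k : E3) : Op := (innerSL ℝ k).smulRight v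

/-- A trace free linear flow `u = M(t) x` for which `∂ₜu + (u·∇)u` is a gradient. -/
structure Flow (M : ℝ → Op) : Prop where
  smooth : ContDiff ℝ ∞ M
  trace : ∀ t, LinearMap.trace ℝ E3 (M t).toLinearMap = 0
  symm : ∀ t x y, inner ℝ x (deriv M t y + M t (M t y)) = inner ℝ (deriv M t x + M t (M t x)) y

/-- A plane wave on the linear flow `M`. -/
structure Wave (M : ℝ → Op) (w q : ℝ → E3) : Prop where
  w_smooth : ContDiff ℝ ∞ w
  q_smooth : ContDiff ℝ ∞ q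
  q_deriv : ∀ t, HasDerivAt q (-(adjoint (M t) (q t))) t
  w_deriv : ∀ t, HasDerivAt w
    (-(M t (w t)) + (2 * inner ℝ (q t) (M t (w t)) / ‖q t‖ ^ 2) • q t) t
  orth : ∀ t, inner ℝ (q t) (w t) = 0
  q_ne : ∀ t, q t ≠ 0

/-- Data of one era: background flow `B`, dominant wave `(v, k)` on it, Lagrangian vectors
`b1, b2` of the flow `M = B + v ⊗ k`, start time `t0`, amplitude `a`, rotation rate `kap`,
tilt `c`, third frame vector `e`, size `Lam` of `B`, length `X` of the era. -/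
structure EraD where
  B : ℝ → Op
  v : ℝ → E3
  k : ℝ → E3
  b1 : ℝ → E3
  b2 : ℝ → E3
  e : E3
  t0 : ℝ
  a : ℝ
  kap : ℝ
  c : ℝ
  Lam : ℝ
  X : ℝ

namespace EraD

variable (D : EraD)

/-- inverse time scale -/
noncomputable def om : ℝ := D.c * Real.sqrt (D.a * D.kap)

/-- duration of the era -/
noncomputable def T : ℝ := D.X / D.om

/-- time interval of the era -/
def I : Set ℝ := Icc D.t0 (D.t0 + D.T)

/-- the scaled time `x = om * (t - t0)` -/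
noncomputable def x (t : ℝ) : ℝ := D.om * (t - D.t0)

/-- the flow `M = B + v ⊗ k` -/
noncomputable def M (t : ℝ) : Op := D.B t + ro (D.v t) (D.k t)

/-- the large parameter -/
noncomputable def y : ℝ := D.Lam * D.X / D.c

/-- `b1 · b1` -/
noncomputable def g (t : ℝ) : ℝ := ‖D.b1 t‖ ^ 2

/-- `b1 · b2 / b1 · b1` -/
noncomputable def mu (t : ℝ) : ℝ := inner ℝ (D.b1 t) (D.b2 t) / D.g t

/-- part of `b2` orthogonal to `b1` -/
noncomputable def p (t : ℝ) : E3 := D.b2 t - D.mu t • D.b1 t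

/-- the conserved quantity `b1 · (M - Mᵀ) b2` -/
noncomputable def z (t : ℝ) : ℝ :=
  inner ℝ (D.b1 t) (D.M t (D.b2 t)) - inner ℝ (D.M t (D.b1 t)) (D.b2 t)

/-- coefficient in `P' = al Q` -/
noncomputable def al (t : ℝ) : ℝ := D.z t / ‖D.p t‖ ^ 2

/-- coefficient in `Q' = ga P` -/
noncomputable def ga (t : ℝ) : ℝ := 2 * inner ℝ (D.p t) (D.B t (D.b1 t)) / D.g t

/-- `k2 = a c kap (t - t0)²` -/
noncomputable def k2 (t : ℝ) : ℝ := D.a * D.c * D.kap * (t - D.t0) ^ 2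

/-- `P = b1 · w` -/
noncomputable def P (w : ℝ → E3) (t : ℝ) : ℝ := inner ℝ (D.b1 t) (w t)

/-- `Q = - p · w` -/
noncomputable def Q (w : ℝ → E3) (t : ℝ) : ℝ := -inner ℝ (D.p t) (w t)

/-- `Qh = c (a / kap)^(1/2) Q` -/
noncomputable def Qh (w : ℝ → E3) (t : ℝ) : ℝ := D.c * Real.sqrt (D.a / D.kap) * D.Q w t

/-- `Y = x P` -/
noncomputable def Y (w : ℝ → E3) (t : ℝ) : ℝ := D.x t * D.P w t

/-- `W = Qh / x + x² P` -/
noncomputable def W (w : ℝ → E3) (t : ℝ) : ℝ := D.Qh w t / D.x t + D.x t ^ 2 * D.P w t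

/-- The hypotheses on the data of an era. -/
structure Ok : Prop where
  flow : Flow D.B
  wave : Wave D.B D.v D.k
  b1_deriv : ∀ t, HasDerivAt D.b1 (D.B t (D.b1 t)) t
  b2_deriv : ∀ t, HasDerivAt D.b2 (D.B t (D.b2 t) + D.v t) t
  b1_init : D.b1 D.t0 = (D.a)⁻¹ • D.v D.t0
  b2_init : D.b2 D.t0 = D.k D.t0
  k1 : ‖D.k D.t0‖ = 1
  va : ‖D.v D.t0‖ = D.a
  e1 : ‖D.e‖ = 1
  ev : inner ℝ D.e (D.v D.t0) = 0
  ek : inner ℝ D.e (D.k D.t0) = 0
  kapeq : inner ℝ (D.k D.t0) (D.B D.t0 (D.v D.t0)) = D.a * D.kap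
  ceq : inner ℝ D.e (D.B D.t0 (D.v D.t0)) = D.a * D.kap * D.c
  kap1 : 1 / 2 ≤ D.kap
  kap2 : D.kap ≤ 2
  c0 : 0 < D.c
  c1 : D.c ≤ 1 / 10 ^ 8
  X1 : 2 ≤ D.X
  cX : D.c * D.X ≤ 1 / 10 ^ 4
  L1 : 1 ≤ D.Lam
  Bb : ∀ t ∈ D.I, ‖D.B t‖ ≤ D.Lam
  Bd : ∀ t ∈ D.I, ‖deriv D.B t‖ ≤ D.Lam ^ 2
  big : D.y ^ 40 ≤ D.a

end EraD

end Pool.Agent.Work.MP_b0497c_an.Forced.Ode
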