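import Pool.Agent.Work.MP_b0497c_an.Forced.Ode.Stmts

set_option autoImplicit false

/-!
# ODE module, items V1 and V2: bounds on the new flow and deformation
-/

open scoped ContDiff
open Set ContinuousLinearMap

namespace Pool.Agent.Work.MP_b0497c_an.Forced.Ode

namespace NewB

theorem ro_apply (v k x : E3) : ro v k x = inner ℝ k x • v := rfl

theorem norm_ro (v k : E3) : ‖ro v k‖ = ‖v‖ * ‖k‖ := by
  unfold ro
  rw [norm_smulRight_apply, innerSL_apply_norm, mul_comm]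

/-- `ro` as a bilinear map -/
noncomputable def bil : E3 →L[ℝ] E3 →L[ℝ] Op :=
  (smulRightL ℝ E3 E3).comp (innerSL ℝ : E3 →L[ℝ] E3 →L[ℝ] ℝ)

theorem bil_apply (k v : E3) : bil k v = ro v k := rfl

theorem hasDerivAt_ro {v k : ℝ → E3} {v' k' : E3} {t : ℝ} (hv : HasDerivAt v v' t)
    (hk : HasDerivAt k k' t) :
    HasDerivAt (fun t => ro (v t) (k t)) (ro v' (k t) + ro (v t) k') t := by
  have h := bil.hasDerivAt_of_bilinear (fun _ => hk) (fun _ => hv)
  exact h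

theorem small {D : EraD} (hD : D.Ok) (hN : StPar) : 27 * D.y ≤ Real.sqrt D.a ∧
    10 * D.Lam ≤ D.a ∧ D.Lam * D.T ≤ 1 ∧ D.a * D.T ≤ 2 * D.y * Real.sqrt D.a ∧ 0 < D.a := by
  obtain ⟨h1, h2, -, -, -, ha, -, hT, h3, -, h4, -, -, h5, -⟩ := hN D hD
  have hy0 : (0 : ℝ) < D.y := by linarith
  have h6 : D.y ^ 2 ≤ D.y ^ 20 := pow_le_pow_right₀ (by linarith) (by norm_num)
  have h7 : 27 * D.y ≤ D.y ^ 2 := by nlinarith
  have h8 : 27 * D.y ≤ Real.sqrt D.a := h7.trans (h6.trans h3)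
  have h9 : Real.sqrt D.a * Real.sqrt D.a = D.a := Real.mul_self_sqrt ha.le
  refine ⟨h8, ?_, ?_, h5, ha⟩
  · have h10 : 1 ≤ Real.sqrt D.a := by linarith
    nlinarith
  · have h11 : (1 : ℝ) ≤ D.y ^ 18 := one_le_pow₀ (by linarith)
    have h12 : 0 ≤ D.Lam * D.T := mul_nonneg (by linarith [hD.L1]) hT.le
    nlinarith

theorem adj_norm (A : Op) (x : E3) {L : ℝ} (h : ‖A‖ ≤ L) : ‖adjoint A x‖ ≤ L * ‖x‖ := by
  have h1 : ‖adjoint A‖ = ‖A‖ := LinearIsometryEquiv.norm_map adjoint A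
  exact ((adjoint A).le_opNorm x).trans (by rw [h1]; gcongr)

end NewB

open NewB

theorem prf_StNewB (hN : StPar) (hB : StBounds) : StNewB := by
  intro D hD t ht
  obtain ⟨-, hLa, -, -, ha⟩ := small hD hN
  obtain ⟨-, -, hk1, hk2, -, hvk, -⟩ := hB D hD t ht
  have hL1 := hD.L1
  have hBt := hD.Bb t ht
  have hBd := hD.Bd t ht
  constructor
  · have h1 : ‖D.M t‖ ≤ ‖D.B t‖ + ‖ro (D.v t) (D.k t)‖ := norm_add_le _ _
    rw [norm_ro] at h1
    linarith
  · have hBder : HasDerivAt D.B (deriv D.B t) t :=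
      (hD.flow.smooth.differentiable (by simp) t).hasDerivAt
    have hv := hD.wave.w_deriv t
    have hk := hD.wave.q_deriv t
    have hM : HasDerivAt D.M (deriv D.B t + (ro (-(D.B t (D.v t)) +
        (2 * inner ℝ (D.k t) (D.B t (D.v t)) / ‖D.k t‖ ^ 2) • D.k t) (D.k t)
        + ro (D.v t) (-(adjoint (D.B t) (D.k t))))) t := hBder.add (hasDerivAt_ro hv hk)
    rw [hM.deriv]
    have hk0 : 0 < ‖D.k t‖ := by linarith
    have hBv : ‖D.B t (D.v t)‖ ≤ D.Lam * ‖D.v t‖ :=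
      ((D.B t).le_opNorm _).trans (mul_le_mul_of_nonneg_right hBt (norm_nonneg _))
    have hv' : ‖-(D.B t (D.v t)) +
        (2 * inner ℝ (D.k t) (D.B t (D.v t)) / ‖D.k t‖ ^ 2) • D.k t‖ ≤ 3 * (D.Lam * ‖D.v t‖) := by
      refine (norm_add_le _ _).trans ?_
      rw [norm_neg, norm_smul]
      have h1 : ‖2 * inner ℝ (D.k t) (D.B t (D.v t)) / ‖D.k t‖ ^ 2‖ * ‖D.k t‖ ≤
          2 * (D.Lam * ‖D.v t‖) := by
        rw [norm_div, norm_mul, norm_pow, norm_norm, Real.norm_eq_abs, Real.norm_eq_abs,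
          abs_of_pos (by norm_num : (0 : ℝ) < 2)]
        have h2 := abs_real_inner_le_norm (D.k t) (D.B t (D.v t))
        rw [div_mul_eq_mul_div, div_le_iff₀ (by positivity)]
        calc 2 * |inner ℝ (D.k t) (D.B t (D.v t))| * ‖D.k t‖
            ≤ 2 * (‖D.k t‖ * (D.Lam * ‖D.v t‖)) * ‖D.k t‖ := by
              gcongr
              exact h2.trans (mul_le_mul_of_nonneg_left hBv hk0.le)
          _ = 2 * (D.Lam * ‖D.v t‖) * ‖D.k t‖ ^ 2 := by ring
      linarith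
    have hk' : ‖-(adjoint (D.B t) (D.k t))‖ ≤ D.Lam * ‖D.k t‖ := by
      rw [norm_neg]
      exact adj_norm _ _ hBt
    have h3 : ‖ro (-(D.B t (D.v t)) +
        (2 * inner ℝ (D.k t) (D.B t (D.v t)) / ‖D.k t‖ ^ 2) • D.k t) (D.k t)‖ ≤
        3 * D.Lam * (‖D.v t‖ * ‖D.k t‖) := by
      rw [norm_ro]
      calc _ ≤ 3 * (D.Lam * ‖D.v t‖) * ‖D.k t‖ := by gcongr
        _ = _ := by ring
    have h4 : ‖ro (D.v t) (-(adjoint (D.B t) (D.k t)))‖ ≤ D.Lam * (‖D.v t‖ * ‖D.k t‖) := by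
      rw [norm_ro]
      calc _ ≤ ‖D.v t‖ * (D.Lam * ‖D.k t‖) := by gcongr
        _ = _ := by ring
    refine (norm_add_le _ _).trans ?_
    have h5 := (norm_add_le (ro (-(D.B t (D.v t)) +
        (2 * inner ℝ (D.k t) (D.B t (D.v t)) / ‖D.k t‖ ^ 2) • D.k t) (D.k t))
        (ro (D.v t) (-(adjoint (D.B t) (D.k t)))))
    have h6 : D.Lam * (‖D.v t‖ * ‖D.k t‖) ≤ D.Lam * (11 / 10 * D.a) := by gcongr
    have h7 : D.Lam * D.a ≤ D.a / 10 * D.a := by gcongr; linarith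
    have h8 : D.Lam ^ 2 ≤ (D.a / 10) ^ 2 := by gcongr; linarith
    nlinarith

theorem prf_StDef (hN : StPar) (hB : StBounds) (_hE : StExact) (hG : StGrow)
    (hGB : StGrowBack) : StDef := by
  intro D hD b hb s hs t ht
  obtain ⟨hy, -, hLT, haT, ha⟩ := small hD hN
  have hL1 := hD.L1
  have hpar := (hN D hD).2.2.2.2.2.2.2.1
  -- the conserved quantity
  have hcons : ∀ u, inner ℝ (D.k u) (b u) = inner ℝ (D.k s) (b s) := by
    have hder : ∀ u, HasDerivAt (fun u => inner ℝ (D.k u) (b u)) 0 u := by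
      intro u
      have h1 := (hD.wave.q_deriv u).inner ℝ (hb u)
      have h2 : D.M u (b u) = D.B u (b u) + inner ℝ (D.k u) (b u) • D.v u := rfl
      have h3 : inner ℝ (D.k u) (D.M u (b u)) + inner ℝ (-(adjoint (D.B u) (D.k u))) (b u)
          = 0 := by
        rw [h2, inner_add_right, inner_smul_right, hD.wave.orth u, inner_neg_left,
          adjoint_inner_left]
        ring
      rw [← h3]
      exact h1
    have hdiff : Differentiable ℝ (fun u => inner ℝ (D.k u) (b u)) := fun u =>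
      (hder u).differentiableAt
    intro u
    exact is_const_of_deriv_eq_zero hdiff (fun u => (hder u).deriv) u s
  set β := inner ℝ (D.k s) (b s) with hβ
  have hβle : |β| ≤ 2 * ‖b s‖ := by
    obtain ⟨-, -, -, hk2, -⟩ := hB D hD s hs
    exact (abs_real_inner_le_norm _ _).trans (by gcongr)
  have hb' : ∀ u, HasDerivAt b (D.B u (b u) + β • D.v u) u := by
    intro u
    have h1 := hb u
    have h2 : D.M u (b u) = D.B u (b u) + inner ℝ (D.k u) (b u) • D.v u := rfl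
    rw [h2, hcons u] at h1
    exact h1
  have hbound : ∀ u ∈ D.I, ‖D.B u (b u) + β • D.v u‖ ≤ D.Lam * ‖b u‖ + 4 * D.a * ‖b s‖ := by
    intro u hu
    obtain ⟨-, -, -, -, hv, -⟩ := hB D hD u hu
    refine (norm_add_le _ _).trans ?_
    refine add_le_add ?_ ?_
    · exact ((D.B u).le_opNorm _).trans (mul_le_mul_of_nonneg_right (hD.Bb u hu) (norm_nonneg _))
    · rw [norm_smul, Real.norm_eq_abs]
      calc |β| * ‖D.v u‖ ≤ (2 * ‖b s‖) * (2 * D.a) := by gcongr
        _ = 4 * D.a * ‖b s‖ := by ring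
  have hI : ∀ p q, p ∈ D.I → q ∈ D.I → Icc p q ⊆ D.I := by
    intro p q hp hq u hu
    exact ⟨hp.1.trans hu.1, hu.2.trans hq.2⟩
  have hlen : |t - s| ≤ D.T := by
    have h1 := hs.1
    have h2 := hs.2
    have h3 := ht.1
    have h4 := ht.2
    rw [abs_le]
    constructor <;> linarith
  have key : ‖b t‖ ≤ Real.exp (D.Lam * |t - s|) * (‖b s‖ + 4 * D.a * ‖b s‖ * |t - s|) := by
    rcases le_total s t with h | h
    · rw [abs_of_nonneg (by linarith)]
      exact hG E3 b (fun u => D.B u (b u) + β • D.v u) s t D.Lam (4 * D.a * ‖b s‖) h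
        (by linarith) (by positivity) (fun u _ => hb' u)
        (fun u hu => hbound u (hI s t hs ht hu))
    · rw [abs_of_nonpos (by linarith), neg_sub]
      exact hGB E3 b (fun u => D.B u (b u) + β • D.v u) t s D.Lam (4 * D.a * ‖b s‖) h
        (by linarith) (by positivity) (fun u _ => hb' u)
        (fun u hu => hbound u (hI t s ht hs hu))
  have he : Real.exp (D.Lam * |t - s|) ≤ 3 := by
    have h1 : D.Lam * |t - s| ≤ 1 := le_trans (by gcongr) hLT
    calc Real.exp (D.Lam * |t - s|) ≤ Real.exp 1 := Real.exp_le_exp.2 h1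
      _ ≤ 3 := by linarith [Real.exp_one_lt_d9]
  have hsq : Real.sqrt D.a * Real.sqrt D.a = D.a := Real.mul_self_sqrt ha.le
  have hy1 : 0 < D.y := by linarith [(hN D hD).1]
  have h2 : ‖b s‖ + 4 * D.a * ‖b s‖ * |t - s| ≤ (1 + 8 * D.y * Real.sqrt D.a) * ‖b s‖ := by
    have h3 : D.a * |t - s| ≤ 2 * D.y * Real.sqrt D.a := le_trans (by gcongr) haT
    have h4 : 4 * (D.a * |t - s|) * ‖b s‖ ≤ 4 * (2 * D.y * Real.sqrt D.a) * ‖b s‖ := by gcongr
    linarith
  have h5 : 3 * (1 + 8 * D.y * Real.sqrt D.a) ≤ D.a := by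
    have h6 : 27 * D.y * Real.sqrt D.a ≤ D.a := by nlinarith [Real.sqrt_nonneg D.a]
    have h7 : 1 ≤ D.y * Real.sqrt D.a := by
      have := (hN D hD).1
      nlinarith [Real.sqrt_nonneg D.a]
    linarith
  calc ‖b t‖ ≤ 3 * ((1 + 8 * D.y * Real.sqrt D.a) * ‖b s‖) := by
        refine key.trans ?_
        exact mul_le_mul he h2 (by positivity) (by norm_num)
    _ = (3 * (1 + 8 * D.y * Real.sqrt D.a)) * ‖b s‖ := by ring
    _ ≤ D.a * ‖b s‖ := by gcongr

end Pool.Agent.Work.MP_b0497c_an.Forced.Ode
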