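import Pool.Agent.Work.MP_b0497c_an.Forced.Ode.Defs

set_option autoImplicit false

/-!
# ODE module of the forced Euler blow-up: statements

Every statement may be used as a hypothesis in the proof of the later ones.
-/

open scoped ContDiff
open Set ContinuousLinearMap

namespace Pool.Agent.Work.MP_b0497c_an.Forced.Ode

/-- G1: global linear ODEs. -/
def StLinear : Prop := ∀ (E : Type) [NormedAddCommGroup E] [NormedSpace ℝ E] [CompleteSpace E]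
  (A : ℝ → E →L[ℝ] E) (r : ℝ → E), ContDiff ℝ ∞ A → ContDiff ℝ ∞ r → ∀ (t0 : ℝ) (y0 : E),
    ∃ y : ℝ → E, ContDiff ℝ ∞ y ∧ y t0 = y0 ∧ ∀ t, HasDerivAt y (A t (y t) + r t) t

/-- G2: uniqueness. -/
def StUnique : Prop := ∀ (E : Type) [NormedAddCommGroup E] [NormedSpace ℝ E]
  (A : ℝ → E →L[ℝ] E) (r : ℝ → E), Continuous A → ∀ (t0 : ℝ) (y z : ℝ → E), y t0 = z t0 →
    (∀ t, HasDerivAt y (A t (y t) + r t) t) → (∀ t, HasDerivAt z (A t (z t) + r t) t) → y = z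

/-- G3: growth of solutions of linear ODEs, forward in time. -/
def StGrow : Prop := ∀ (E : Type) [NormedAddCommGroup E] [NormedSpace ℝ E]
  (y y' : ℝ → E) (s t K L : ℝ), s ≤ t → 0 ≤ K → 0 ≤ L → (∀ u ∈ Icc s t, HasDerivAt y (y' u) u) →
    (∀ u ∈ Icc s t, ‖y' u‖ ≤ K * ‖y u‖ + L) → ‖y t‖ ≤ Real.exp (K * (t - s)) * (‖y s‖ + L * (t - s))

/-- G4: the same, backward in time. -/
def StGrowBack : Prop := ∀ (E : Type) [NormedAddCommGroup E] [NormedSpace ℝ E]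
  (y y' : ℝ → E) (s t K L : ℝ), s ≤ t → 0 ≤ K → 0 ≤ L → (∀ u ∈ Icc s t, HasDerivAt y (y' u) u) →
    (∀ u ∈ Icc s t, ‖y' u‖ ≤ K * ‖y u‖ + L) → ‖y s‖ ≤ Real.exp (K * (t - s)) * (‖y t‖ + L * (t - s))

/-- W1: existence of waves. -/
def StWave : Prop := ∀ M : ℝ → Op, ContDiff ℝ ∞ M → ∀ (t0 : ℝ) (w0 q0 : E3), q0 ≠ 0 →
  inner ℝ q0 w0 = 0 → ∃ w q : ℝ → E3, Wave M w q ∧ w t0 = w0 ∧ q t0 = q0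

/-- W2: the next flow. -/
def StNext : Prop := ∀ (M : ℝ → Op) (w q : ℝ → E3), Flow M → Wave M w q →
  Flow (fun t => M t + ro (w t) (q t))

/-- W3: scaling of waves. -/
def StScale : Prop := ∀ (M : ℝ → Op) (w q : ℝ → E3) (α β : ℝ), Wave M w q → β ≠ 0 →
  Wave M (fun t => α • w t) (fun t => β • q t)

/-- W4: three orthogonal vectors span. -/
def StSpan : Prop := ∀ u1 u2 u3 X : E3, u1 ≠ 0 → u2 ≠ 0 → u3 ≠ 0 → inner ℝ u1 u2 = 0 →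
  inner ℝ u1 u3 = 0 → inner ℝ u2 u3 = 0 →
  X = (inner ℝ u1 X / ‖u1‖ ^ 2) • u1 + (inner ℝ u2 X / ‖u2‖ ^ 2) • u2
    + (inner ℝ u3 X / ‖u3‖ ^ 2) • u3

/-- C1: cooperative systems of two differential inequalities. -/
def StCoop : Prop := ∀ (u1 u2 u1' u2' a11 a12 a21 a22 : ℝ → ℝ) (s t K : ℝ),
  (∀ x ∈ Icc s t, HasDerivAt u1 (u1' x) x) → (∀ x ∈ Icc s t, HasDerivAt u2 (u2' x) x) →
  (∀ x ∈ Icc s t, a11 x * u1 x + a12 x * u2 x ≤ u1' x) →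
  (∀ x ∈ Icc s t, a21 x * u1 x + a22 x * u2 x ≤ u2' x) →
  (∀ x ∈ Icc s t, 0 ≤ a12 x ∧ 0 ≤ a21 x ∧ |a11 x| ≤ K ∧ a12 x ≤ K ∧ a21 x ≤ K ∧ |a22 x| ≤ K) →
  0 ≤ u1 s → 0 ≤ u2 s → ∀ x ∈ Icc s t, 0 ≤ u1 x ∧ 0 ≤ u2 x

namespace EraD

variable (D : EraD)

/-- rescaled coefficient of the first equation -/
noncomputable def Ah (t : ℝ) : ℝ := D.al t / (D.c ^ 2 * D.a)

/-- rescaled coefficient of the second equation -/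
noncomputable def Gh (t : ℝ) : ℝ := D.ga t / D.kap

/-- `x² Ah` -/
noncomputable def A12 (t : ℝ) : ℝ := D.x t ^ 2 * D.Ah t

/-- `Gh / x² + 3 - x⁴ Ah` -/
noncomputable def A21 (t : ℝ) : ℝ := D.Gh t / D.x t ^ 2 + 3 - D.x t ^ 4 * D.Ah t

/-- `(1 - x⁴ Ah) / x` -/
noncomputable def dd (t : ℝ) : ℝ := (1 - D.x t ^ 4 * D.Ah t) / D.x t

/-- start `c^(1/4)` of the window in the scaled time -/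
noncomputable def x0 : ℝ := Real.sqrt (Real.sqrt D.c)

/-- start of the window -/
noncomputable def s0 : ℝ := D.t0 + D.x0 / D.om

/-- end of the era, start of the next one -/
noncomputable def tf : ℝ := D.t0 + (D.X - 1) / D.om

/-- the window on which the new wave lives -/
def J : Set ℝ := Icc D.s0 (D.t0 + D.T)

end EraD

/-- N1: elementary inequalities between the parameters. -/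
def StPar : Prop := ∀ D : EraD, D.Ok → 2 * 10 ^ 8 ≤ D.y ∧ D.Lam ≤ D.y ∧ D.X ≤ D.y ∧ 1 / D.c ≤ D.y ∧
  D.X / D.c ≤ D.y ∧ 0 < D.a ∧ 0 < D.om ∧ 0 < D.T ∧ D.y ^ 20 ≤ Real.sqrt D.a ∧
  D.y ^ 20 ≤ 2 * Real.sqrt (D.a * D.kap) ∧ D.y ^ 18 * (D.Lam * D.T) ≤ 1 ∧ D.y ^ 18 * D.T ≤ 1 ∧
  D.T ≤ 2 * (D.X / D.c) / D.y ^ 20 ∧ D.a * D.T ≤ 2 * D.y * Real.sqrt D.a ∧
  0 < D.x0 ∧ D.x0 ^ 4 = D.c ∧ D.x0 ≤ 1 / 100 ∧ 1 / D.x0 ≤ D.y ∧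
  D.t0 < D.s0 ∧ D.s0 < D.tf ∧ D.tf < D.t0 + D.T ∧ D.x D.s0 = D.x0 ∧ D.x D.tf = D.X - 1 ∧
  ∀ t ∈ D.I, 0 ≤ t - D.t0 ∧ t - D.t0 ≤ D.T ∧ 0 ≤ D.x t ∧ D.x t ≤ D.X ∧
    D.x t ^ 2 = D.c * D.k2 t ∧ 0 ≤ D.k2 t ∧ D.k2 t ≤ D.X ^ 2 / D.c ∧ (t ∈ D.J ↔ D.x0 ≤ D.x t)

/-- E1: exact conservation laws. -/
def StExact : Prop := ∀ D : EraD, D.Ok → (∀ t, inner ℝ (D.k t) (D.b1 t) = 0) ∧
  (∀ t, inner ℝ (D.k t) (D.b2 t) = 1) ∧ (∀ t, HasDerivAt D.b1 (D.M t (D.b1 t)) t) ∧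
  (∀ t, HasDerivAt D.b2 (D.M t (D.b2 t)) t) ∧ (∀ t, D.z t = D.z D.t0) ∧
  |D.z D.t0 - D.a| ≤ 2 * D.Lam

/-- E2: a wave vector orthogonal to `b1, b2` stays so. -/
def StPerp : Prop := ∀ D : EraD, D.Ok → ∀ q : ℝ → E3,
  (∀ t, HasDerivAt q (-(adjoint (D.M t) (q t))) t) → inner ℝ (q D.t0) (D.b1 D.t0) = 0 →
  inner ℝ (q D.t0) (D.b2 D.t0) = 0 →
  ∀ t, inner ℝ (q t) (D.b1 t) = 0 ∧ inner ℝ (q t) (D.b2 t) = 0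

/-- E3: the derivative of `p`. -/
def StPder : Prop := ∀ D : EraD, D.Ok → ∀ t, D.b1 t ≠ 0 → inner ℝ (D.b1 t) (D.p t) = 0 ∧
  inner ℝ (D.k t) (D.p t) = 1 ∧
  HasDerivAt D.p (D.B t (D.p t) + (D.v t - (inner ℝ (D.b1 t) (D.v t) / D.g t) • D.b1 t)
    - ((inner ℝ (D.b1 t) (D.B t (D.p t)) + inner ℝ (D.B t (D.b1 t)) (D.p t)) / D.g t) • D.b1 t) t

/-- E4: the exact two dimensional system, with a source `r`. -/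
def StPQ : Prop := ∀ D : EraD, D.Ok → ∀ (t : ℝ) (w q : ℝ → E3) (r : E3), D.b1 t ≠ 0 → D.p t ≠ 0 →
  q t ≠ 0 → inner ℝ (q t) (D.b1 t) = 0 → inner ℝ (q t) (D.b2 t) = 0 → inner ℝ (q t) (w t) = 0 →
  HasDerivAt w (-(D.M t (w t)) + (2 * inner ℝ (q t) (D.M t (w t)) / ‖q t‖ ^ 2) • q t + r) t →
  w t = (D.P w t / D.g t) • D.b1 t - (D.Q w t / ‖D.p t‖ ^ 2) • D.p t ∧
  HasDerivAt (D.P w) (D.al t * D.Q w t + inner ℝ (D.b1 t) r) t ∧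
  HasDerivAt (D.Q w) (D.ga t * D.P w t - inner ℝ (D.p t) r) t

/-- E5: the system in the variables `Y, W`. -/
def StYW : Prop := ∀ D : EraD, D.Ok → ∀ (t : ℝ) (w : ℝ → E3) (r : E3), D.t0 < t →
  HasDerivAt (D.P w) (D.al t * D.Q w t + inner ℝ (D.b1 t) r) t →
  HasDerivAt (D.Q w) (D.ga t * D.P w t - inner ℝ (D.p t) r) t →
  HasDerivAt (D.Y w) (D.om * (D.A12 t * D.W w t + D.dd t * D.Y w t)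
    + D.x t * inner ℝ (D.b1 t) r) t ∧
  HasDerivAt (D.W w) (D.om * (D.A21 t * D.Y w t - D.dd t * D.W w t)
    + (D.x t ^ 2 * inner ℝ (D.b1 t) r
      - D.c * Real.sqrt (D.a / D.kap) / D.x t * inner ℝ (D.p t) r)) t

/-- T1: first and second order bounds on `b1, k, v`. -/
def StBounds : Prop := ∀ D : EraD, D.Ok → ∀ t ∈ D.I,
  1 / 2 ≤ ‖D.b1 t‖ ∧ ‖D.b1 t‖ ≤ 2 ∧ 1 / 2 ≤ ‖D.k t‖ ∧ ‖D.k t‖ ≤ 2 ∧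
  ‖D.v t‖ ≤ 2 * D.a ∧ ‖D.v t‖ * ‖D.k t‖ ≤ 11 / 10 * D.a ∧
  ‖D.b2 t‖ ≤ 2 + 4 * D.a * (t - D.t0) ∧
  ‖D.B t - D.B D.t0‖ ≤ D.Lam ^ 2 * (t - D.t0) ∧
  ‖D.b1 t - D.b1 D.t0‖ ≤ 2 * D.Lam * (t - D.t0) ∧
  ‖D.b1 t - D.b1 D.t0 - (t - D.t0) • D.B D.t0 (D.b1 D.t0)‖ ≤ 4 * D.Lam ^ 2 * (t - D.t0) ^ 2 ∧
  ‖D.k t - D.k D.t0‖ ≤ 2 * D.Lam * (t - D.t0) ∧
  ‖D.v t - D.v D.t0‖ ≤ 6 * D.a * D.Lam * (t - D.t0) ∧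
  ‖D.v t - D.v D.t0 - (t - D.t0) • (-(D.B D.t0 (D.v D.t0)) + (2 * D.a * D.kap) • D.k D.t0)‖
    ≤ 40 * D.a * D.Lam ^ 2 * (t - D.t0) ^ 2

/-- T2: the component of `v` orthogonal to `b1`. -/
def StPiv : Prop := ∀ D : EraD, D.Ok → ∀ t ∈ D.I,
  ‖D.v t - (inner ℝ (D.b1 t) (D.v t) / D.g t) • D.b1 t
    + (2 * D.a * D.c * D.kap * (t - D.t0)) • D.e‖ ≤ 60 * D.a * D.Lam ^ 2 * (t - D.t0) ^ 2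

/-- T3: the vector `p`. -/
def StP : Prop := ∀ D : EraD, D.Ok → ∀ t ∈ D.I,
  ‖D.p t - (D.k D.t0 - D.k2 t • D.e)‖ ≤ (1 + D.k2 t) / D.y ^ 16 ∧
  |‖D.p t‖ ^ 2 - (1 + D.k2 t ^ 2)| ≤ (1 + D.k2 t ^ 2) / D.y ^ 15 ∧ 1 / 2 ≤ ‖D.p t‖

/-- T4: the coefficients. -/
def StCoef : Prop := ∀ D : EraD, D.Ok → ∀ t ∈ D.I,
  |D.Ah t * (D.c ^ 2 + D.x t ^ 4) - 1| ≤ 1 / D.y ^ 12 ∧
  |D.Gh t - 2 * (1 - D.x t ^ 2)| ≤ 1 / D.y ^ 12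

/-- N2: consequences for the coefficients of the `Y, W` system (a statement on real numbers). -/
def StNum : Prop := ∀ c X y x A G : ℝ, 0 < c → c ≤ 1 / 10 ^ 8 → 2 ≤ X → c * X ≤ 1 / 10 ^ 4 →
  X / c ≤ y → 0 < x → c ≤ x ^ 4 → x ≤ X →
  |A * (c ^ 2 + x ^ 4) - 1| ≤ 1 / y ^ 12 → |G - 2 * (1 - x ^ 2)| ≤ 1 / y ^ 12 →
  0 ≤ x ^ 2 * A ∧ 0 ≤ G / x ^ 2 + 3 - x ^ 4 * A ∧
  0 ≤ (G / x ^ 2 + 3 - x ^ 4 * A) - 25 / 16 * (x ^ 2 * A) - 5 / 2 * ((1 - x ^ 4 * A) / x) ∧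
  0 ≤ 9 / 4 * (x ^ 2 * A) + 3 * ((1 - x ^ 4 * A) / x) - (G / x ^ 2 + 3 - x ^ 4 * A) ∧
  6 / 5 / x ^ 2 ≤ 5 / 4 * (x ^ 2 * A) + (1 - x ^ 4 * A) / x ∧
  3 / 2 * (x ^ 2 * A) + (1 - x ^ 4 * A) / x ≤ 8 / 5 / x ^ 2 ∧
  x ^ 2 * A ≤ 4 / x ^ 2 ∧ G / x ^ 2 + 3 - x ^ 4 * A ≤ 4 / x ^ 2 ∧ |(1 - x ^ 4 * A) / x| ≤ 1 / x ^ 2

/-- The homogeneous `Y, W` system on the window. -/
def EraD.Sys (D : EraD) (Y W : ℝ → ℝ) : Prop := ∀ t ∈ D.J,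
  HasDerivAt Y (D.om * (D.A12 t * W t + D.dd t * Y t)) t ∧
  HasDerivAt W (D.om * (D.A21 t * Y t - D.dd t * W t)) t

/-- R1: invariance of the cone. -/
def StCone : Prop := ∀ D : EraD, D.Ok → ∀ Y W : ℝ → ℝ, D.Sys Y W → 0 < Y D.s0 →
  W D.s0 = 7 / 5 * Y D.s0 → ∀ t ∈ D.J, 0 < Y t ∧ 5 / 4 * Y t ≤ W t ∧ W t ≤ 3 / 2 * Y t

/-- R2: growth. -/
def StGrowth : Prop := ∀ D : EraD, D.Ok → ∀ Y W : ℝ → ℝ, D.Sys Y W →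
  (∀ t ∈ D.J, 0 < Y t ∧ 5 / 4 * Y t ≤ W t ∧ W t ≤ 3 / 2 * Y t) → ∀ s ∈ D.J, ∀ t ∈ D.J, s ≤ t →
  Real.exp (6 / 5 * (1 / D.x s - 1 / D.x t)) * Y s ≤ Y t ∧
  Y t ≤ Real.exp (8 / 5 * (1 / D.x s - 1 / D.x t)) * Y s

/-- R3: dominance. -/
def StDom : Prop := ∀ D : EraD, D.Ok → ∀ Y W : ℝ → ℝ, D.Sys Y W →
  (∀ t ∈ D.J, 0 < Y t ∧ 5 / 4 * Y t ≤ W t ∧ W t ≤ 3 / 2 * Y t) →
  ∀ (Y1 W1 σ1 σ2 : ℝ → ℝ) (t1 ρ : ℝ), t1 ∈ D.J → 0 ≤ ρ → Y1 D.s0 = 0 → W1 D.s0 = 0 →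
  (∀ t ∈ Icc D.s0 t1, HasDerivAt Y1 (D.om * (D.A12 t * W1 t + D.dd t * Y1 t) + σ1 t) t ∧
    HasDerivAt W1 (D.om * (D.A21 t * Y1 t - D.dd t * W1 t) + σ2 t) t ∧
    |σ1 t| ≤ ρ * Y t ∧ |σ2 t| ≤ ρ * Y t) →
  |Y1 t1| ≤ ρ * (t1 - D.s0) * Y t1 ∧ |W1 t1| ≤ ρ * (t1 - D.s0) * W t1

/-- K1: closing of the induction, first part: the new rotation rate. -/
def StClose1 : Prop := ∀ D : EraD, D.Ok → ∀ (t : ℝ) (w q : ℝ → E3), t ∈ D.I → 1 ≤ D.x t →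
  q t ≠ 0 → inner ℝ (q t) (D.b1 t) = 0 → inner ℝ (q t) (D.b2 t) = 0 → inner ℝ (q t) (w t) = 0 →
  0 < D.Y w t → 5 / 4 * D.Y w t ≤ D.W w t → D.W w t ≤ 3 / 2 * D.Y w t →
  w t = (D.P w t / D.g t) • D.b1 t - (D.Q w t / ‖D.p t‖ ^ 2) • D.p t →
  |(|inner ℝ (q t) (D.M t (w t))|) - D.kap * (‖q t‖ * ‖w t‖)| ≤ D.c * (‖q t‖ * ‖w t‖) ∧ w t ≠ 0

/-- K2: closing of the induction, second part: the new tilt. -/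
def StClose2 : Prop := ∀ D : EraD, D.Ok → ∀ (t : ℝ) (w q : ℝ → E3), t ∈ D.I → 1 ≤ D.x t →
  q t ≠ 0 → inner ℝ (q t) (D.b1 t) = 0 → inner ℝ (q t) (D.b2 t) = 0 → inner ℝ (q t) (w t) = 0 →
  0 < D.Y w t → 5 / 4 * D.Y w t ≤ D.W w t → D.W w t ≤ 3 / 2 * D.Y w t →
  w t = (D.P w t / D.g t) • D.b1 t - (D.Q w t / ‖D.p t‖ ^ 2) • D.p t →
  ∃ e' : E3, ‖e'‖ = 1 ∧ inner ℝ e' (q t) = 0 ∧ inner ℝ e' (w t) = 0 ∧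
    11 / 20 * D.kap * D.c / D.x t ^ 2 * ‖w t‖ ≤ inner ℝ e' (D.M t (w t)) ∧
    inner ℝ e' (D.M t (w t)) ≤ 13 / 10 * D.kap * D.c / D.x t ^ 2 * ‖w t‖

/-- V1: bounds on the new flow. -/
def StNewB : Prop := ∀ D : EraD, D.Ok → ∀ t ∈ D.I, ‖D.M t‖ ≤ 2 * D.a ∧ ‖deriv D.M t‖ ≤ 4 * D.a ^ 2

/-- V2: deformation. -/
def StDef : Prop := ∀ D : EraD, D.Ok → ∀ b : ℝ → E3, (∀ t, HasDerivAt b (D.M t (b t)) t) →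
  ∀ s ∈ D.I, ∀ t ∈ D.I, ‖b t‖ ≤ D.a * ‖b s‖

/-- V3: the new wave vector. -/
def StQ : Prop := ∀ D : EraD, D.Ok → ∀ q : ℝ → E3,
  (∀ t, HasDerivAt q (-(adjoint (D.M t) (q t))) t) → q D.t0 = D.e →
  ∀ t ∈ D.I, 1 / 2 ≤ ‖q t‖ ∧ ‖q t‖ ≤ D.a

/-- V4: lower bound for the vorticity, whatever the amplitude of the new wave. -/
def StVort : Prop := ∀ D : EraD, D.Ok → ∀ t ∈ D.I, ∀ w q : E3, inner ℝ q (D.b1 t) = 0 →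
  inner ℝ q (D.b2 t) = 0 → ∀ A : Op, A = D.M t + ro w q →
  Real.sqrt (Real.sqrt D.a) ≤ ‖A - adjoint A‖

/-- ERA: the one-era theorem. -/
def StEra : Prop := ∀ D : EraD, D.Ok → ∀ a' : ℝ, 0 < a' →
  ∃ (w q : ℝ → E3) (e' : E3) (α : ℝ → ℝ) (kap' c' : ℝ),
    Flow D.M ∧ Wave D.M w q ∧
    -- the next stage
    ‖w D.tf‖ * ‖q D.tf‖ = a' ∧ |kap' - D.kap| ≤ D.c ∧
    D.c / (2 * (D.X - 1) ^ 2) ≤ c' ∧ c' ≤ 3 * D.c / (2 * (D.X - 1) ^ 2) ∧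
    inner ℝ (q D.tf) (D.M D.tf (w D.tf)) = a' * kap' ∧ ‖e'‖ = 1 ∧ inner ℝ e' (w D.tf) = 0 ∧
    inner ℝ e' (q D.tf) = 0 ∧ inner ℝ e' (D.M D.tf (w D.tf)) = ‖w D.tf‖ * kap' * c' ∧
    -- bounds
    (∀ t ∈ D.I, ‖D.M t‖ ≤ 2 * D.a ∧ ‖deriv D.M t‖ ≤ 4 * D.a ^ 2) ∧
    (∀ b : ℝ → E3, (∀ t, HasDerivAt b (D.M t (b t)) t) → ∀ s ∈ D.I, ∀ t ∈ D.I,
      ‖b t‖ ≤ D.a * ‖b s‖) ∧
    (∀ t ∈ D.I, 1 / 2 ≤ ‖q t‖ ∧ ‖q t‖ ≤ D.a) ∧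
    (∀ t ∈ D.I, ∀ s : ℝ, ∀ A : Op, A = D.M t + s • ro (w t) (q t) →
      Real.sqrt (Real.sqrt D.a) ≤ ‖A - adjoint A‖) ∧
    -- the weight
    (∀ t ∈ D.J, 0 < α t ∧ ‖w t‖ ≤ D.a * α t ∧ α t ≤ D.a * a') ∧
    (∀ s ∈ D.J, ∀ t ∈ D.J, s ≤ t → α s ≤ α t) ∧
    (∀ t ∈ D.J, D.x t ≤ 2 * D.x0 → α t ≤ D.a * a' * Real.exp (-(1 / (2 * D.x0)))) ∧
    (∀ (w1 r : ℝ → E3) (t1 ρ : ℝ), t1 ∈ D.J → 0 ≤ ρ → w1 D.s0 = 0 →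
      (∀ t ∈ Icc D.s0 t1, inner ℝ (q t) (w1 t) = 0 ∧ ‖r t‖ ≤ ρ * α t ∧
        HasDerivAt w1 (-(D.M t (w1 t))
          + (2 * inner ℝ (q t) (D.M t (w1 t)) / ‖q t‖ ^ 2) • q t + r t) t) →
      ‖w1 t1‖ ≤ D.a * ρ * α t1)

end Pool.Agent.Work.MP_b0497c_an.Forced.Ode
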